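import Mathlib

-- merged part: Pool.Agent.Work.MP_819de9_al.Gauss
section
-- merged part: Pool.Agent.Work.MP_819de9_al.Supp
section
/-! Supports, component maps and echelon forms in group algebras. -/

set_option linter.unusedSectionVars false

namespace Pool.Agent.Work.MP_819de9_al

open MonoidAlgebra

variable {κ : Type} [CommRing κ] {G : Type} [Group G]

/-- elements supported in a set -/
def SuppIn (S : Set G) (f : MonoidAlgebra κ G) : Prop := ∀ g, f.coeff g ≠ 0 → g ∈ S

theorem SuppIn.zero (S : Set G) : SuppIn S (0 : MonoidAlgebra κ G) := fun g h => by simp at h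

theorem SuppIn.add {S : Set G} {f f' : MonoidAlgebra κ G} (h : SuppIn S f) (h' : SuppIn S f') :
    SuppIn S (f + f') := fun g hg => by
  by_contra hn
  apply hg
  have h1 : f.coeff g = 0 := by_contra fun h1 => hn (h g h1)
  have h2 : f'.coeff g = 0 := by_contra fun h2 => hn (h' g h2)
  simp [h1, h2]

theorem SuppIn.neg {S : Set G} {f : MonoidAlgebra κ G} (h : SuppIn S f) : SuppIn S (-f) :=
  fun g hg => h g (by simpa using hg)

theorem SuppIn.sub {S : Set G} {f f' : MonoidAlgebra κ G} (h : SuppIn S f) (h' : SuppIn S f') :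
    SuppIn S (f - f') := by
  rw [sub_eq_add_neg]; exact h.add h'.neg

theorem SuppIn.single {S : Set G} {g : G} (h : g ∈ S) (r : κ) : SuppIn S (single g r) :=
  fun g' hg' => by
    classical
    rw [coeff_single, Finsupp.single_apply] at hg'
    split_ifs at hg' with h1
    · exact h1 ▸ h
    · exact (hg' rfl).elim

theorem SuppIn.mono {S T : Set G} {f : MonoidAlgebra κ G} (h : SuppIn S f) (hST : S ⊆ T) :
    SuppIn T f := fun g hg => hST (h g hg)

theorem SuppIn.sum {S : Set G} {ι : Type} (s : Finset ι) (f : ι → MonoidAlgebra κ G)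
    (h : ∀ i ∈ s, SuppIn S (f i)) : SuppIn S (∑ i ∈ s, f i) := by
  classical
  induction s using Finset.induction_on with
  | empty => simpa using SuppIn.zero S
  | insert a s ha ih =>
    rw [Finset.sum_insert ha]
    exact (h a (by simp)).add (ih fun i hi => h i (by simp [hi]))

theorem exists_of_coeff_mul {f f' : MonoidAlgebra κ G} {g : G} (h : (f * f').coeff g ≠ 0) :
    ∃ a b, f.coeff a ≠ 0 ∧ f'.coeff b ≠ 0 ∧ a * b = g := by
  classical
  have := support_coeff_mul_subset f f' (Finsupp.mem_support_iff.2 h)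
  obtain ⟨a, ha, b, hb, hab⟩ := Finset.mem_mul.1 this
  exact ⟨a, b, Finsupp.mem_support_iff.1 ha, Finsupp.mem_support_iff.1 hb, hab⟩

theorem SuppIn.mul {S T U : Set G} {f f' : MonoidAlgebra κ G} (h : SuppIn S f) (h' : SuppIn T f')
    (hU : ∀ s ∈ S, ∀ t ∈ T, s * t ∈ U) : SuppIn U (f * f') := fun g hg => by
  obtain ⟨a, b, ha, hb, rfl⟩ := exists_of_coeff_mul hg
  exact hU a (h a ha) b (h' b hb)

theorem suppIn_self (f : MonoidAlgebra κ G) : SuppIn {g | f.coeff g ≠ 0} f := fun _ h => h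

theorem exists_coeff_ne_zero {f : MonoidAlgebra κ G} (h : f ≠ 0) : ∃ g, f.coeff g ≠ 0 := by
  by_contra hn
  push Not at hn
  exact h (by ext g; simp [hn g])

variable (κ) in
/-- the subring of elements supported in a subgroup -/
def grp (E : Subgroup G) : Subring (MonoidAlgebra κ G) where
  carrier := {f | SuppIn (E : Set G) f}
  mul_mem' h h' := SuppIn.mul h h' fun _ hs _ ht => E.mul_mem hs ht
  one_mem' := SuppIn.single E.one_mem 1
  add_mem' h h' := SuppIn.add h h'
  zero_mem' := SuppIn.zero _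
  neg_mem' h := SuppIn.neg h

theorem mem_grp {E : Subgroup G} {f : MonoidAlgebra κ G} :
    f ∈ grp κ E ↔ SuppIn (E : Set G) f := Iff.rfl

theorem single_mem_grp {E : Subgroup G} {g : G} (h : g ∈ E) (r : κ) : single g r ∈ grp κ E :=
  SuppIn.single h r

open Classical in
/-- restriction of the coefficients to a set -/
noncomputable def filt (S : Set G) : MonoidAlgebra κ G →+ MonoidAlgebra κ G where
  toFun f := ofCoeff (f.coeff.filter (· ∈ S))
  map_zero' := by ext; simp [Finsupp.filter_apply]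
  map_add' f f' := by ext; simp [Finsupp.filter_add]

open Classical in
theorem coeff_filt (S : Set G) (f : MonoidAlgebra κ G) (g : G) :
    (filt S f).coeff g = if g ∈ S then f.coeff g else 0 := by
  simp [filt, Finsupp.filter_apply]

theorem suppIn_filt (S : Set G) (f : MonoidAlgebra κ G) : SuppIn S (filt S f) := fun g hg => by
  rw [coeff_filt] at hg
  split_ifs at hg with h
  · exact h
  · exact (hg rfl).elim

theorem coeff_ne_of_filt {S : Set G} {f : MonoidAlgebra κ G} {g : G}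
    (h : (filt S f).coeff g ≠ 0) : f.coeff g ≠ 0 := by
  rw [coeff_filt] at h
  split_ifs at h
  · exact h
  · exact (h rfl).elim

theorem filt_add_filt (S : Set G) (f : MonoidAlgebra κ G) : filt S f + filt Sᶜ f = f := by
  ext g
  simp only [coeff_add, Finsupp.add_apply, coeff_filt]
  by_cases h : g ∈ S <;> simp [h]

theorem filt_of_suppIn {S : Set G} {f : MonoidAlgebra κ G} (h : SuppIn S f) : filt S f = f := by
  ext g
  rw [coeff_filt]
  split_ifs with h1
  · rfl
  · exact (by_contra fun h2 => h1 (h g (Ne.symm h2)))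

theorem filt_of_suppIn_compl {S : Set G} {f : MonoidAlgebra κ G} (h : SuppIn Sᶜ f) :
    filt S f = 0 := by
  ext g
  rw [coeff_filt]
  split_ifs with h1
  · exact by_contra fun h2 => h g h2 h1
  · rfl

theorem filt_mul_left {A S S' : Set G} (hS : ∀ e ∈ A, ∀ g, e * g ∈ S ↔ g ∈ S')
    {d : MonoidAlgebra κ G} (hd : SuppIn A d) (f : MonoidAlgebra κ G) :
    filt S (d * f) = d * filt S' f := by
  conv_lhs => rw [← filt_add_filt S' f, mul_add, map_add]
  rw [filt_of_suppIn (hd.mul (suppIn_filt S' f) fun e he g hg => (hS e he g).2 hg),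
    filt_of_suppIn_compl (hd.mul (suppIn_filt S'ᶜ f) fun e he g hg h => hg ((hS e he g).1 h)),
    add_zero]

theorem filt_mul_right {A S S' : Set G} (hS : ∀ e ∈ A, ∀ g, g * e ∈ S ↔ g ∈ S')
    {d : MonoidAlgebra κ G} (hd : SuppIn A d) (f : MonoidAlgebra κ G) :
    filt S (f * d) = filt S' f * d := by
  conv_lhs => rw [← filt_add_filt S' f, add_mul, map_add]
  rw [filt_of_suppIn ((suppIn_filt S' f).mul hd fun g hg e he => (hS e he g).2 hg),
    filt_of_suppIn_compl ((suppIn_filt S'ᶜ f).mul hd fun g hg e he h => hg ((hS e he g).1 h)),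
    add_zero]

/-- the component of an element along the right coset of `γ` -/
noncomputable def comp (E : Subgroup G) (γ : G) : MonoidAlgebra κ G →ₗ[grp κ E] grp κ E where
  toFun f := ⟨filt (E : Set G) (f * single γ⁻¹ 1), suppIn_filt _ _⟩
  map_add' f f' := Subtype.ext (by simp [add_mul])
  map_smul' d f := Subtype.ext (by
    show filt (E : Set G) ((d : MonoidAlgebra κ G) * f * single γ⁻¹ 1) =
      (d : MonoidAlgebra κ G) * filt (E : Set G) (f * single γ⁻¹ 1)
    rw [mul_assoc]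
    exact filt_mul_left (A := (E : Set G)) (fun e he g => E.mul_mem_cancel_left he) d.2 _)

open Classical in
theorem coeff_comp (E : Subgroup G) (γ : G) (f : MonoidAlgebra κ G) (e : G) :
    ((comp E γ f : grp κ E) : MonoidAlgebra κ G).coeff e =
      if e ∈ E then f.coeff (e * γ) else 0 := by
  show (filt (E : Set G) (f * single γ⁻¹ 1)).coeff e = _
  rw [coeff_filt, coeff_mul_single_apply]
  simp

theorem comp_ne_zero (E : Subgroup G) {γ γ' : G} {f : MonoidAlgebra κ G} (h : f.coeff γ' ≠ 0)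
    (hE : γ' * γ⁻¹ ∈ E) : comp E γ f ≠ 0 := by
  intro h0
  have := coeff_comp E γ f (γ' * γ⁻¹)
  rw [h0, if_pos hE] at this
  simp at this
  exact h this.symm

theorem comp_eq_zero (E : Subgroup G) {γ : G} {f : MonoidAlgebra κ G}
    (h : ∀ γ', f.coeff γ' ≠ 0 → γ' * γ⁻¹ ∉ E) : comp E γ f = 0 := by
  apply Subtype.ext
  ext e
  rw [coeff_comp]
  split_ifs with h1
  · by_contra h2
    exact h _ h2 (by simpa using h1)
  · rfl

/-- leading keys of a set of elements -/
def Lead {K : Type} [LinearOrder K] (key : G → K) (M : Set (MonoidAlgebra κ G)) : Set K :=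
  {t | ∃ f ∈ M, ∃ γ, f.coeff γ ≠ 0 ∧ key γ = t ∧ ∀ γ', f.coeff γ' ≠ 0 → key γ' ≤ t}

theorem exists_lead {K : Type} [LinearOrder K] (key : G → K) {f : MonoidAlgebra κ G} (h : f ≠ 0) :
    ∃ γ, f.coeff γ ≠ 0 ∧ ∀ γ', f.coeff γ' ≠ 0 → key γ' ≤ key γ := by
  obtain ⟨g, hg⟩ := exists_coeff_ne_zero h
  obtain ⟨γ, hγ, hmax⟩ := f.coeff.support.exists_max_image key ⟨g, Finsupp.mem_support_iff.2 hg⟩
  exact ⟨γ, Finsupp.mem_support_iff.1 hγ, fun γ' h' => hmax γ' (Finsupp.mem_support_iff.2 h')⟩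

theorem echelon_inj (E : Subgroup G) {K : Type} [LinearOrder K] (key : G → K)
    (hkey : ∀ a b, key a = key b → a * b⁻¹ ∈ E) (M : Submodule (grp κ E) (MonoidAlgebra κ G))
    (T : Finset K) (hT : Lead key (M : Set (MonoidAlgebra κ G)) ⊆ T) :
    ∃ φ : M →ₗ[grp κ E] (T → grp κ E), Function.Injective φ := by
  refine ⟨LinearMap.pi fun t : T => (comp E (Function.invFun key t.1)).comp M.subtype, ?_⟩
  rw [← LinearMap.ker_eq_bot, eq_bot_iff]
  intro f hf
  by_contra h0
  have h1 : (f : MonoidAlgebra κ G) ≠ 0 := fun h => h0 (by simpa using h)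
  obtain ⟨γ, hγ, hmax⟩ := exists_lead key h1
  have ht : key γ ∈ T := hT ⟨f, f.2, γ, hγ, rfl, hmax⟩
  have h2 := congrFun (LinearMap.mem_ker.1 hf) ⟨key γ, ht⟩
  refine comp_ne_zero E hγ (hkey _ _ ?_) h2
  exact (Function.invFun_eq ⟨γ, rfl⟩).symm

theorem echelon_indep (E : Subgroup G) [NoZeroDivisors (grp κ E)] {K : Type} [LinearOrder K]
    (key : G → K) (hkey : ∀ a b, a * b⁻¹ ∈ E → key a = key b)
    (M : Submodule (grp κ E) (MonoidAlgebra κ G))
    (T : Finset K) (hT : (T : Set K) ⊆ Lead key (M : Set (MonoidAlgebra κ G))) :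
    ∃ v : T → M, LinearIndependent (grp κ E) v := by
  classical
  choose f hf γ hγ hk hmax using fun t : T => hT t.2
  refine ⟨fun t => ⟨f t, hf t⟩, ?_⟩
  rw [Fintype.linearIndependent_iff]
  intro d hd
  by_contra hne
  push Not at hne
  obtain ⟨t, ht, htmax⟩ := (Finset.univ.filter fun t : T => d t ≠ 0).exists_max_image
    (fun t => (t : K)) (by obtain ⟨t, ht⟩ := hne; exact ⟨t, by simpa using ht⟩)
  have h1 := congrArg (fun x : M => comp E (γ t) (x : MonoidAlgebra κ G)) hd
  simp only [Submodule.coe_sum, Submodule.coe_smul, map_sum, map_smul, Submodule.coe_zero,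
    map_zero] at h1
  rw [Finset.sum_eq_single t] at h1
  · rcases mul_eq_zero.1 h1 with h2 | h2
    · exact (Finset.mem_filter.1 ht).2 h2
    · exact comp_ne_zero E (hγ t) (by simp) h2
  · intro t' _ hne'
    by_cases h0 : d t' = 0
    · simp [h0]
    · have h3 : (t' : K) ≤ t := htmax t' (by simpa using h0)
      rw [comp_eq_zero E, smul_zero]
      intro γ' hγ' hE
      have h4 := hmax t' γ' hγ'
      rw [hkey _ _ hE, hk t] at h4
      exact hne' (Subtype.ext (le_antisymm h3 h4))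
  · simp

theorem rank_le_of_lead (E : Subgroup G) [StrongRankCondition (grp κ E)] {K : Type}
    [LinearOrder K] (key : G → K)
    (hkey : ∀ a b, key a = key b → a * b⁻¹ ∈ E) (M : Submodule (grp κ E) (MonoidAlgebra κ G))
    (T : Finset K) (hT : Lead key (M : Set (MonoidAlgebra κ G)) ⊆ T) :
    Module.rank (grp κ E) M ≤ T.card := by
  obtain ⟨φ, hφ⟩ := echelon_inj E key hkey M T hT
  have := LinearMap.rank_le_of_injective φ hφ
  rwa [rank_fun', Fintype.card_coe] at this

theorem rank_eq_of_lead (E : Subgroup G) [NoZeroDivisors (grp κ E)]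
    [StrongRankCondition (grp κ E)] {K : Type} [LinearOrder K] (key : G → K)
    (hkey : ∀ a b, key a = key b ↔ a * b⁻¹ ∈ E) (M : Submodule (grp κ E) (MonoidAlgebra κ G))
    (T : Finset K) (hT : (T : Set K) = Lead key (M : Set (MonoidAlgebra κ G))) :
    Module.rank (grp κ E) M = T.card := by
  refine le_antisymm (rank_le_of_lead E key (fun a b => (hkey a b).1) M T hT.ge) ?_
  obtain ⟨v, hv⟩ := echelon_indep E key (fun a b => (hkey a b).2) M T hT.le
  have : Nontrivial (grp κ E) := nontrivial_of_invariantBasisNumber _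
  simpa using hv.cardinal_le_rank

theorem single_mul_ne_zero {f : MonoidAlgebra κ G} (h : f ≠ 0) (g : G) :
    single g (1 : κ) * f ≠ 0 := fun h0 => h (by
  have := congrArg (fun x => single g⁻¹ (1 : κ) * x) h0
  simpa [← mul_assoc, single_mul_single, ← one_def] using this)

theorem mul_single_ne_zero {f : MonoidAlgebra κ G} (h : f ≠ 0) (g : G) :
    f * single g (1 : κ) ≠ 0 := fun h0 => h (by
  have := congrArg (fun x => x * single g⁻¹ (1 : κ)) h0
  simpa [mul_assoc, single_mul_single, ← one_def] using this)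

/-- unique products modulo a normal subgroup -/
theorem up_mul (N : Subgroup G) [hN : N.Normal] [NoZeroDivisors (grp κ N)]
    {α β : MonoidAlgebra κ G} {a0 c0 : G} (ha : α.coeff a0 ≠ 0) (hc : β.coeff c0 ≠ 0)
    (h : ∀ a c, α.coeff a ≠ 0 → β.coeff c ≠ 0 → a * c * (a0 * c0)⁻¹ ∈ N →
      a * a0⁻¹ ∈ N ∧ c * c0⁻¹ ∈ N) :
    ∃ γ, (α * β).coeff γ ≠ 0 ∧ γ * (a0 * c0)⁻¹ ∈ N := by
  set A : Set G := {a | a * a0⁻¹ ∈ N} with hA
  set C : Set G := {c | c * c0⁻¹ ∈ N} with hC
  set U : Set G := {γ | γ * (a0 * c0)⁻¹ ∈ N} with hU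
  have hAC : ∀ a ∈ A, ∀ c ∈ C, a * c ∈ U := fun a ha c hc => by
    have := N.mul_mem ha (hN.conj_mem _ hc a0)
    simpa [hU, mul_assoc] using this
  have e1 : filt U (α * β) = filt A α * filt C β := by
    conv_lhs => rw [← filt_add_filt A α, ← filt_add_filt C β, add_mul, mul_add, map_add, map_add]
    rw [filt_of_suppIn ((suppIn_filt A α).mul (suppIn_filt C β) hAC), filt_add_filt,
      filt_of_suppIn_compl (f := filt A α * filt Cᶜ β),
      filt_of_suppIn_compl (f := filt Aᶜ α * β), add_zero, add_zero]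
    · intro γ hγ hγU
      obtain ⟨a, c, ha', hc', rfl⟩ := exists_of_coeff_mul hγ
      exact suppIn_filt Aᶜ α a ha' (h a c (coeff_ne_of_filt ha') hc' hγU).1
    · intro γ hγ hγU
      obtain ⟨a, c, ha', hc', rfl⟩ := exists_of_coeff_mul hγ
      exact suppIn_filt Cᶜ β c hc' (h a c (coeff_ne_of_filt ha') (coeff_ne_of_filt hc') hγU).2
  have hα : filt A α ≠ 0 := fun h0 => by
    have := coeff_filt A α a0
    rw [h0, if_pos (by simp [hA])] at this
    exact ha this.symm
  have hβ : filt C β ≠ 0 := fun h0 => by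
    have := coeff_filt C β c0
    rw [h0, if_pos (by simp [hC])] at this
    exact hc this.symm
  have hd : filt A α * single a0⁻¹ 1 ∈ grp κ N :=
    (suppIn_filt A α).mul (SuppIn.single (S := {a0⁻¹}) rfl 1) fun a ha t ht => by
      rw [Set.mem_singleton_iff.1 ht]; exact ha
  have hd' : single a0 1 * filt C β * single (a0 * c0)⁻¹ 1 ∈ grp κ N :=
    ((SuppIn.single (S := {a0}) rfl 1).mul (U := U) (suppIn_filt C β) fun a ha c hc =>
      hAC a (by rw [Set.mem_singleton_iff.1 ha]; simp [hA]) c hc).mul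
      (SuppIn.single (S := {(a0 * c0)⁻¹}) rfl 1) fun a ha t ht => by
        rw [Set.mem_singleton_iff.1 ht]; exact ha
  have e2 : filt A α * filt C β ≠ 0 := fun h0 => by
    have h1 : (⟨_, hd⟩ : grp κ N) * ⟨_, hd'⟩ = 0 := Subtype.ext (by
      show filt A α * single a0⁻¹ 1 * (single a0 1 * filt C β * single (a0 * c0)⁻¹ 1) = 0
      have : filt A α * single a0⁻¹ 1 * (single a0 1 * filt C β * single (a0 * c0)⁻¹ 1) =
          filt A α * (single a0⁻¹ 1 * single a0 1) * filt C β * single (a0 * c0)⁻¹ 1 := by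
        simp only [mul_assoc]
      rw [this, single_mul_single, inv_mul_cancel, mul_one, ← one_def, mul_one, h0, zero_mul])
    rcases mul_eq_zero.1 h1 with h2 | h2
    · exact mul_single_ne_zero hα _ (congrArg Subtype.val h2)
    · exact mul_single_ne_zero (single_mul_ne_zero hβ _) _ (congrArg Subtype.val h2)
  rw [← e1] at e2
  obtain ⟨γ, hγ⟩ := exists_coeff_ne_zero e2
  exact ⟨γ, coeff_ne_of_filt hγ, suppIn_filt U _ γ hγ⟩

theorem src_of_ringEquiv {R R' : Type} [Ring R] [Ring R'] (e : R ≃+* R')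
    [StrongRankCondition R] : StrongRankCondition R' := by
  refine ⟨fun {n m} f hf => ?_⟩
  let f' : (Fin n → R) →ₗ[R] (Fin m → R) :=
    { toFun := fun x j => e.symm (f (fun i => e (x i)) j)
      map_add' := fun x y => by
        funext j
        have : (fun i => e ((x + y) i)) = (fun i => e (x i)) + fun i => e (y i) := by
          funext i; simp
        rw [this, map_add]; simp
      map_smul' := fun r x => by
        funext j
        have : (fun i => e ((r • x) i)) = e r • fun i => e (x i) := by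
          funext i; simp
        rw [this, map_smul]; simp }
  refine le_of_fin_injective R f' fun x y hxy => ?_
  have : f (fun i => e (x i)) = f (fun i => e (y i)) :=
    funext fun j => e.symm.injective (congrFun hxy j)
  exact funext fun i => e.injective (congrFun (hf this) i)

variable (κ) in
/-- the group algebra of a subgroup is the subring of elements supported there -/
noncomputable def grpEquiv (E : Subgroup G) : MonoidAlgebra κ E ≃+* grp κ E :=
  RingEquiv.ofBijective ((mapDomainRingHom κ E.subtype).codRestrict (grp κ E) fun f => by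
      induction f using MonoidAlgebra.induction_linear with
      | zero => simp
      | add f f' h h' => rw [map_add]; exact add_mem h h'
      | single e r =>
        have : mapDomainRingHom κ E.subtype (single e r) = single (e : G) r := by simp
        rw [this]; exact single_mem_grp e.2 r)
    ⟨fun f f' h => mapDomain_injective (f := E.subtype) Subtype.val_injective
        (congrArg Subtype.val h),
      fun f => ⟨comapDomain E.subtype Subtype.val_injective f.1, Subtype.ext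
        (mapDomain_comapDomain (f := E.subtype) (fun g hg =>
          ⟨⟨g, f.2 g (Finsupp.mem_support_iff.1 hg)⟩, rfl⟩) Subtype.val_injective)⟩⟩

end Pool.Agent.Work.MP_819de9_al
end

-- merged part: Pool.Agent.Work.MP_819de9_al.Coprime
section
/-! Coprimality of `g - 1` and `u - 1` for commuting independent group elements. -/

set_option linter.unusedSectionVars false

namespace Pool.Agent.Work.MP_819de9_al

open MonoidAlgebra

variable {B : Type} [CommRing B] {G : Type} [Group G]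

variable (B) in
/-- the element `g - 1` -/
noncomputable def rho (g : G) : MonoidAlgebra B G := single g 1 - 1

theorem finsupp_eq_zero_of_invariant {X : Type} (p : X →₀ B) (e : X → X)
    (he : Function.Injective e) (hp : Finsupp.mapDomain e p = p)
    (hper : ∀ x (j : ℕ), j ≠ 0 → e^[j] x ≠ x) : p = 0 := by
  ext x
  by_contra hx
  have h1 : ∀ y, p (e y) = p y := fun y => by
    conv_lhs => rw [← hp]
    exact Finsupp.mapDomain_apply he p y
  have h2 : ∀ j : ℕ, p (e^[j] x) = p x := fun j => by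
    induction j with
    | zero => rfl
    | succ j ih => rw [Function.iterate_succ_apply', h1, ih]
  refine Set.infinite_of_injective_forall_mem (f := fun j : ℕ => e^[j] x)
    (s := (p.support : Set X)) ?_ (fun j => by simpa [h2] using hx) p.support.finite_toSet
  have h3 : ∀ i j : ℕ, i < j → e^[i] x ≠ e^[j] x := fun i j hij h => by
    obtain ⟨d, rfl⟩ := Nat.exists_eq_add_of_lt hij
    rw [add_assoc, Function.iterate_add_apply] at h
    exact hper x (d + 1) (by omega) (he.iterate i h).symm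
  intro i j h
  rcases lt_trichotomy i j with h' | h' | h'
  · exact (h3 i j h' h).elim
  · exact h'
  · exact (h3 j i h' h.symm).elim

/-- the projection to the permutation module on left cosets -/
noncomputable def prj (Z : Subgroup G) : MonoidAlgebra B G →+ (G ⧸ Z →₀ B) :=
  (Finsupp.mapDomain.addMonoidHom QuotientGroup.mk).comp coeffAddEquiv.toAddMonoidHom

theorem prj_single (Z : Subgroup G) (g : G) (r : B) :
    prj Z (single g r) = Finsupp.single (g : G ⧸ Z) r := by
  simp [prj]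

theorem prj_mul_single (Z : Subgroup G) {z : G} (hz : z ∈ Z) (m : MonoidAlgebra B G) :
    prj Z (m * single z 1) = prj Z m := by
  induction m using MonoidAlgebra.induction_linear with
  | zero => simp
  | add a b ha hb => rw [add_mul, map_add, map_add, ha, hb]
  | single g r =>
    rw [single_mul_single, mul_one, prj_single, prj_single]
    congr 1
    exact QuotientGroup.eq.2 (by simpa using hz)

theorem prj_mul_rho (g : G) (m : MonoidAlgebra B G) :
    prj (Subgroup.zpowers g) (m * rho B g) = 0 := by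
  rw [rho, mul_sub, mul_one, map_sub, prj_mul_single _ (Subgroup.mem_zpowers g), sub_self]

/-- group elements congruent to one modulo a left ideal -/
def augL (I : Submodule (MonoidAlgebra B G) (MonoidAlgebra B G)) : Subgroup G where
  carrier := {z | rho B z ∈ I}
  one_mem' := by simp [rho, ← one_def]
  mul_mem' := fun {a b} ha hb => by
    have : rho B (a * b) = single a 1 * rho B b + rho B a := by
      simp [rho, mul_sub, single_mul_single]
    show rho B (a * b) ∈ I
    rw [this]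
    exact I.add_mem (I.smul_mem _ hb) ha
  inv_mem' := fun {a} ha => by
    have : rho B a⁻¹ = -single a⁻¹ 1 * rho B a := by
      simp [rho, mul_sub, single_mul_single, ← one_def]; abel
    show rho B a⁻¹ ∈ I
    rw [this]
    exact I.smul_mem _ ha

theorem exists_of_prj_eq_zero (g : G) {m : MonoidAlgebra B G}
    (h : prj (Subgroup.zpowers g) m = 0) : ∃ n, m = n * rho B g := by
  let I : Submodule (MonoidAlgebra B G) (MonoidAlgebra B G) := Submodule.span _ {rho B g}
  have hI : Subgroup.zpowers g ≤ augL I :=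
    (Subgroup.zpowers_le (H := augL I)).2 (Submodule.mem_span_singleton_self _)
  let s : (G ⧸ Subgroup.zpowers g →₀ B) →+ MonoidAlgebra B G :=
    coeffAddEquiv.symm.toAddMonoidHom.comp (Finsupp.mapDomain.addMonoidHom Quotient.out)
  have key : ∀ m : MonoidAlgebra B G, s (prj (Subgroup.zpowers g) m) - m ∈ I := fun m => by
    induction m using MonoidAlgebra.induction_linear with
    | zero => simp
    | add a b ha hb =>
      rw [map_add, map_add, add_sub_add_comm]
      exact I.add_mem ha hb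
    | single γ r =>
      obtain ⟨z, hz⟩ := QuotientGroup.mk_out_eq_mul (Subgroup.zpowers g) γ
      have : s (prj (Subgroup.zpowers g) (single γ r)) - single γ r = single γ r * rho B (z : G) := by
        rw [prj_single]
        simp [s, hz, rho, mul_sub, single_mul_single]
      rw [this]
      exact I.smul_mem _ (hI z.2)
  have := key m
  rw [h, map_zero, zero_sub, I.neg_mem_iff, Submodule.mem_span_singleton] at this
  obtain ⟨n, hn⟩ := this
  exact ⟨n, hn.symm⟩

theorem prj_eq_zero_of_mul {g u : G} (hc : Commute g u)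
    (hi : ∀ j : ℕ, j ≠ 0 → u ^ j ∉ Subgroup.zpowers g) {m h : MonoidAlgebra B G}
    (hm : m * rho B u = h * rho B g) : prj (Subgroup.zpowers g) m = 0 := by
  have hconj : ∀ z ∈ Subgroup.zpowers g, u⁻¹ * z * u = z := by
    rintro _ ⟨i, rfl⟩
    rw [mul_assoc, (hc.zpow_left i).eq, inv_mul_cancel_left]
  have hconj' : ∀ z, u⁻¹ * z * u ∈ Subgroup.zpowers g → z ∈ Subgroup.zpowers g := fun z hz => by
    have := hconj _ hz
    have h2 : u⁻¹ * z * u = z := by
      have h3 := congrArg (fun x => u * x * u⁻¹) this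
      simpa [mul_assoc] using h3
    rwa [h2] at hz
  let e : G ⧸ Subgroup.zpowers g → G ⧸ Subgroup.zpowers g :=
    Quotient.map (fun γ => γ * u) fun a b hab => by
      have h1 : a⁻¹ * b ∈ Subgroup.zpowers g := QuotientGroup.leftRel_apply.1 hab
      refine QuotientGroup.leftRel_apply.2 ?_
      have := hconj _ h1
      rw [mul_inv_rev, mul_assoc, ← mul_assoc a⁻¹, ← mul_assoc, this]
      exact h1
  have he : ∀ γ : G, e γ = ((γ * u : G) : G ⧸ Subgroup.zpowers g) := fun _ => rfl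
  refine finsupp_eq_zero_of_invariant _ e (fun a b hab => ?_) ?_ fun x j hj hx => ?_
  · obtain ⟨a, rfl⟩ := QuotientGroup.mk_surjective a
    obtain ⟨b, rfl⟩ := QuotientGroup.mk_surjective b
    rw [he, he, QuotientGroup.eq] at hab
    exact QuotientGroup.eq.2 (hconj' _ (by simpa [mul_assoc] using hab))
  · have h1 : ∀ m : MonoidAlgebra B G, Finsupp.mapDomain e (prj (Subgroup.zpowers g) m) =
        prj (Subgroup.zpowers g) (m * single u 1) := fun m => by
      induction m using MonoidAlgebra.induction_linear with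
      | zero => simp
      | add a b ha hb => rw [add_mul, map_add, map_add, Finsupp.mapDomain_add, ha, hb]
      | single γ r =>
        rw [single_mul_single, mul_one, prj_single, prj_single, Finsupp.mapDomain_single, he]
    have h2 := congrArg (prj (Subgroup.zpowers g)) hm
    rw [prj_mul_rho, rho, mul_sub, mul_one, map_sub, sub_eq_zero] at h2
    rw [h1, h2]
  · obtain ⟨x, rfl⟩ := QuotientGroup.mk_surjective x
    have h1 : ∀ j : ℕ, e^[j] x = ((x * u ^ j : G) : G ⧸ Subgroup.zpowers g) := fun j => by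
      induction j with
      | zero => simp
      | succ j ih => rw [Function.iterate_succ_apply', ih, he, pow_succ, mul_assoc]
    rw [h1, eq_comm, QuotientGroup.eq] at hx
    exact hi j hj (by simpa using hx)

theorem coprime_left {g u : G} (hc : Commute g u)
    (hi : ∀ j : ℕ, j ≠ 0 → u ^ j ∉ Subgroup.zpowers g) {m h : MonoidAlgebra B G}
    (hm : m * rho B u = h * rho B g) : ∃ n, m = n * rho B g :=
  exists_of_prj_eq_zero g (prj_eq_zero_of_mul hc hi hm)

/-- the anti-automorphism induced by inversion -/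
noncomputable def anti : MonoidAlgebra B G ≃+ MonoidAlgebra B G :=
  mapDomainAddEquiv B (Equiv.inv G)

theorem anti_single (g : G) (r : B) : anti (single g r) = single g⁻¹ r := by simp [anti]

theorem anti_mul (a b : MonoidAlgebra B G) : anti (a * b) = anti b * anti a := by
  induction a using MonoidAlgebra.induction_linear with
  | zero => simp
  | add a a' ha ha' => rw [add_mul, map_add, map_add, ha, ha', mul_add]
  | single g r =>
    induction b using MonoidAlgebra.induction_linear with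
    | zero => simp
    | add b b' hb hb' => rw [mul_add, map_add, map_add, hb, hb', add_mul]
    | single g' r' => simp only [single_mul_single, anti_single, mul_inv_rev, mul_comm r r']

theorem anti_rho (g : G) : anti (rho B g) = rho B g⁻¹ := by
  rw [rho, map_sub, anti_single, one_def, anti_single, inv_one]; rfl

theorem coprime_right {g u : G} (hc : Commute g u)
    (hi : ∀ j : ℕ, j ≠ 0 → u ^ j ∉ Subgroup.zpowers g) {m h : MonoidAlgebra B G}
    (hm : rho B u * m = rho B g * h) : ∃ n, m = rho B g * n := by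
  have h1 := congrArg anti hm
  rw [anti_mul, anti_mul, anti_rho, anti_rho] at h1
  obtain ⟨n, hn⟩ := coprime_left hc.inv_inv (fun j hj h => hi j hj (by
    rw [Subgroup.zpowers_inv, inv_pow] at h
    exact (Subgroup.inv_mem_iff _).1 h)) h1
  refine ⟨anti.symm n, anti.injective ?_⟩
  rw [anti_mul, anti_rho, hn, AddEquiv.apply_symm_apply]

theorem mem_zpowers_of_rho [Nontrivial B] {g g' : G} {n : MonoidAlgebra B G}
    (h : rho B g' = n * rho B g) : g' ∈ Subgroup.zpowers g := by
  have h1 := congrArg (prj (Subgroup.zpowers g)) h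
  rw [prj_mul_rho, rho, map_sub, one_def, prj_single, prj_single, sub_eq_zero,
    Finsupp.single_left_inj one_ne_zero, eq_comm, QuotientGroup.eq] at h1
  simpa using h1

theorem rho_ne_zero [Nontrivial B] {g : G} (h : g ≠ 1) : rho B g ≠ 0 := by
  rw [rho, sub_ne_zero, one_def, Ne, single_left_inj one_ne_zero]
  exact h

theorem rho_mul_single (g y : G) :
    rho B g * single y 1 = single y 1 * rho B (y⁻¹ * g * y) := by
  simp [rho, mul_sub, sub_mul, single_mul_single, mul_assoc]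

theorem rho_commute {g u : G} (h : Commute g u) : rho B g * rho B u = rho B u * rho B g := by
  simp only [rho, mul_sub, sub_mul, single_mul_single, h.eq, mul_one, one_mul]; abel

theorem map_rho {B' : Type} [CommRing B'] (f : B →+* B') (g : G) :
    mapRingHom G f (rho B g) = rho B' g := by
  simp [rho]

variable (B G) in
/-- the augmentation -/
noncomputable def aug : MonoidAlgebra B G →+* B := (lift B B G 1).toRingHom

theorem aug_single (g : G) (r : B) : aug B G (single g r) = r := by simp [aug]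

theorem aug_rho (g : G) : aug B G (rho B g) = 0 := by simp [rho, aug_single]

end Pool.Agent.Work.MP_819de9_al
end

-- merged part: Pool.Agent.Work.MP_819de9_al.Rows
section
/-! Unimodular rows of length two, and the graded non-freeness criterion. -/

set_option linter.unusedSectionVars false

namespace Pool.Agent.Work.MP_819de9_al

open MonoidAlgebra

/-- a transferable form of cyclicity of the kernel of the row `(r, a)` -/
def Cyc {R : Type} [Ring R] (r a : R) : Prop :=
  ∃ v g h α β : R, g * a = h * r ∧ r * v = α * g ∧ 1 - a * v = β * g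

theorem Cyc.map {R R' : Type} [Ring R] [Ring R'] (φ : R →+* R') {r a : R} (h : Cyc r a) :
    Cyc (φ r) (φ a) := by
  obtain ⟨v, g, h, α, β, h1, h2, h3⟩ := h
  exact ⟨φ v, φ g, φ h, φ α, φ β, by simpa using congrArg φ h1, by simpa using congrArg φ h2,
    by simpa using congrArg φ h3⟩

theorem Cyc.gen {R : Type} [Ring R] {r a : R} (h : Cyc r a) :
    ∃ g h, g * a = h * r ∧ ∀ f h', f * a = h' * r → ∃ w, f = w * g := by
  obtain ⟨v, g, h, α, β, h1, h2, h3⟩ := h
  refine ⟨g, h, h1, fun f h' hf => ⟨h' * α + f * β, ?_⟩⟩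
  rw [add_mul, mul_assoc, mul_assoc, ← h2, ← h3, mul_sub, ← mul_assoc, ← mul_assoc, hf]
  simp

theorem cyc_of_free {R : Type} [Ring R] [RankCondition R]
    (hfree : ∀ (M : Type) [AddCommGroup M] [Module R M],
      Nonempty ((M × R) ≃ₗ[R] (R × R)) → Module.Free R M)
    {r a u v : R} (huv : u * r + v * a = 1) : Cyc r a := by
  classical
  let φ : (R × R) →ₗ[R] R :=
    LinearMap.coprod (LinearMap.toSpanSingleton R R r) (LinearMap.toSpanSingleton R R a)
  have hφ : ∀ z : R × R, φ z = z.1 * r + z.2 * a := fun z => by simp [φ]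
  let z0 : R × R := (u, v)
  have hz0 : φ z0 = 1 := by rw [hφ]; exact huv
  let e : (R × R) →ₗ[R] LinearMap.ker φ :=
    LinearMap.codRestrict _ (LinearMap.id - (LinearMap.toSpanSingleton R _ z0).comp φ) fun z => by
      simp [hz0]
  have he : ∀ z, (e z : R × R) = z - φ z • z0 := fun z => rfl
  have hep : ∀ p : LinearMap.ker φ, e p = p := fun p => Subtype.ext (by
    rw [he, LinearMap.mem_ker.1 p.2, zero_smul, sub_zero])
  have hez : e z0 = 0 := Subtype.ext (by rw [he, hz0, one_smul, sub_self]; rfl)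
  have : Module.Free R (LinearMap.ker φ) := hfree _ ⟨LinearEquiv.ofLinearMap
    (LinearMap.coprod (LinearMap.ker φ).subtype (LinearMap.toSpanSingleton R _ z0))
    (LinearMap.prod e φ)
    (LinearMap.ext fun z => by simp [he])
    (LinearMap.ext fun ⟨p, c⟩ => by simp [hep, hez, hz0])⟩
  let b := Module.Free.chooseBasis R (LinearMap.ker φ)
  have hsub : Subsingleton (Module.Free.ChooseBasisIndex R (LinearMap.ker φ)) := by
    by_contra hn
    obtain ⟨i, j, hij⟩ := (not_subsingleton_iff_nontrivial.1 hn).exists_pair_ne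
    let F : (Fin 2 → R) →ₗ[R] (Fin 3 → R) :=
      (LinearMap.pi ![φ, (b.coord i).comp e, (b.coord j).comp e]).comp
        (LinearEquiv.finTwoArrow R R).toLinearMap
    have hF : Function.Surjective F := fun c => by
      refine ⟨(LinearEquiv.finTwoArrow R R).symm (c 0 • z0 + c 1 • (b i).1 + c 2 • (b j).1), ?_⟩
      simp only [F, LinearMap.comp_apply, LinearEquiv.coe_coe, LinearEquiv.apply_symm_apply]
      funext k
      fin_cases k
      · simp [hz0]
      · simp [hez, hep, hij.symm]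
      · simp [hez, hep, hij]
    exact absurd (le_of_fin_surjective R F hF) (by norm_num)
  have hcyc : ∃ g : LinearMap.ker φ, ∀ p : LinearMap.ker φ, ∃ c : R, p = c • g := by
    rcases isEmpty_or_nonempty (Module.Free.ChooseBasisIndex R (LinearMap.ker φ)) with h | ⟨⟨i⟩⟩
    · exact ⟨0, fun p => ⟨0, b.repr.injective (Subsingleton.elim _ _)⟩⟩
    · refine ⟨b i, fun p => ⟨b.repr p i, b.repr.injective ?_⟩⟩
      ext j
      rw [Subsingleton.elim j i]
      simp
  obtain ⟨g, hg⟩ := hcyc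
  obtain ⟨α, hα⟩ := hg (e (1, 0))
  obtain ⟨β, hβ⟩ := hg (e (0, 1))
  have h1 := LinearMap.mem_ker.1 g.2
  rw [hφ] at h1
  have h2 := congrArg (fun p : LinearMap.ker φ => p.1.2) hα
  have h3 := congrArg (fun p : LinearMap.ker φ => p.1.2) hβ
  simp only [he, hφ, z0] at h2 h3
  refine ⟨v, g.1.2, -g.1.1, -α, β, ?_, ?_, ?_⟩
  · rw [neg_mul, eq_neg_iff_add_eq_zero, add_comm, h1]
  · simpa [neg_eq_iff_eq_neg] using h2
  · simpa using h3

theorem rankCondition_monoidAlgebra (k G : Type) [CommRing k] [Nontrivial k] [Group G] :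
    RankCondition (MonoidAlgebra k G) := by
  rw [rankCondition_iff_matrix]
  intro n m f g h
  refine (rankCondition_iff_matrix (R := k)).1 inferInstance n m (f.map (aug k G))
    (g.map (aug k G)) ?_
  rw [← Matrix.map_mul, h]
  simp

theorem row_unimodular {R : Type} [Ring R] {Y Yi r s a b : R} (h0 : Yi * Y = 1)
    (h1 : r * s = a * r) (h2 : Y * s * Yi = b * r) :
    (Yi * Yi * b * a) * r + (Yi * Yi * (Y - Y * s * Yi)) * (Y + s) = 1 := by
  have e1 : Y * s * Yi * Y = Y * s := by rw [mul_assoc, h0, mul_one]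
  have e2 : Y * s * Yi * s = b * a * r := by rw [h2, mul_assoc, h1, mul_assoc]
  have e3 : (Y - Y * s * Yi) * (Y + s) = Y * Y - b * a * r := by
    rw [sub_mul, mul_add, mul_add, e1, e2]; abel
  rw [mul_assoc (Yi * Yi) _ (Y + s), e3, mul_sub]
  have e4 : Yi * Yi * (Y * Y) = 1 := by rw [mul_assoc, ← mul_assoc Yi Y, h0, one_mul, h0]
  rw [e4]
  simp only [mul_assoc]
  abel

variable {G : Type} [Group G]

theorem homogeneous_of_mul {κ : Type} [CommRing κ] [NoZeroDivisors (MonoidAlgebra κ G)]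
    (φ : G →* Multiplicative ℤ) {w g : MonoidAlgebra κ G} (h0 : w * g ≠ 0)
    (h : w * g ∈ grp κ φ.ker) : ∃ d, SuppIn {γ | φ γ = d} g := by
  have hw : w ≠ 0 := left_ne_zero_of_mul h0
  have hg : g ≠ 0 := right_ne_zero_of_mul h0
  have hk : ∀ a b : G, a * b⁻¹ ∈ φ.ker ↔ (φ a).toAdd = (φ b).toAdd := fun a b => by
    rw [MonoidHom.mem_ker, map_mul, map_inv, mul_inv_eq_one]; rfl
  have key : ∀ ε : ℤ, ε = 1 ∨ ε = -1 → ∃ a0 c0, w.coeff a0 ≠ 0 ∧ g.coeff c0 ≠ 0 ∧
      (∀ a, w.coeff a ≠ 0 → ε * (φ a).toAdd ≤ ε * (φ a0).toAdd) ∧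
      (∀ c, g.coeff c ≠ 0 → ε * (φ c).toAdd ≤ ε * (φ c0).toAdd) ∧
      (φ a0).toAdd + (φ c0).toAdd = 0 := fun ε hε => by
    obtain ⟨a0, ha0, hamax⟩ := exists_lead (fun γ => ε * (φ γ).toAdd) hw
    obtain ⟨c0, hc0, hcmax⟩ := exists_lead (fun γ => ε * (φ γ).toAdd) hg
    obtain ⟨γ, hγ, hγ'⟩ := up_mul φ.ker ha0 hc0 fun a c ha hc h => by
      rw [hk, φ.map_mul, φ.map_mul, toAdd_mul, toAdd_mul] at h
      have h1 := hamax a ha
      have h2 := hcmax c hc
      rw [hk, hk]
      rcases hε with rfl | rfl <;> omega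
    refine ⟨a0, c0, ha0, hc0, hamax, hcmax, ?_⟩
    have h3 : φ γ = 1 := h γ hγ
    rw [hk, h3, φ.map_mul, toAdd_mul] at hγ'
    exact hγ'.symm
  obtain ⟨a0, c0, ha0, hc0, h1, h2, h3⟩ := key 1 (Or.inl rfl)
  obtain ⟨a1, c1, ha1, hc1, h4, h5, h6⟩ := key (-1) (Or.inr rfl)
  refine ⟨φ c0, fun c hc => Multiplicative.toAdd.injective ?_⟩
  have := h1 a1 ha1
  have := h2 c hc
  have := h5 c hc
  omega

theorem stafford {κ : Type} [CommRing κ] [NoZeroDivisors (MonoidAlgebra κ G)]
    (φ : G →* Multiplicative ℤ) {y : G} (hy : φ y ≠ 1) {r s a b : MonoidAlgebra κ G}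
    (hr : r ∈ grp κ φ.ker) (hs : s ∈ grp κ φ.ker) (hr0 : r ≠ 0) (hs0 : s ≠ 0)
    (h1 : r * s = a * r) (h2 : single y 1 * s * single y⁻¹ 1 = b * r)
    (hNF : ∀ c, single y 1 * r * single y⁻¹ 1 * s ≠ c * r) : ¬ Cyc r (single y 1 + s) := by
  intro hc
  obtain ⟨g, h, hg, hgen⟩ := hc.gen
  have hσ : ∀ x ∈ grp κ φ.ker, single y 1 * x * single y⁻¹ 1 ∈ grp κ φ.ker := fun x hx =>
    ((SuppIn.single (S := {y}) rfl 1).mul (U := {γ | φ γ = φ y}) hx fun a ha c hc => by
      have hc' : φ c = 1 := hc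
      simp [Set.mem_singleton_iff.1 ha, hc']).mul (SuppIn.single (S := {y⁻¹}) rfl 1)
      fun a ha t ht => by
        have ha' : φ a = φ y := ha
        simp [Set.mem_singleton_iff.1 ht, ha']
  set Y : MonoidAlgebra κ G := single y 1 with hY
  set Yi : MonoidAlgebra κ G := single y⁻¹ 1 with hYi
  have e0 : Yi * Y = 1 := by simp [hY, hYi, single_mul_single, ← one_def]
  have e0' : ∀ x, Yi * (Y * x) = x := fun x => by rw [← mul_assoc, e0, one_mul]
  have e1 : Y * s * Yi * s = b * a * r := by rw [h2, mul_assoc, h1, mul_assoc]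
  obtain ⟨w, hw⟩ := hgen (Y * (r * s) * Yi) (Y * a + Y * r * Yi * b * a) (by
    have e2 : Y * (r * s) * Yi * s = Y * r * Yi * (Y * s * Yi * s) := by
      simp only [mul_assoc, e0']
    rw [mul_add, e2, e1, mul_assoc _ Yi Y, e0, mul_one, h1, add_mul]
    simp only [mul_assoc])
  obtain ⟨d, hd⟩ := homogeneous_of_mul φ (w := w) (g := g)
    (by rw [← hw]; exact mul_single_ne_zero (single_mul_ne_zero (mul_ne_zero hr0 hs0) _) _)
    (by rw [← hw]; exact hσ _ (mul_mem hr hs))
  obtain ⟨w', hw'⟩ := hgen (Y * (Y * r * Yi) * Yi * Y - Y * (Y * r * Yi) * Yi * (Y * s * Yi))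
    (Y * Y - Y * (Y * r * Yi) * Yi * b * a) (by
      have e3 : Y * (Y * r * Yi) * Yi * (Y * s * Yi) * s = Y * (Y * r * Yi) * Yi * b * a * r := by
        rw [mul_assoc _ (Y * s * Yi) s, e1]; simp only [mul_assoc]
      rw [sub_mul, mul_add, mul_add, e3, sub_mul]
      simp only [mul_assoc, e0', e0, mul_one]
      abel)
  have h3 := congrArg (filt {γ | φ γ = φ y}) hw'
  rw [filt_mul_right (A := {γ | φ γ = d}) (S' := {γ | φ γ * d = φ y})
    (fun e he γ => by
      have he' : φ e = d := he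
      simp [he']) hd, map_sub,
    filt_of_suppIn (SuppIn.mul (hσ _ (hσ _ hr)) (SuppIn.single (S := {y}) rfl 1)
      fun a ha t ht => by
        have ha' : φ a = 1 := ha
        simp [Set.mem_singleton_iff.1 ht, ha']),
    filt_of_suppIn_compl (SuppIn.mono (mul_mem (hσ _ (hσ _ hr)) (hσ _ hs)) fun γ hγ h => by
      have h' : φ γ = φ y := h
      have hγ' : φ γ = 1 := hγ
      exact hy (h'.symm.trans hγ')), sub_zero, ← hY] at h3
  have h4 := congrArg (fun x => Yi * (x * (Y + s))) h3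
  simp only [mul_assoc, hg] at h4
  simp only [mul_add, e0', e0, mul_one] at h4
  refine hNF (Yi * (filt {γ | φ γ * d = φ y} w' * h) - Y) ?_
  rw [sub_mul]
  simp only [mul_assoc]
  rw [← h4]
  abel

end Pool.Agent.Work.MP_819de9_al
end

-- merged part: Pool.Agent.Work.MP_819de9_al.Gauss
section
/-! Degeneration of a unimodular row at a valuation. -/

set_option linter.unusedSectionVars false

namespace Pool.Agent.Work.MP_819de9_al

open MonoidAlgebra IsLocalRing

variable {G : Type} [Group G] {K : Type} [Field K] (O : ValuationSubring K)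

theorem aug_map {B B' : Type} [CommRing B] [CommRing B'] (f : B →+* B') (x : MonoidAlgebra B G) :
    aug B' G (mapRingHom G f x) = f (aug B G x) := by
  induction x using MonoidAlgebra.induction_linear with
  | zero => simp
  | add a b ha hb => simp only [map_add, ha, hb]
  | single g r => simp [aug_single]

theorem map_smul_eq {B B' : Type} [CommRing B] [CommRing B'] (f : B →+* B') (c : B)
    (x : MonoidAlgebra B G) : mapRingHom G f (c • x) = f c • mapRingHom G f x := by
  ext g; simp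

theorem iota_inj : Function.Injective (mapRingHom G O.subtype) :=
  map_injective (O.subtype : O →+ K) O.subtype_injective

theorem exists_primitive {f : MonoidAlgebra K G} (hf : f ≠ 0) :
    ∃ (γ : G) (f0 : MonoidAlgebra O G), f.coeff γ ≠ 0 ∧ f0.coeff γ = 1 ∧
      f = f.coeff γ • mapRingHom G O.subtype f0 := by
  obtain ⟨γ, hγ, hmax⟩ := exists_lead (fun γ => O.valuation (f.coeff γ)) hf
  have : (f.coeff γ)⁻¹ • f ∈ Set.range (map (M := G) (O.subtype : O →+ K)) := by
    rw [range_map]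
    intro γ'
    by_cases h : f.coeff γ' = 0
    · exact ⟨0, by simp [h]⟩
    · obtain ⟨a, ha⟩ := (O.valuation_le_iff _ _).1 (hmax γ' h)
      exact ⟨a, by simp [← ha, mul_comm (a : K), ← mul_assoc, inv_mul_cancel₀ hγ]⟩
  obtain ⟨f0, hf0⟩ := this
  have hf0' : mapRingHom G O.subtype f0 = (f.coeff γ)⁻¹ • f := hf0
  refine ⟨γ, f0, hγ, ?_, by rw [hf0', smul_smul, mul_inv_cancel₀ hγ, one_smul]⟩
  have := congrArg (fun x => x.coeff γ) hf0'
  simp only [coeff_mapRingHom, coeff_smul_apply, smul_eq_mul, inv_mul_cancel₀ hγ] at this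
  exact O.subtype_injective (by simpa using this)

theorem red_ne_zero {f0 : MonoidAlgebra O G} {γ : G} (h : f0.coeff γ = 1) :
    mapRingHom G (residue O) f0 ≠ 0 := fun h0 => by
  have := congrArg (fun x => x.coeff γ) h0
  simp [h] at this

theorem gauss_mem [NoZeroDivisors (MonoidAlgebra (ResidueField O) G)]
    {g0 c : MonoidAlgebra O G} (hg : mapRingHom G (residue O) g0 ≠ 0) {w : MonoidAlgebra K G}
    (h : w * mapRingHom G O.subtype g0 = mapRingHom G O.subtype c) :
    ∃ w0, w = mapRingHom G O.subtype w0 := by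
  by_cases hw : w = 0
  · exact ⟨0, by simp [hw]⟩
  obtain ⟨γ, w0, -, h1, h2⟩ := exists_primitive O hw
  have h3 := mul_ne_zero (red_ne_zero O h1) hg
  rw [← map_mul] at h3
  obtain ⟨δ, hδ⟩ := exists_coeff_ne_zero h3
  rw [coeff_mapRingHom, residue_ne_zero_iff_isUnit] at hδ
  obtain ⟨u, hu⟩ := hδ
  rw [h2, smul_mul_assoc, ← map_mul] at h
  have h4 := congrArg (fun x => x.coeff δ) h
  simp only [coeff_smul_apply, coeff_mapRingHom, smul_eq_mul, ← hu] at h4
  refine ⟨(c.coeff δ * (u⁻¹ : Oˣ)) • w0, ?_⟩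
  rw [map_smul_eq, map_mul, ← h4, mul_assoc, ← map_mul, Units.mul_inv, map_one, mul_one]
  exact h2

theorem exists_smul_of_red_eq_zero {m : MonoidAlgebra O G} (h : mapRingHom G (residue O) m = 0) :
    ∃ μ ∈ maximalIdeal O, ∃ m1, m = μ • m1 := by
  by_cases hm : m = 0
  · exact ⟨0, zero_mem _, 0, by simp [hm]⟩
  have hm' : mapRingHom G O.subtype m ≠ 0 := fun h0 => hm (iota_inj O (by simpa using h0))
  obtain ⟨γ, m1, -, -, h2⟩ := exists_primitive O hm'
  refine ⟨m.coeff γ, ?_, m1, iota_inj O ?_⟩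
  · have := congrArg (fun x => x.coeff γ) h
    simpa [residue_eq_zero_iff] using this
  · rw [map_smul_eq, ← coeff_mapRingHom]; exact h2

theorem exists_smul_pair {m m' : MonoidAlgebra O G} (h : mapRingHom G (residue O) m = 0)
    (h' : mapRingHom G (residue O) m' = 0) :
    ∃ μ ∈ maximalIdeal O, ∃ m1 m2, m = μ • m1 ∧ m' = μ • m2 := by
  obtain ⟨μ, hμ, m1, rfl⟩ := exists_smul_of_red_eq_zero O h
  obtain ⟨μ', hμ', m2, rfl⟩ := exists_smul_of_red_eq_zero O h'
  rcases ValuationRing.dvd_total μ μ' with ⟨c, rfl⟩ | ⟨c, rfl⟩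
  · exact ⟨μ, hμ, m1, c • m2, rfl, by rw [smul_smul]⟩
  · exact ⟨μ', hμ', c • m1, m2, by rw [smul_smul], rfl⟩

theorem c_identity {B R : Type} [CommRing B] [Ring R] [Algebra B R] (l : B) {Y r0 r1 rm : R}
    (s0 : r0 * Y = Y * r1) (s1 : rm * Y = Y * r0) (c01 : r0 * r1 = r1 * r0) :
    rm * r0 * (l • Y + r1) = (l • (Y * r1) + rm * r1) * r0 := by
  rw [mul_add, add_mul, mul_smul_comm, smul_mul_assoc, mul_assoc, s0, ← mul_assoc, s1,
    mul_assoc, c01, mul_assoc, mul_assoc, mul_assoc, c01]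

theorem gauss_core [NoZeroDivisors (MonoidAlgebra (ResidueField O) G)] {l : O}
    (hl : l ∈ maximalIdeal O) (hl0 : l ≠ 0) {g y : G} (hc : Commute g (y⁻¹ * g * y))
    (hi1 : ∀ j : ℕ, j ≠ 0 → (y⁻¹ * g * y) ^ j ∉ Subgroup.zpowers g)
    (hi2 : ∀ j : ℕ, j ≠ 0 → g ^ j ∉ Subgroup.zpowers (y⁻¹ * g * y))
    {g0 h0 : MonoidAlgebra O G} (hg0 : mapRingHom G (residue O) g0 ≠ 0)
    (hh0 : g0 * (l • single y 1 + rho O (y⁻¹ * g * y)) = h0 * rho O g)
    (hgen : ∀ f h', f * (l • single y 1 + rho O (y⁻¹ * g * y)) = h' * rho O g →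
      ∃ w, f = w * g0) : False := by
  have hg1 : g ≠ 1 := fun h => hi2 1 one_ne_zero (by simp [h])
  set g1 := y⁻¹ * g * y with hg1def
  set gm := y * g * y⁻¹ with hgm
  set gmm := y * gm * y⁻¹ with hgmm
  have hcm : Commute gm g := by
    have := hc.conj y
    simpa [hg1def, hgm, mul_assoc] using this
  have hcmm : Commute gmm gm := hcm.conj y
  have hgm1 : gm ≠ 1 := by simpa [hgm] using hg1
  have him : ∀ j : ℕ, j ≠ 0 → gmm ^ j ∉ Subgroup.zpowers gm := fun j hj ⟨i, hi⟩ =>
    hi2 j hj ⟨i, by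
      have hi' : gm ^ i = gmm ^ j := hi
      have e1 : gm = (y * y) * g1 * (y * y)⁻¹ := by simp [hgm, hg1def, mul_assoc]
      have e2 : gmm = (y * y) * g * (y * y)⁻¹ := by simp [hgmm, hgm, mul_assoc]
      rw [e1, e2, conj_zpow, conj_pow] at hi'
      simpa using hi'⟩
  set Y : MonoidAlgebra O G := single y 1 with hY
  have s0 : rho O g * Y = Y * rho O g1 := rho_mul_single g y
  have s1 : rho O gm * Y = Y * rho O g := by
    rw [hY, rho_mul_single]; simp [hgm, mul_assoc]
  have s2 : rho O gmm * Y = Y * rho O gm := by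
    rw [hY, rho_mul_single]; simp [hgmm, mul_assoc]
  have c01 : rho O g * rho O g1 = rho O g1 * rho O g := rho_commute hc
  have key : (l • Y - rho O g) * (l • Y + rho O g1) = (l * l) • (Y * Y) - rho O g1 * rho O g := by
    simp only [sub_mul, mul_add, smul_mul_assoc, mul_smul_comm, s0, c01, smul_smul, smul_sub]
    abel
  obtain ⟨w1, hw1⟩ := hgen (rho O gm * rho O g) _ (c_identity l s0 s1 c01)
  obtain ⟨w2, hw2⟩ := hgen (rho O gmm * (l • Y - rho O g))
    ((l * l) • (Y * Y) - rho O gmm * rho O g1) (by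
    rw [mul_assoc, key, mul_sub, sub_mul, mul_smul_comm, smul_mul_assoc, ← mul_assoc, s2,
      mul_assoc, s1, mul_assoc, mul_assoc])
  set red := mapRingHom G (residue O) with hred
  have hl' : residue O l = 0 := (residue_eq_zero_iff _).2 hl
  have hredl : ∀ x, red (l • x) = 0 := fun x => by rw [hred, map_smul_eq, hl', zero_smul]
  have hρ : ∀ x : G, red (rho O x) = rho (ResidueField O) x := fun x => map_rho _ x
  have r0 := congrArg red hh0
  rw [map_mul, map_mul, map_add, hredl, zero_add, hρ, hρ] at r0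
  obtain ⟨g', hg'⟩ := coprime_left hc hi1 r0
  have hg'0 : g' ≠ 0 := fun h => hg0 (by rw [hg', h, zero_mul])
  have hρ0 : rho (ResidueField O) g ≠ 0 := rho_ne_zero hg1
  have r1 := congrArg red hw1
  rw [map_mul, map_mul, hρ, hρ, hg', ← mul_assoc] at r1
  have r1' := mul_right_cancel₀ hρ0 r1
  have r2 := congrArg red hw2
  rw [map_mul, map_mul, map_sub, hredl, zero_sub, hρ, hρ, hg', ← mul_assoc, mul_neg,
    ← neg_mul] at r2
  have r2' := mul_right_cancel₀ hρ0 r2
  have r3 : rho (ResidueField O) gmm * red w1 = rho (ResidueField O) gm * (-red w2) := by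
    refine mul_right_cancel₀ hg'0 ?_
    rw [mul_assoc, mul_assoc, neg_mul, ← r1', ← r2', neg_neg]
    exact rho_commute hcmm
  obtain ⟨w', hw'⟩ := coprime_right hcmm.symm him r3
  have r4 : w' * g' = 1 := by
    refine mul_left_cancel₀ (rho_ne_zero (B := ResidueField O) hgm1) ?_
    rw [← mul_assoc, ← hw', ← r1', mul_one]
  obtain ⟨w, hw⟩ : ∃ w, red w = w' :=
    map_surjective (residue O : O →+ ResidueField O) residue_surjective w'
  have e1 : (l * l) • (Y * Y) = (w * g0 - rho O g + l • Y) * (l • Y + rho O g1) +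
      (rho O g1 - w * h0) * rho O g := by
    rw [show w * g0 - rho O g + l • Y = w * g0 + (l • Y - rho O g) by abel, add_mul, key,
      mul_assoc, hh0, sub_mul, mul_assoc]
    abel
  have e2 : red (w * g0 - rho O g + l • Y) = 0 := by
    rw [map_add, hredl, map_sub, map_mul, hw, hg', ← mul_assoc, r4, one_mul, hρ, sub_self, add_zero]
  have e3 : red (rho O g1 - w * h0) = 0 := by
    have := congrArg red e1
    rw [mul_smul, hredl, map_add, map_mul, map_mul, e2, zero_mul, zero_add, hρ] at this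
    exact (mul_eq_zero.1 this.symm).resolve_right hρ0
  obtain ⟨μ, hμ, m1, m2, hm1, hm2⟩ := exists_smul_pair O e2 e3
  rw [hm1, hm2, smul_mul_assoc, smul_mul_assoc, ← smul_add] at e1
  have ha : ∀ (c : O) x, aug O G (c • x) = c * aug O G x := fun c x => by simp [aug]
  have haY : aug O G Y = 1 := aug_single _ _
  have e4 := congrArg (aug O G) e1
  simp only [ha, map_add, map_mul, haY, aug_rho, mul_one, add_zero, mul_zero] at e4
  have e5 : l = μ * aug O G m1 := mul_right_cancel₀ hl0 (by rw [e4, mul_assoc])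
  have hμ0 : μ ≠ 0 := fun h => hl0 (by rw [e5, h, zero_mul])
  have e6 : (l * aug O G m1) • (Y * Y) = m1 * (l • Y + rho O g1) + m2 * rho O g := by
    refine smul_right_injective _ hμ0 ?_
    simp only
    rw [← e1, smul_smul, mul_left_comm, ← e5]
  let q := Ideal.Quotient.mk (Ideal.span {l})
  have hq : q l = 0 := Ideal.Quotient.eq_zero_iff_mem.2 (Ideal.mem_span_singleton_self l)
  have e7 := congrArg (mapRingHom G q) e6
  rw [mul_smul, map_smul_eq, hq, zero_smul, map_add, map_mul, map_mul, map_add, map_smul_eq, hq,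
    zero_smul, zero_add, map_rho, map_rho, eq_comm, add_eq_zero_iff_eq_neg, ← neg_mul] at e7
  obtain ⟨n, hn⟩ := coprime_left hc hi1 e7
  have e8 := congrArg (aug _ G) hn
  rw [aug_map, map_mul, aug_rho, mul_zero] at e8
  obtain ⟨e, he⟩ := Ideal.mem_span_singleton'.1 (Ideal.Quotient.eq_zero_iff_mem.1 e8)
  have e9 : μ * e = 1 := mul_right_cancel₀ hl0 (by rw [mul_assoc, he, ← e5, one_mul])
  exact (mem_maximalIdeal _).1 hμ (IsUnit.of_mul_eq_one _ e9)

theorem gauss_not_cyc [NoZeroDivisors (MonoidAlgebra (ResidueField O) G)] {t : K} (ht : t ∉ O)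
    {g y : G} (hc : Commute g (y⁻¹ * g * y))
    (hi1 : ∀ j : ℕ, j ≠ 0 → (y⁻¹ * g * y) ^ j ∉ Subgroup.zpowers g)
    (hi2 : ∀ j : ℕ, j ≠ 0 → g ^ j ∉ Subgroup.zpowers (y⁻¹ * g * y)) :
    ¬ Cyc (rho K g) (single y 1 + t • rho K (y⁻¹ * g * y)) := by
  intro hcyc
  have hg1 : g ≠ 1 := fun h => hi2 1 one_ne_zero (by simp [h])
  have ht0 : t ≠ 0 := fun h => ht (h ▸ O.zero_mem)
  let l : O := ⟨t⁻¹, (O.mem_or_inv_mem t).resolve_left ht⟩
  have hl : l ∈ maximalIdeal O := (mem_maximalIdeal _).2 fun hu => by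
    obtain ⟨u, hu⟩ := hu.exists_right_inv
    have h1 : t⁻¹ * (u : K) = 1 := congrArg Subtype.val hu
    rw [inv_mul_eq_one₀ ht0] at h1
    exact ht (h1 ▸ u.2)
  have hl0 : l ≠ 0 := fun h => inv_ne_zero ht0 (congrArg Subtype.val h)
  obtain ⟨g', h, hg', hgen⟩ := hcyc.gen
  have hs : mapRingHom G O.subtype (l • single y 1 + rho O (y⁻¹ * g * y)) =
      t⁻¹ • (single y 1 + t • rho K (y⁻¹ * g * y)) := by
    rw [map_add, map_smul_eq, map_rho, smul_add, smul_smul, inv_mul_cancel₀ ht0, one_smul,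
      mapRingHom_single, map_one]
    rfl
  have hgen' : ∀ f h', f * (l • single y 1 + rho O (y⁻¹ * g * y)) = h' * rho O g →
      ∃ w, mapRingHom G O.subtype f = w * g' := fun f h' hf => by
    have := congrArg (fun x => t • mapRingHom G O.subtype x) hf
    simp only [map_mul, hs, map_rho] at this
    rw [mul_smul_comm, smul_smul, mul_inv_cancel₀ ht0, one_smul, ← smul_mul_assoc] at this
    exact hgen _ _ this
  have hg0 : g' ≠ 0 := by
    rintro rfl
    have hcm : Commute (y * g * y⁻¹) g := by simpa [mul_assoc] using hc.conj y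
    obtain ⟨w, hw⟩ := hgen' (rho O (y * g * y⁻¹) * rho O g) _
      (c_identity l (rho_mul_single g y) (by rw [rho_mul_single]; simp [mul_assoc])
        (rho_commute hc))
    rw [mul_zero] at hw
    have h1 := congrArg (mapRingHom G (residue O)) (iota_inj O (hw.trans (map_zero _).symm))
    rw [map_mul, map_rho, map_rho, map_zero] at h1
    exact mul_ne_zero (rho_ne_zero (by simpa using hg1)) (rho_ne_zero hg1) h1
  obtain ⟨γ, g0, hμ, h1, h2⟩ := exists_primitive O hg0
  set μ := g'.coeff γ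
  have hr : mapRingHom G (residue O) (rho O g) ≠ 0 := by rw [map_rho]; exact rho_ne_zero hg1
  have h3 : ((μ⁻¹ * t⁻¹) • h) * mapRingHom G O.subtype (rho O g) =
      mapRingHom G O.subtype (g0 * (l • single y 1 + rho O (y⁻¹ * g * y))) := by
    rw [map_mul, hs, map_rho, smul_mul_assoc, ← hg', h2, smul_mul_assoc, smul_smul,
      mul_smul_comm, mul_right_comm, inv_mul_cancel₀ hμ, one_mul]
  obtain ⟨h0, hh0⟩ := gauss_mem O hr h3
  rw [hh0, ← map_mul] at h3
  refine gauss_core O hl hl0 hc hi1 hi2 (red_ne_zero O h1) (iota_inj O h3).symm fun f h' hf => ?_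
  obtain ⟨w, hw⟩ := hgen' f h' hf
  rw [h2, mul_smul_comm, ← smul_mul_assoc] at hw
  obtain ⟨w0, hw0⟩ := gauss_mem O (red_ne_zero O h1) hw.symm
  rw [hw0, ← map_mul] at hw
  exact ⟨w0, iota_inj O hw⟩

theorem exists_valuation {k : Type} [CommRing k] {t : k} (ht : ¬ IsIntegral ℤ t) :
    ∃ (K : Type) (_ : Field K) (f : k →+* K) (O : ValuationSubring K), f t ∉ O := by
  let S : Submonoid k :=
    { carrier := {x | ∃ p : Polynomial ℤ, p.Monic ∧ Polynomial.aeval t p = x}
      mul_mem' := by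
        rintro _ _ ⟨p, hp, rfl⟩ ⟨q, hq, rfl⟩
        exact ⟨p * q, hp.mul hq, map_mul _ _ _⟩
      one_mem' := ⟨1, Polynomial.monic_one, map_one _⟩ }
  have h0 : Disjoint ((⊥ : Ideal k) : Set k) S := by
    rw [Set.disjoint_left]
    rintro x hx ⟨p, hp, rfl⟩
    exact ht ⟨p, hp, hx⟩
  obtain ⟨P, hP, -, hPS⟩ := Ideal.exists_le_prime_disjoint _ S h0
  let f : k →+* FractionRing (k ⧸ P) := (algebraMap (k ⧸ P) _).comp (Ideal.Quotient.mk P)
  have h1 : ¬ IsIntegral ℤ (f t) := by
    rintro ⟨p, hp, h⟩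
    have h2 : f (Polynomial.aeval t p) = 0 := by
      rw [← h, Polynomial.aeval_def, Polynomial.hom_eval₂]
      congr 1
    have h3 : Polynomial.aeval t p ∈ P := Ideal.Quotient.eq_zero_iff_mem.1
      (IsFractionRing.injective (k ⧸ P) (FractionRing (k ⧸ P)) (h2.trans (map_zero _).symm))
    exact Set.disjoint_left.1 hPS h3 ⟨p, hp, rfl⟩
  obtain ⟨O, -, hO⟩ := Subring.exists_le_valuationSubring_of_isIntegrallyClosedIn
    (R := (integralClosure ℤ (FractionRing (k ⧸ P))).toSubring) (x := f t) h1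
  exact ⟨_, inferInstance, f, O, hO⟩

end Pool.Agent.Work.MP_819de9_al
end
end

-- merged part: Pool.Agent.Work.MP_819de9_al.Moody
section
-- merged part: Pool.Agent.Work.MP_819de9_al.RankDvd
section
/-! Ranks over a normal subgroup: invariance and divisibility. -/

set_option linter.unusedSectionVars false

namespace Pool.Agent.Work.MP_819de9_al

open MonoidAlgebra

variable {κ : Type} [CommRing κ] {G : Type} [Group G]

/-- elements of a left ideal supported in an `E`-invariant set -/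
def Lsub (L : Submodule (MonoidAlgebra κ G) (MonoidAlgebra κ G)) (E : Subgroup G) (S : Set G)
    (hS : ∀ e ∈ E, ∀ s ∈ S, e * s ∈ S) : Submodule (grp κ E) (MonoidAlgebra κ G) where
  carrier := {f | f ∈ L ∧ SuppIn S f}
  add_mem' h h' := ⟨L.add_mem h.1 h'.1, h.2.add h'.2⟩
  zero_mem' := ⟨L.zero_mem, SuppIn.zero _⟩
  smul_mem' d _ h := ⟨L.smul_mem (d : MonoidAlgebra κ G) h.1, SuppIn.mul d.2 h.2 hS⟩

theorem mem_Lsub {L : Submodule (MonoidAlgebra κ G) (MonoidAlgebra κ G)} {E : Subgroup G}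
    {S : Set G} {hS : ∀ e ∈ E, ∀ s ∈ S, e * s ∈ S} {f : MonoidAlgebra κ G} :
    f ∈ Lsub L E S hS ↔ f ∈ L ∧ SuppIn S f := Iff.rfl

theorem rank_Lsub_le (L : Submodule (MonoidAlgebra κ G) (MonoidAlgebra κ G)) (N : Subgroup G)
    [hN : N.Normal] (S S' : Set G) (hS : ∀ e ∈ N, ∀ s ∈ S, e * s ∈ S)
    (hS' : ∀ e ∈ N, ∀ s ∈ S', e * s ∈ S') (g : G) (hg : ∀ s ∈ S, g * s ∈ S') :
    Module.rank (grp κ N) (Lsub L N S hS) ≤ Module.rank (grp κ N) (Lsub L N S' hS') := by
  let i : grp κ N → grp κ N := fun r =>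
    ⟨single g⁻¹ 1 * r.1 * single g 1,
      ((SuppIn.single (S := {g⁻¹}) rfl 1).mul (U := {x | g * x ∈ N}) r.2 fun a ha c hc => by
        rw [Set.mem_singleton_iff.1 ha]; simpa using hc).mul
        (SuppIn.single (S := {g}) rfl 1) fun a ha t ht => by
          rw [Set.mem_singleton_iff.1 ht]; exact hN.mem_comm ha⟩
  let j : Lsub L N S hS →+ Lsub L N S' hS' :=
    { toFun := fun f => ⟨single g 1 * f.1, L.smul_mem _ f.2.1,
        (SuppIn.single (S := {g}) rfl 1).mul f.2.2 fun a ha s hs => by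
          rw [Set.mem_singleton_iff.1 ha]; exact hg s hs⟩
      map_zero' := Subtype.ext (by simp)
      map_add' := fun f f' => Subtype.ext (by simp [mul_add]) }
  refine rank_le_of_injective_injective i j (fun r hr => ?_) ?_ fun r m => ?_
  · by_contra h0
    have h1 : (r : MonoidAlgebra κ G) ≠ 0 := fun h => h0 (Subtype.ext h)
    exact mul_single_ne_zero (single_mul_ne_zero h1 _) _ (congrArg Subtype.val hr)
  · rw [injective_iff_map_eq_zero]
    intro f hf
    by_contra h0
    have h1 : (f : MonoidAlgebra κ G) ≠ 0 := fun h => h0 (Subtype.ext h)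
    exact single_mul_ne_zero h1 _ (congrArg Subtype.val hf)
  · apply Subtype.ext
    show single g 1 * (single g⁻¹ 1 * r.1 * single g 1 * m.1) = r.1 * (single g 1 * m.1)
    simp only [← mul_assoc, single_mul_single, mul_inv_cancel, mul_one, ← one_def, one_mul]

theorem comp_single_self (N : Subgroup G) (γ : G) :
    comp N γ (single γ (1 : κ)) = 1 := by
  apply Subtype.ext
  show filt (N : Set G) (single γ (1 : κ) * single γ⁻¹ 1) = 1
  rw [single_mul_single, mul_inv_cancel, mul_one]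
  exact filt_of_suppIn (SuppIn.single N.one_mem 1)

theorem rank_dvd (N E : Subgroup G) [hN : N.Normal] (hNE : N ≤ E) (hfin : N.relIndex E ≠ 0)
    [NoZeroDivisors (grp κ E)] [StrongRankCondition (grp κ N)]
    (ME : Submodule (grp κ E) (MonoidAlgebra κ G)) (MN : Submodule (grp κ N) (MonoidAlgebra κ G))
    (hM : (ME : Set (MonoidAlgebra κ G)) = MN) (n : ℕ) (hn : Module.rank (grp κ N) MN = n) :
    N.relIndex E ∣ n := by
  classical
  have : Nontrivial (grp κ N) := nontrivial_of_invariantBasisNumber _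
  let Q := E ⧸ N.subgroupOf E
  have : Finite Q := Nat.finite_of_card_ne_zero hfin
  let _ : Fintype Q := Fintype.ofFinite Q
  have hQ : Fintype.card Q = N.relIndex E := by
    rw [← Nat.card_eq_fintype_card]; rfl
  let ξ : Q → G := fun q => ((q.out : E) : G)
  have hξE : ∀ q, ξ q ∈ E := fun q => (q.out : E).2
  have hξ : ∀ q q', ξ q' * (ξ q)⁻¹ ∈ N → q = q' := fun q q' h => by
    rw [← q.out_eq, ← q'.out_eq]
    exact QuotientGroup.eq.2 (by
      rw [Subgroup.mem_subgroupOf]
      exact hN.mem_comm h)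
  let KE := Quotient (QuotientGroup.rightRel E)
  let _ : LinearOrder KE := linearOrderOfSTO WellOrderingRel
  let keyE : G → KE := Quotient.mk _
  have hkeyE : ∀ a b, keyE a = keyE b ↔ a * b⁻¹ ∈ E := fun a b => by
    rw [eq_comm]
    exact Quotient.eq.trans QuotientGroup.rightRel_apply
  have lower : ∀ T : Finset KE, (T : Set KE) ⊆ Lead keyE (ME : Set (MonoidAlgebra κ G)) →
      T.card * N.relIndex E ≤ n := by
    intro T hT
    obtain ⟨v, hv⟩ := echelon_indep E keyE (fun a b => (hkeyE a b).2) ME T hT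
    have hw : ∀ p : T × Q, single (ξ p.2) (1 : κ) * (v p.1).1 ∈ MN := fun p => by
      have := ME.smul_mem ⟨_, single_mem_grp (hξE p.2) (1 : κ)⟩ (v p.1).2
      rw [← SetLike.mem_coe, ← hM]
      exact this
    have hind : LinearIndependent (grp κ N) fun p : T × Q => (⟨_, hw p⟩ : MN) := by
      rw [Fintype.linearIndependent_iff] at hv ⊢
      intro d hd
      have hD : ∀ t : T, ∑ q : Q, (d (t, q)).1 * single (ξ q) (1 : κ) ∈ grp κ E := fun t =>
        sum_mem fun q _ => mul_mem (SuppIn.mono (d (t, q)).2 hNE) (single_mem_grp (hξE q) 1)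
      have h1 := hv (fun t => ⟨_, hD t⟩) (by
        apply Subtype.ext
        have h2 := congrArg Subtype.val hd
        simp only [Submodule.coe_sum, Submodule.coe_smul, Submodule.coe_zero,
          Fintype.sum_prod_type] at h2 ⊢
        rw [← h2]
        refine Finset.sum_congr rfl fun t _ => ?_
        show (∑ q : Q, (d (t, q)).1 * single (ξ q) (1 : κ)) * (v t).1 = _
        rw [Finset.sum_mul]
        refine Finset.sum_congr rfl fun q _ => ?_
        rw [mul_assoc]; rfl)
      rintro ⟨t, q⟩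
      have h3 : ∑ q' : Q, d (t, q') • single (ξ q') (1 : κ) = 0 := congrArg Subtype.val (h1 t)
      have h4 := congrArg (comp N (ξ q)) h3
      rw [map_sum, map_zero, Finset.sum_eq_single q, map_smul, comp_single_self] at h4
      · simpa using h4
      · intro q' _ hq'
        rw [map_smul, comp_eq_zero, smul_zero]
        intro γ' hγ' hmem
        have : γ' = ξ q' := SuppIn.single (S := {ξ q'}) rfl (1 : κ) γ' hγ'
        rw [this] at hmem
        exact hq' (hξ _ _ hmem).symm
      · simp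
    have h5 := hind.cardinal_le_rank
    rw [hn, Cardinal.mk_fintype, Fintype.card_prod, Fintype.card_coe, hQ] at h5
    exact_mod_cast h5
  have hfinL : (Lead keyE (ME : Set (MonoidAlgebra κ G))).Finite := by
    by_contra hinf
    obtain ⟨T, hT, hcard⟩ := Set.Infinite.exists_subset_card_eq hinf (n + 1)
    have h1 := lower T hT
    rw [hcard] at h1
    have h2 : 1 ≤ N.relIndex E := Nat.one_le_iff_ne_zero.2 hfin
    nlinarith
  let T := hfinL.toFinset
  have h1 := lower T (by simp [T])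
  let _ : LinearOrder (G ⧸ N) := linearOrderOfSTO WellOrderingRel
  let key' : G → KE ×ₗ (G ⧸ N) := fun γ => toLex (keyE γ, (γ : G ⧸ N))
  let T' : Finset (KE ×ₗ (G ⧸ N)) := (T ×ˢ (Finset.univ : Finset Q)).image
    fun p => toLex (p.1, ((ξ p.2 * p.1.out : G) : G ⧸ N))
  have h2 := rank_le_of_lead N key' (fun a b h => by
    have h3 : (b : G ⧸ N) = a := (congrArg (fun x => (ofLex x).2) h).symm
    exact hN.mem_comm (QuotientGroup.eq.1 h3)) MN T' (by
      rintro _ ⟨f, hf, γ, hγ, rfl, hmax⟩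
      have hc : γ * ((keyE γ).out)⁻¹ ∈ E := (hkeyE _ _).1 (Quotient.out_eq _).symm
      let q : Q := QuotientGroup.mk (⟨_, hc⟩ : E)
      have hq : (ξ q)⁻¹ * (γ * ((keyE γ).out)⁻¹) ∈ N := by
        have := QuotientGroup.eq.1 (q.out_eq)
        rwa [Subgroup.mem_subgroupOf] at this
      refine Finset.mem_coe.2 (Finset.mem_image.2 ⟨(keyE γ, q), Finset.mem_product.2
        ⟨hfinL.mem_toFinset.2 ⟨f, by rw [hM]; exact hf, γ, hγ, rfl, fun γ' h' => ?_⟩,
          Finset.mem_univ _⟩, ?_⟩)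
      · exact Prod.Lex.monotone_fst _ _ (hmax γ' h')
      · refine congrArg toLex (Prod.ext rfl (QuotientGroup.eq.2 ?_))
        have := hN.conj_mem _ hq ((keyE γ).out)⁻¹
        simpa [mul_assoc] using this)
  have h3 : T'.card ≤ T.card * N.relIndex E := by
    refine Finset.card_image_le.trans ?_
    rw [Finset.card_product, Finset.card_univ, hQ]
  rw [hn] at h2
  have h4 : n ≤ T'.card := by exact_mod_cast h2
  exact ⟨T.card, by rw [mul_comm]; omega⟩

end Pool.Agent.Work.MP_819de9_al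
end

-- merged part: Pool.Agent.Work.MP_819de9_al.Aff
section
/-! Affine data: a group acting on a lattice by permutations and translations. -/

set_option linter.unusedSectionVars false

namespace Pool.Agent.Work.MP_819de9_al

open MonoidAlgebra

/-- a cocycle with values in a permutation lattice, with prescribed kernel on `B` -/
structure Aff (G : Type) [Group G] (N B : Subgroup G) (ι : Type) [MulAction G ι] where
  τ : G → ι → ℤ
  cocycle : ∀ a b i, τ (a * b) i = τ a i + τ b (a⁻¹ • i)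
  triv : ∀ b ∈ B, ∀ i : ι, b • i = i
  ker : ∀ b ∈ B, τ b = 0 ↔ b ∈ N
  le : N ≤ B

namespace Aff

variable {G : Type} [Group G] {N B : Subgroup G} {ι : Type} [MulAction G ι] (A : Aff G N B ι)

theorem τ_one : A.τ 1 = 0 := (A.ker 1 B.one_mem).2 N.one_mem

theorem τ_mul_of_mem {b : G} (hb : b ∈ B) (g : G) : A.τ (b * g) = A.τ b + A.τ g := by
  funext i
  rw [A.cocycle, A.triv _ (B.inv_mem hb)]; rfl

theorem τ_mul_of_mem_N {b : G} (hb : b ∈ N) (g : G) : A.τ (b * g) = A.τ g := by
  rw [A.τ_mul_of_mem (A.le hb), (A.ker b (A.le hb)).2 hb, zero_add]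

/-- cells of the cubical complex, in doubled coordinates -/
def Cell (_A : Aff G N B ι) : Type := ι → ℤ

instance : MulAction G A.Cell where
  smul g θ := fun i => 2 * A.τ g i + θ (g⁻¹ • i)
  one_smul θ := by
    funext i
    show 2 * A.τ 1 i + θ (1⁻¹ • i) = θ i
    simp [A.τ_one]
  mul_smul a b θ := by
    funext i
    show 2 * A.τ (a * b) i + θ ((a * b)⁻¹ • i) =
      2 * A.τ a i + (2 * A.τ b (a⁻¹ • i) + θ (b⁻¹ • a⁻¹ • i))
    rw [A.cocycle, mul_inv_rev, mul_smul]; ring

theorem smul_apply (g : G) (θ : A.Cell) (i : ι) : (g • θ) i = 2 * A.τ g i + θ (g⁻¹ • i) := rfl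

theorem smul_apply_of_mem {b : G} (hb : b ∈ B) (θ : A.Cell) (i : ι) :
    (b • θ) i = 2 * A.τ b i + θ i := by
  rw [smul_apply, A.triv _ (B.inv_mem hb)]

theorem smul_eq_iff {b : G} (hb : b ∈ B) (θ : A.Cell) : b • θ = θ ↔ b ∈ N := by
  rw [← A.ker b hb]
  constructor
  · intro h
    funext i
    have := congrFun h i
    rw [A.smul_apply_of_mem hb] at this
    show A.τ b i = 0
    omega
  · intro h
    funext i
    rw [A.smul_apply_of_mem hb, h]; simp

/-- group elements near a cell -/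
def P (R : ℕ) (θ : A.Cell) : Set G :=
  {γ | ∀ i, θ i - 2 * R ≤ 2 * A.τ γ i ∧ 2 * A.τ γ i ≤ θ i + 2 * R}

theorem mul_mem_P {R : ℕ} {θ : A.Cell} {γ : G} (h : γ ∈ A.P R θ) (g : G) :
    g * γ ∈ A.P R (g • θ) := fun i => by
  have := h (g⁻¹ • i)
  rw [A.cocycle, smul_apply]
  omega

theorem P_inv (R : ℕ) (θ : A.Cell) : ∀ e ∈ MulAction.stabilizer G θ, ∀ s ∈ A.P R θ,
    e * s ∈ A.P R θ := fun e he s hs => by
  have := A.mul_mem_P hs e
  rwa [MulAction.mem_stabilizer_iff.1 he] at this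

theorem le_stab (θ : A.Cell) : N ≤ MulAction.stabilizer G θ := fun _ hb =>
  (A.smul_eq_iff (A.le hb) θ).2 hb

theorem P_invN (R : ℕ) (θ : A.Cell) : ∀ e ∈ N, ∀ s ∈ A.P R θ, e * s ∈ A.P R θ :=
  fun e he => A.P_inv R θ e (A.le_stab θ he)

variable [LinearOrder (G ⧸ B)] [LinearOrder ι] [Fintype ι]

/-- the ordering key -/
def key (γ : G) : (G ⧸ B) ×ₗ Lex (ι → ℤ) := toLex ((γ : G ⧸ B), toLex (A.τ γ))

variable [hB : B.Normal]

theorem mk_mul_of_mem {b : G} (hb : b ∈ B) (γ : G) : ((b * γ : G) : G ⧸ B) = γ :=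
  QuotientGroup.eq.2 (by simpa [mul_assoc] using hB.conj_mem _ (B.inv_mem hb) γ⁻¹)

theorem key_eq_iff (a b : G) : A.key a = A.key b ↔ a * b⁻¹ ∈ N := by
  constructor
  · intro h
    have h1 : (b : G ⧸ B) = a := (congrArg (fun x => (ofLex x).1) h).symm
    have h2 : A.τ a = A.τ b := congrArg (fun x => ofLex (ofLex x).2) h
    have h3 : a * b⁻¹ ∈ B := hB.mem_comm (QuotientGroup.eq.1 h1)
    have h4 := A.τ_mul_of_mem h3 b
    rw [inv_mul_cancel_right, h2] at h4
    exact (A.ker _ h3).1 (by simpa using h4)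
  · intro h
    have h1 := mk_mul_of_mem (A.le h) b
    have h2 := A.τ_mul_of_mem_N h b
    rw [inv_mul_cancel_right] at h1 h2
    simp only [key, h1, h2]

theorem key_mul_le {b : G} (hb : b ∈ B) {γ γ' : G} (h : A.key γ' ≤ A.key γ) :
    A.key (b * γ') ≤ A.key (b * γ) := by
  simp only [key, mk_mul_of_mem hb, A.τ_mul_of_mem hb, Prod.Lex.toLex_le_toLex] at h ⊢
  rcases h with h | ⟨h1, h2⟩
  · exact Or.inl h
  · exact Or.inr ⟨h1, by simpa [toLex_add] using h2⟩

theorem key_mul_le_right {a a' : G} (ha : a ∈ B) (ha' : a' ∈ B) (h : A.key a' ≤ A.key a) (γ : G) :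
    A.key (a' * γ) ≤ A.key (a * γ) := by
  have e1 : (a : G ⧸ B) = a' := QuotientGroup.eq.2 (B.mul_mem (B.inv_mem ha) ha')
  simp only [key, mk_mul_of_mem ha, mk_mul_of_mem ha', A.τ_mul_of_mem ha, A.τ_mul_of_mem ha',
    Prod.Lex.toLex_le_toLex, e1, lt_irrefl, false_or, true_and] at h ⊢
  simpa [toLex_add] using h

theorem finite_key_P [Finite (G ⧸ B)] (R : ℕ) (θ : A.Cell) : (A.key '' A.P R θ).Finite := by
  classical
  let _ : Fintype (G ⧸ B) := Fintype.ofFinite _
  refine (((Finset.univ : Finset (G ⧸ B)) ×ˢ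
    Fintype.piFinset fun i => Finset.Icc (-(|θ i| + R)) (|θ i| + R)).image
      fun p => (toLex (p.1, toLex p.2) : (G ⧸ B) ×ₗ Lex (ι → ℤ))).finite_toSet.subset ?_
  rintro _ ⟨γ, hγ, rfl⟩
  refine Finset.mem_coe.2 (Finset.mem_image.2 ⟨((γ : G ⧸ B), A.τ γ), ?_, rfl⟩)
  refine Finset.mem_product.2 ⟨Finset.mem_univ _, Fintype.mem_piFinset.2 fun i => ?_⟩
  have h1 := hγ i
  have h2 := le_abs_self (θ i)
  have h3 := neg_abs_le (θ i)
  have h4 := abs_nonneg (θ i)
  simp only [Finset.mem_Icc]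
  omega

variable {κ : Type} [CommRing κ]

include A in
theorem mul_ne_zero_of_mem [hN : N.Normal] [NoZeroDivisors (grp κ N)]
    {α β : MonoidAlgebra κ G} (hα : α ∈ grp κ B) (h1 : α ≠ 0) (h2 : β ≠ 0) : α * β ≠ 0 := by
  obtain ⟨a0, ha0, hamax⟩ := exists_lead A.key h1
  obtain ⟨c0, hc0, hcmax⟩ := exists_lead A.key h2
  obtain ⟨γ, hγ, -⟩ := up_mul N ha0 hc0 fun a c ha hc h => by
    have e1 := (A.key_eq_iff _ _).2 h
    have e2 := A.key_mul_le (hα a ha) (hcmax c hc)
    have e3 := A.key_mul_le_right (hα a0 ha0) (hα a ha) (hamax a ha) c0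
    have e4 : A.key (a * c) = A.key (a * c0) := le_antisymm e2 (e3.trans e1.ge)
    have e5 : A.key (a * c0) = A.key (a0 * c0) := e4.symm.trans e1
    refine ⟨by simpa [mul_assoc] using (A.key_eq_iff _ _).1 e5, ?_⟩
    have := hN.conj_mem _ ((A.key_eq_iff _ _).1 e4) a⁻¹
    simpa [mul_assoc] using this
  intro h0
  rw [h0] at hγ
  exact hγ rfl

theorem finite_lead [Finite (G ⧸ B)] (L : Submodule (MonoidAlgebra κ G) (MonoidAlgebra κ G))
    (R : ℕ) (θ : A.Cell) :
    (Lead A.key (Lsub L N (A.P R θ) (A.P_invN R θ) : Set (MonoidAlgebra κ G))).Finite := by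
  refine (A.finite_key_P R θ).subset ?_
  rintro _ ⟨f, hf, γ, hγ, rfl, -⟩
  exact ⟨γ, hf.2 γ hγ, rfl⟩

/-- the number of leading positions near a cell -/
noncomputable def hh (L : Submodule (MonoidAlgebra κ G) (MonoidAlgebra κ G)) (R : ℕ)
    (θ : A.Cell) : ℕ :=
  (Lead A.key (Lsub L N (A.P R θ) (A.P_invN R θ) : Set (MonoidAlgebra κ G))).ncard

theorem rank_eq_hh [Finite (G ⧸ B)] [NoZeroDivisors (grp κ N)] [StrongRankCondition (grp κ N)]
    (L : Submodule (MonoidAlgebra κ G) (MonoidAlgebra κ G)) (R : ℕ) (θ : A.Cell) :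
    Module.rank (grp κ N) (Lsub L N (A.P R θ) (A.P_invN R θ)) = A.hh L R θ := by
  rw [rank_eq_of_lead N A.key A.key_eq_iff _ (A.finite_lead L R θ).toFinset (by simp), hh,
    Set.ncard_eq_toFinset_card _ (A.finite_lead L R θ)]

theorem hh_smul [Finite (G ⧸ B)] [N.Normal] [NoZeroDivisors (grp κ N)]
    [StrongRankCondition (grp κ N)]
    (L : Submodule (MonoidAlgebra κ G) (MonoidAlgebra κ G)) (R : ℕ) (g : G) (θ : A.Cell) :
    A.hh L R (g • θ) = A.hh L R θ := by
  have key : ∀ (g : G) (θ : A.Cell), A.hh L R θ ≤ A.hh L R (g • θ) := fun g θ => by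
    have := rank_Lsub_le L N _ _ (A.P_invN R θ) (A.P_invN R (g • θ)) g
      fun s hs => A.mul_mem_P hs g
    rw [A.rank_eq_hh, A.rank_eq_hh] at this
    exact_mod_cast this
  refine le_antisymm ?_ (key g θ)
  simpa using key g⁻¹ (g • θ)

theorem relIndex_stab (θ : A.Cell) :
    B.relIndex (MulAction.stabilizer G θ) = N.relIndex (MulAction.stabilizer G θ) := by
  rw [← Subgroup.inf_relIndex_right B]
  congr 1
  ext b
  constructor
  · rintro ⟨h1, h2⟩
    exact (A.smul_eq_iff h1 θ).1 h2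
  · intro h
    exact ⟨A.le h, A.le_stab θ h⟩

theorem relIndex_stab_ne_zero [Finite (G ⧸ B)] (θ : A.Cell) :
    N.relIndex (MulAction.stabilizer G θ) ≠ 0 := by
  rw [← A.relIndex_stab]
  have : B.FiniteIndex := Subgroup.finiteIndex_of_finite_quotient
  exact Subgroup.FiniteIndex.index_ne_zero

theorem dvd_hh [Finite (G ⧸ B)] [N.Normal] [NoZeroDivisors (grp κ N)]
    [StrongRankCondition (grp κ N)]
    (L : Submodule (MonoidAlgebra κ G) (MonoidAlgebra κ G)) (R : ℕ) (θ : A.Cell)
    [NoZeroDivisors (grp κ (MulAction.stabilizer G θ))] :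
    N.relIndex (MulAction.stabilizer G θ) ∣ A.hh L R θ :=
  rank_dvd N _ (A.le_stab θ) (A.relIndex_stab_ne_zero θ) (Lsub L _ (A.P R θ) (A.P_inv R θ)) _ rfl _
    (A.rank_eq_hh L R θ)

end Aff

end Pool.Agent.Work.MP_819de9_al
end

-- merged part: Pool.Agent.Work.MP_819de9_al.Euler
section
/-! Combinatorial lemmas: truncation via Dickson's lemma, an Euler-characteristic sum over cubes,
and a divisibility lemma for invariant sums. -/

namespace Pool.Agent.Work.MP_819de9_al

open Finset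

theorem exists_trunc_nat {α : Type} [Fintype α] (U : Set (α → ℕ)) :
    ∃ M : ℕ, ∀ s ∈ U, ∃ t ∈ U, t ≤ s ∧ ∀ i, t i ≤ M := by
  classical
  have hfin : {t | Minimal (· ∈ U) t}.Finite :=
    WellQuasiOrderedLE.finite_of_isAntichain (setOfPred_minimal_antichain _)
  refine ⟨hfin.toFinset.sup fun t => univ.sup t, fun s hs => ?_⟩
  obtain ⟨t, hts, ht⟩ := exists_minimal_le_of_wellFoundedLT (· ∈ U) s hs
  refine ⟨t, ht.1, hts, fun i => ?_⟩
  exact (le_sup (f := t) (mem_univ i)).trans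
    (le_sup (f := fun t : α → ℕ => univ.sup t) (hfin.mem_toFinset.2 ht))

theorem exists_trunc {ι : Type} [Fintype ι] (V : (ι → ℤ) → (ι → ℤ) → Prop)
    (hmono : ∀ a b a' b', a ≤ a' → b ≤ b' → V a b → V a' b')
    (hpos : ∀ a b, V a b → 0 ≤ a ∧ 0 ≤ b) :
    ∃ M : ℕ, ∀ a b a' b', (∀ i, a i ≤ a' i ∨ (M : ℤ) ≤ a' i) → (∀ i, b i ≤ b' i ∨ (M : ℤ) ≤ b' i) →
      V a b → V a' b' := by
  obtain ⟨M, hM⟩ := exists_trunc_nat (α := ι ⊕ ι)
    {s | V (fun i => (s (Sum.inl i) : ℤ)) (fun i => (s (Sum.inr i) : ℤ))}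
  refine ⟨M, fun a b a' b' ha hb h => ?_⟩
  obtain ⟨h0a, h0b⟩ := hpos a b h
  obtain ⟨t, ht, hts, htM⟩ := hM (Sum.elim (fun i => (a i).toNat) (fun i => (b i).toNat)) (by
    have e1 : (fun i => (((a i).toNat : ℕ) : ℤ)) = a := funext fun i => Int.toNat_of_nonneg (h0a i)
    have e2 : (fun i => (((b i).toNat : ℕ) : ℤ)) = b := funext fun i => Int.toNat_of_nonneg (h0b i)
    show V (fun i => (((a i).toNat : ℕ) : ℤ)) (fun i => (((b i).toNat : ℕ) : ℤ))
    rw [e1, e2]; exact h)
  refine hmono _ _ _ _ (fun i => ?_) (fun i => ?_) ht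
  · have h1 : t (Sum.inl i) ≤ (a i).toNat := hts (Sum.inl i)
    have h2 := htM (Sum.inl i)
    have h3 : 0 ≤ a i := h0a i
    have h4 := ha i
    show (t (Sum.inl i) : ℤ) ≤ a' i
    omega
  · have h1 : t (Sum.inr i) ≤ (b i).toNat := hts (Sum.inr i)
    have h2 := htM (Sum.inr i)
    have h3 : 0 ≤ b i := h0b i
    have h4 := hb i
    show (t (Sum.inr i) : ℤ) ≤ b' i
    omega

/-- sign of a cell coordinate -/
def sg (n : ℤ) : ℤ := if n % 2 = 0 then 1 else -1

/-- the pairing of nonzero cell coordinates -/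
def flp (n : ℤ) : ℤ :=
  if 0 < n then (if n % 2 = 0 then n - 1 else n + 1) else (if n % 2 = 0 then n + 1 else n - 1)

theorem sg_add_two_mul (n t : ℤ) : sg (2 * t + n) = sg n := by
  unfold sg
  have : (2 * t + n) % 2 = n % 2 := by omega
  rw [this]

theorem sg_flp (n : ℤ) : sg (flp n) = - sg n := by
  unfold sg flp
  split_ifs <;> first | rfl | omega

theorem flp_flp (n : ℤ) (hn : n ≠ 0) : flp (flp n) = n := by
  unfold flp
  split_ifs <;> omega

theorem flp_ne_zero (n : ℤ) (_hn : n ≠ 0) : flp n ≠ 0 := by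
  unfold flp
  split_ifs <;> omega

theorem flp_ne (n : ℤ) : flp n ≠ n := by
  unfold flp
  split_ifs <;> omega

open Classical in
theorem euler {ι : Type} [Fintype ι] [LinearOrder ι] (V : (ι → ℤ) → (ι → ℤ) → Prop)
    (hmono : ∀ a b a' b', a ≤ a' → b ≤ b' → V a b → V a' b')
    (hpos : ∀ a b, V a b → 0 ≤ a ∧ 0 ≤ b) :
    ∃ M : ℕ, ∀ R : ℕ, M ≤ R →
      ∑ n ∈ Fintype.piFinset (fun _ : ι => Icc (-(2 * R : ℤ)) (2 * R)),
        (if V (fun i => R + n i / 2) (fun i => R - (n i + 1) / 2) then ∏ i, sg (n i) else 0) =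
      if ∃ a b, V a b then 1 else 0 := by
  obtain ⟨M, hM⟩ := exists_trunc V hmono hpos
  refine ⟨M, fun R hR => ?_⟩
  set S := Fintype.piFinset (fun _ : ι => Icc (-(2 * R : ℤ)) (2 * R)) with hS
  have h0 : (0 : ι → ℤ) ∈ S := by
    simp [hS, Fintype.mem_piFinset]
  rw [← add_sum_erase S _ h0]
  have hc : (if V (fun i => (R : ℤ) + (0 : ι → ℤ) i / 2) (fun i => (R : ℤ) - ((0 : ι → ℤ) i + 1) / 2)
      then ∏ i, sg ((0 : ι → ℤ) i) else 0) = if ∃ a b, V a b then (1 : ℤ) else 0 := by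
    have hp : ∏ i, sg ((0 : ι → ℤ) i) = 1 := by simp [sg]
    rw [hp]
    refine if_congr ⟨fun h => ⟨_, _, h⟩, fun ⟨a, b, h⟩ => ?_⟩ rfl rfl
    refine hM _ _ _ _ (fun i => Or.inr ?_) (fun i => Or.inr ?_) h
    · simp; omega
    · simp; omega
  rw [hc, add_eq_left]
  have hne : ∀ n ∈ S.erase 0, (univ.filter fun i => n i ≠ 0).Nonempty := by
    intro n hn
    have := (mem_erase.1 hn).1
    by_contra h
    apply this
    funext i
    by_contra hi
    exact h ⟨i, by simpa using hi⟩
  let idx : ∀ n ∈ S.erase 0, ι := fun n hn => (univ.filter fun i => n i ≠ 0).min' (hne n hn)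
  have hidx : ∀ (n : ι → ℤ) hn, n (idx n hn) ≠ 0 := fun n hn => by
    have := min'_mem _ (hne n hn)
    simpa using this
  let g : ∀ n ∈ S.erase 0, ι → ℤ := fun n hn => Function.update n (idx n hn) (flp (n (idx n hn)))
  have gmem : ∀ n hn, g n hn ∈ S.erase 0 := by
    intro n hn
    refine mem_erase.2 ⟨fun h => ?_, ?_⟩
    · have := congrFun h (idx n hn)
      simp only [g, Function.update_self, Pi.zero_apply] at this
      exact flp_ne_zero _ (hidx n hn) this
    · have hn' := (mem_erase.1 hn).2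
      rw [hS, Fintype.mem_piFinset] at hn' ⊢
      intro i
      by_cases hi : i = idx n hn
      · subst hi
        have h1 := hn' (idx n hn)
        have h2 := hidx n hn
        simp only [g, Function.update_self, mem_Icc] at h1 ⊢
        unfold flp
        split_ifs <;> omega
      · simpa [g, Function.update_of_ne hi] using hn' i
  have hfilt : ∀ n hn, (univ.filter fun i => g n hn i ≠ 0) = univ.filter fun i => n i ≠ 0 := by
    intro n hn
    ext i
    by_cases hi : i = idx n hn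
    · subst hi
      simp [g, hidx n hn, flp_ne_zero _ (hidx n hn)]
    · simp [g, Function.update_of_ne hi]
  have hidxg : ∀ n hn, idx (g n hn) (gmem n hn) = idx n hn := by
    intro n hn
    simp only [idx, hfilt n hn]
  have hV : ∀ n hn, V (fun i => R + n i / 2) (fun i => R - (n i + 1) / 2) ↔
      V (fun i => R + g n hn i / 2) (fun i => R - (g n hn i + 1) / 2) := by
    intro n hn
    have h2 := hidx n hn
    constructor
    all_goals
      intro h
      refine hM _ _ _ _ (fun i => ?_) (fun i => ?_) h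
      all_goals
        by_cases hi : i = idx n hn
        · subst hi
          simp only [g, Function.update_self]
          unfold flp
          split_ifs <;> omega
        · simp [g, Function.update_of_ne hi]
  refine sum_involution g (fun n hn => ?_) (fun n hn _ h => ?_) gmem (fun n hn => ?_)
  · rw [← if_congr (hV n hn) rfl rfl]
    split_ifs
    · have e1 := mul_prod_erase univ (fun i => sg (n i)) (mem_univ (idx n hn))
      have e2 := mul_prod_erase univ (fun i => sg (g n hn i)) (mem_univ (idx n hn))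
      have e3 : ∏ i ∈ univ.erase (idx n hn), sg (g n hn i) = ∏ i ∈ univ.erase (idx n hn), sg (n i) :=
        prod_congr rfl fun i hi => by simp [g, Function.update_of_ne (mem_erase.1 hi).1]
      rw [← e1, ← e2, e3]
      simp only [g, Function.update_self, sg_flp]
      ring
    · simp
  · have := congrFun h (idx n hn)
    simp only [g, Function.update_self] at this
    exact flp_ne _ this
  · funext i
    simp only [g, hidxg n hn]
    by_cases hi : i = idx n hn
    · subst hi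
      simp [flp_flp _ (hidx n hn)]
    · simp [Function.update_of_ne hi]

open Classical in
/-- an invariant sum is divisible by the index -/
theorem index_dvd_sum {G Y : Type} [Group G] [MulAction G Y] (B : Subgroup G)
    (hB : ∀ b ∈ B, ∀ y : Y, b • y = y) (s : Finset Y) (a : Y → ℤ)
    (hs : ∀ y, y ∉ s → a y = 0) (ha : ∀ (g : G) y, a (g • y) = a y)
    (hd : ∀ y, ((B.relIndex (MulAction.stabilizer G y) : ℕ) : ℤ) ∣ a y) :
    ((B.index : ℕ) : ℤ) ∣ ∑ y ∈ s, a y := by
  rw [← sum_filter_ne_zero]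
  set s' := s.filter fun y => a y ≠ 0 with hs'
  rw [← sum_fiberwise_of_maps_to (t := s'.image (Quotient.mk (MulAction.orbitRel G Y)))
    (g := Quotient.mk (MulAction.orbitRel G Y)) (fun y hy => mem_image_of_mem _ hy)]
  refine dvd_sum fun q hq => ?_
  obtain ⟨y, hy, rfl⟩ := mem_image.1 hq
  have hay : a y ≠ 0 := (mem_filter.1 hy).2
  have hset : ((s'.filter fun z => Quotient.mk (MulAction.orbitRel G Y) z =
      Quotient.mk (MulAction.orbitRel G Y) y : Finset Y) : Set Y) = MulAction.orbit G y := by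
    ext z
    simp only [coe_filter, Set.mem_ofPred_eq]
    constructor
    · rintro ⟨_, h⟩
      exact Quotient.exact h
    · rintro ⟨g, rfl⟩
      have h1 : a (g • y) ≠ 0 := by rw [ha]; exact hay
      refine ⟨mem_filter.2 ⟨?_, h1⟩, Quotient.sound ⟨g, rfl⟩⟩
      by_contra h
      exact h1 (hs _ h)
  rw [sum_congr rfl (g := fun _ => a y)]
  · rw [sum_const, nsmul_eq_mul, ← Set.ncard_coe_finset, hset, ← MulAction.index_stabilizer,
      ← Subgroup.relIndex_mul_index (H := B) (K := MulAction.stabilizer G y)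
        (fun b hb => hB b hb y)]
    obtain ⟨c, hc⟩ := hd y
    exact ⟨c, by rw [hc]; push_cast; ring⟩
  · intro z hz
    have : z ∈ MulAction.orbit G y := by rw [← hset]; exact hz
    obtain ⟨g, rfl⟩ := this
    exact ha g y

end Pool.Agent.Work.MP_819de9_al
end

-- merged part: Pool.Agent.Work.MP_819de9_al.Moody
section
/-! The induction step for zero divisors. -/

set_option linter.unusedSectionVars false

namespace Pool.Agent.Work.MP_819de9_al

open MonoidAlgebra

namespace Aff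

variable {G : Type} [Group G] {N B : Subgroup G} {ι : Type} [MulAction G ι] (A : Aff G N B ι)
variable [hB : B.Normal]

/-- orbits of `B` on cells -/
def Orb (A : Aff G N B ι) : Type := Quotient (MulAction.orbitRel B A.Cell)

/-- the orbit of a cell -/
def orb (θ : A.Cell) : A.Orb := Quotient.mk _ θ

theorem orb_eq_iff (θ θ' : A.Cell) : A.orb θ = A.orb θ' ↔ ∃ b ∈ B, b • θ' = θ := by
  refine Quotient.eq.trans ?_
  constructor
  · rintro ⟨b, hb⟩
    exact ⟨b, b.2, hb⟩
  · rintro ⟨b, hb, h⟩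
    exact ⟨⟨b, hb⟩, h⟩

theorem orb_surj (y : A.Orb) : ∃ θ, A.orb θ = y := Quotient.exists_rep y

instance : MulAction G A.Orb where
  smul g := Quotient.map (fun θ => g • θ) (by
    rintro θ θ' ⟨b, hb⟩
    refine ⟨⟨g * b * g⁻¹, hB.conj_mem _ b.2 g⟩, ?_⟩
    have hb' : (b : G) • θ' = θ := hb
    show (g * b * g⁻¹) • g • θ' = g • θ
    rw [← hb', smul_smul, smul_smul, inv_mul_cancel_right])
  one_smul y := by
    obtain ⟨θ, rfl⟩ := A.orb_surj y
    show A.orb ((1 : G) • θ) = A.orb θ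
    rw [one_smul]
  mul_smul a b y := by
    obtain ⟨θ, rfl⟩ := A.orb_surj y
    show A.orb ((a * b) • θ) = A.orb (a • b • θ)
    rw [mul_smul]

theorem smul_orb (g : G) (θ : A.Cell) : g • A.orb θ = A.orb (g • θ) := rfl

theorem stab_orb (θ : A.Cell) :
    MulAction.stabilizer G (A.orb θ) = MulAction.stabilizer G θ ⊔ B := by
  apply le_antisymm
  · intro g hg
    rw [MulAction.mem_stabilizer_iff, smul_orb, orb_eq_iff] at hg
    obtain ⟨b, hb, h⟩ := hg
    have h1 : b⁻¹ * g ∈ MulAction.stabilizer G θ := by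
      rw [MulAction.mem_stabilizer_iff, mul_smul, ← h, inv_smul_smul]
    have h2 : g = b * (b⁻¹ * g) := by simp
    rw [h2]
    exact mul_mem (Subgroup.mem_sup_right hb) (Subgroup.mem_sup_left h1)
  · refine sup_le (fun g hg => ?_) fun b hb => ?_
    · rw [MulAction.mem_stabilizer_iff] at hg ⊢
      rw [smul_orb, hg]
    · rw [MulAction.mem_stabilizer_iff, smul_orb, orb_eq_iff]
      exact ⟨b, hb, rfl⟩

variable [LinearOrder (G ⧸ B)] [LinearOrder ι] [Fintype ι]

/-- the sign of a cell -/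
def w (θ : A.Cell) : ℤ := ∏ i, sg (θ i)

theorem w_smul (g : G) (θ : A.Cell) : A.w (g • θ) = A.w θ := by
  simp only [w, smul_apply, sg_add_two_mul]
  exact Equiv.prod_comp (MulAction.toPerm g⁻¹) fun i => sg (θ i)

variable {κ : Type} [CommRing κ]

/-- `γ` is the leading position of an element of `L` supported near `θ` -/
def LeadAt (L : Submodule (MonoidAlgebra κ G) (MonoidAlgebra κ G)) (R : ℕ) (θ : A.Cell)
    (γ : G) : Prop :=
  ∃ f ∈ L, SuppIn (A.P R θ) f ∧ f.coeff γ ≠ 0 ∧ ∀ γ', f.coeff γ' ≠ 0 → A.key γ' ≤ A.key γ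

theorem LeadAt.smul {L : Submodule (MonoidAlgebra κ G) (MonoidAlgebra κ G)} {R : ℕ} {θ : A.Cell}
    {γ : G} (h : A.LeadAt L R θ γ) {b : G} (hb : b ∈ B) : A.LeadAt L R (b • θ) (b * γ) := by
  obtain ⟨f, hf, hs, hγ, hmax⟩ := h
  refine ⟨single b 1 * f, L.smul_mem _ hf, (SuppIn.single (S := {b}) rfl 1).mul hs
    fun a ha s hs' => ?_, by simpa [coeff_single_mul_apply] using hγ, fun γ' h' => ?_⟩
  · rw [Set.mem_singleton_iff.1 ha]; exact A.mul_mem_P hs' b
  · rw [coeff_single_mul_apply, one_mul] at h'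
    simpa using A.key_mul_le hb (hmax _ h')

/-- the cell at relative position `p.2` from the representative of `p.1` -/
noncomputable def cell (p : (G ⧸ B) × (ι → ℤ)) : A.Cell := fun i => 2 * A.τ p.1.out i + p.2 i

theorem w_cell (p : (G ⧸ B) × (ι → ℤ)) : A.w (A.cell p) = ∏ i, sg (p.2 i) := by
  simp only [w, cell, sg_add_two_mul]

theorem out_mul_inv_mem (γ : G) : (γ : G ⧸ B).out * γ⁻¹ ∈ B :=
  hB.mem_comm (QuotientGroup.eq.1 (γ : G ⧸ B).out_eq.symm)

open Classical in
theorem card_fiber [Fintype (G ⧸ B)] (L : Submodule (MonoidAlgebra κ G) (MonoidAlgebra κ G))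
    (R : ℕ) (θ : A.Cell) :
    (((Finset.univ ×ˢ Fintype.piFinset (fun _ : ι => Finset.Icc (-(2 * R : ℤ)) (2 * R))).filter
      fun p : (G ⧸ B) × (ι → ℤ) => A.LeadAt L R (A.cell p) p.1.out).filter
        fun p => A.orb (A.cell p) = A.orb θ).card = A.hh L R θ := by
  let F : (G ⧸ B) ×ₗ Lex (ι → ℤ) → (G ⧸ B) × (ι → ℤ) := fun t =>
    ((ofLex t).1, fun i => θ i - 2 * ofLex (ofLex t).2 i)
  have hF : Function.Injective F := by
    intro t t' h
    have h1 : (ofLex t).1 = (ofLex t').1 := (Prod.ext_iff.1 h).1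
    have h2 : ofLex (ofLex t).2 = ofLex (ofLex t').2 := by
      funext i
      have : θ i - 2 * ofLex (ofLex t).2 i = θ i - 2 * ofLex (ofLex t').2 i :=
        congrFun (congrArg Prod.snd h) i
      omega
    exact ofLex.injective (Prod.ext h1 (ofLex.injective h2))
  rw [hh, ← Set.ncard_image_of_injective _ hF, ← Set.ncard_coe_finset]
  congr 1
  ext p
  simp only [Finset.coe_filter, Finset.mem_filter, Finset.mem_product, Finset.mem_univ, true_and,
    Set.mem_ofPred_eq, Set.mem_image]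
  constructor
  · rintro ⟨⟨-, hl⟩, ho⟩
    obtain ⟨b, hb, hbθ⟩ := (A.orb_eq_iff _ _).1 ho.symm
    have h1 := hl.smul A hb
    rw [hbθ] at h1
    obtain ⟨f, hf, hs, hγ, hmax⟩ := h1
    refine ⟨A.key (b * p.1.out), ⟨f, ⟨hf, hs⟩, _, hγ, rfl, hmax⟩, Prod.ext ?_ ?_⟩
    · show ((b * p.1.out : G) : G ⧸ B) = p.1
      rw [mk_mul_of_mem hb, QuotientGroup.out_eq']
    · funext i
      show θ i - 2 * A.τ (b * p.1.out) i = p.2 i
      rw [← hbθ, A.smul_apply_of_mem hb, A.τ_mul_of_mem hb]
      simp only [cell, Pi.add_apply]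
      ring
  · rintro ⟨_, ⟨f, hf, γ, hγ, rfl, hmax⟩, rfl⟩
    have hb := out_mul_inv_mem (B := B) γ
    have hc : A.cell (F (A.key γ)) = ((γ : G ⧸ B).out * γ⁻¹) • θ := by
      funext i
      have h1 := congrFun (A.τ_mul_of_mem hb γ) i
      rw [inv_mul_cancel_right, Pi.add_apply] at h1
      rw [A.smul_apply_of_mem hb]
      show 2 * A.τ (γ : G ⧸ B).out i + (θ i - 2 * A.τ γ i) = _
      rw [h1]; ring
    have hl : A.LeadAt L R θ γ := ⟨f, hf.1, hf.2, hγ, hmax⟩
    refine ⟨⟨Fintype.mem_piFinset.2 fun i => ?_, ?_⟩, ?_⟩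
    · have := hf.2 γ hγ i
      show θ i - 2 * A.τ γ i ∈ _
      rw [Finset.mem_Icc]
      omega
    · have := hl.smul A hb
      rw [inv_mul_cancel_right] at this
      rw [hc]
      exact this
    · rw [hc, orb_eq_iff]
      exact ⟨_, hb, rfl⟩

open Classical in
theorem index_dvd_leadSum [Fintype (G ⧸ B)] [N.Normal] [NoZeroDivisors (grp κ N)]
    [StrongRankCondition (grp κ N)]
    (hE : ∀ E : Subgroup G, N ≤ E → N.relIndex E ≠ 0 → NoZeroDivisors (grp κ E))
    (L : Submodule (MonoidAlgebra κ G) (MonoidAlgebra κ G)) (R : ℕ) :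
    ((B.index : ℕ) : ℤ) ∣ ∑ p ∈ (Finset.univ ×ˢ
      Fintype.piFinset (fun _ : ι => Finset.Icc (-(2 * R : ℤ)) (2 * R))).filter
      fun p : (G ⧸ B) × (ι → ℤ) => A.LeadAt L R (A.cell p) p.1.out, A.w (A.cell p) := by
  set Z := (Finset.univ ×ˢ
      Fintype.piFinset (fun _ : ι => Finset.Icc (-(2 * R : ℤ)) (2 * R))).filter
      fun p : (G ⧸ B) × (ι → ℤ) => A.LeadAt L R (A.cell p) p.1.out with hZ
  let a : A.Orb → ℤ := Quotient.lift (fun θ => A.w θ * A.hh L R θ) (by
    rintro θ θ' ⟨b, hb⟩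
    have hb' : (b : G) • θ' = θ := hb
    rw [← hb', w_smul, hh_smul])
  have ha : ∀ θ, a (A.orb θ) = A.w θ * A.hh L R θ := fun _ => rfl
  let s := Z.image fun p => A.orb (A.cell p)
  have h1 : ∑ p ∈ Z, A.w (A.cell p) = ∑ y ∈ s, a y := by
    rw [← Finset.sum_fiberwise_of_maps_to (t := s) (g := fun p => A.orb (A.cell p))
      (fun p hp => Finset.mem_image_of_mem _ hp)]
    refine Finset.sum_congr rfl fun y _ => ?_
    obtain ⟨θ, rfl⟩ := A.orb_surj y
    rw [Finset.sum_congr rfl (g := fun _ => A.w θ), Finset.sum_const, nsmul_eq_mul, hZ,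
      A.card_fiber, ha, mul_comm]
    intro p hp
    obtain ⟨b, -, hb⟩ := (A.orb_eq_iff _ _).1 (Finset.mem_filter.1 hp).2
    rw [← hb, w_smul]
  rw [h1]
  refine index_dvd_sum B (fun b hb y => ?_) s a (fun y hy => ?_) (fun g y => ?_) fun y => ?_
  all_goals obtain ⟨θ, rfl⟩ := A.orb_surj y
  · rw [smul_orb, orb_eq_iff]; exact ⟨b, hb, rfl⟩
  · rw [ha, ← A.card_fiber, ← hZ, Finset.filter_eq_empty_iff.2, Finset.card_empty, Nat.cast_zero,
      mul_zero]
    intro p hp h
    exact hy (Finset.mem_image.2 ⟨p, hp, h⟩)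
  · rw [smul_orb, ha, ha, w_smul, hh_smul]
  · rw [stab_orb, Subgroup.relIndex_sup_right, relIndex_stab, ha]
    have := hE _ (A.le_stab θ) (A.relIndex_stab_ne_zero θ)
    exact Dvd.dvd.mul_left (Int.natCast_dvd_natCast.2 (A.dvd_hh L R θ)) _

include A in
theorem noZeroDivisors [Finite (G ⧸ B)] [N.Normal] [NoZeroDivisors (grp κ N)]
    [StrongRankCondition (grp κ N)]
    (hE : ∀ E : Subgroup G, N ≤ E → N.relIndex E ≠ 0 → NoZeroDivisors (grp κ E)) :
    NoZeroDivisors (MonoidAlgebra κ G) := by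
  classical
  let _ : Fintype (G ⧸ B) := Fintype.ofFinite _
  refine ⟨fun {α β} hαβ => ?_⟩
  by_contra hne
  push Not at hne
  obtain ⟨hα, hβ⟩ := hne
  let L : Submodule (MonoidAlgebra κ G) (MonoidAlgebra κ G) :=
    LinearMap.ker (LinearMap.toSpanSingleton _ _ β)
  have hL : ∀ f, f ∈ L ↔ f * β = 0 := fun f => by simp [L]
  let V : (G ⧸ B) → (ι → ℤ) → (ι → ℤ) → Prop := fun q a b =>
    ∃ f ∈ L, f.coeff q.out ≠ 0 ∧ ∀ γ', f.coeff γ' ≠ 0 → A.key γ' ≤ A.key q.out ∧
      ∀ i, A.τ γ' i ≤ A.τ q.out i + a i ∧ A.τ q.out i - b i ≤ A.τ γ' i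
  have hmono : ∀ q a b a' b', a ≤ a' → b ≤ b' → V q a b → V q a' b' := by
    rintro q a b a' b' ha hb ⟨f, hf, h1, h2⟩
    refine ⟨f, hf, h1, fun γ' h' => ⟨(h2 γ' h').1, fun i => ?_⟩⟩
    have := (h2 γ' h').2 i
    have : a i ≤ a' i := ha i
    have : b i ≤ b' i := hb i
    omega
  have hpos : ∀ q a b, V q a b → 0 ≤ a ∧ 0 ≤ b := by
    rintro q a b ⟨f, hf, h1, h2⟩
    refine ⟨fun i => ?_, fun i => ?_⟩
    all_goals
      have := (h2 _ h1).2 i
      simp only [Pi.zero_apply]
      omega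
  choose M hM using fun q => euler (V q) (hmono q) (hpos q)
  let R := Finset.univ.sup M
  have hdvd := A.index_dvd_leadSum hE L R
  rw [Finset.sum_filter, Finset.sum_product] at hdvd
  rw [Finset.sum_congr rfl (g := fun q => if ∃ a b, V q a b then (1 : ℤ) else 0)] at hdvd
  swap
  · intro q _
    rw [← hM q R (Finset.le_sup (Finset.mem_univ q))]
    refine Finset.sum_congr rfl fun n _ => ?_
    rw [w_cell]
    refine if_congr ⟨?_, ?_⟩ rfl rfl
    · rintro ⟨f, hf, hs, h1, h2⟩
      refine ⟨f, hf, h1, fun γ' h' => ⟨h2 γ' h', fun i => ?_⟩⟩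
      have := hs γ' h' i
      simp only [cell] at this ⊢
      omega
    · rintro ⟨f, hf, h1, h2⟩
      refine ⟨f, hf, fun γ' h' i => ?_, h1, fun γ' h' => (h2 γ' h').1⟩
      have := (h2 γ' h').2 i
      simp only [cell] at this ⊢
      omega
  rw [Finset.sum_boole] at hdvd
  have hdvd' := Int.natCast_dvd_natCast.1 hdvd
  have hne : (Finset.univ : Finset (G ⧸ B)).Nonempty := Finset.univ_nonempty
  have hlt : (Finset.univ.filter fun q => ∃ a b, V q a b).card < B.index := by
    rw [Subgroup.index, Nat.card_eq_fintype_card, ← Finset.card_univ]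
    refine Finset.card_lt_card (Finset.filter_ssubset.2 ⟨Finset.univ.min' hne, Finset.mem_univ _, ?_⟩)
    set q := Finset.univ.min' hne with hq
    rintro ⟨a, b, f, hf, h1, h2⟩
    have h3 : f ≠ 0 := fun h => h1 (by simp [h])
    refine A.mul_ne_zero_of_mem (α := single q.out⁻¹ 1 * f) (fun γ hγ => ?_)
      (single_mul_ne_zero h3 _) hβ (by rw [mul_assoc, (hL f).1 hf, mul_zero])
    rw [coeff_single_mul_apply, one_mul, inv_inv] at hγ
    have h4 : ((q.out * γ : G) : G ⧸ B) ≤ (q.out : G ⧸ B) := Prod.Lex.monotone_fst _ _ (h2 _ hγ).1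
    have h5 : (q.out : G ⧸ B) ≤ ((q.out * γ : G) : G ⧸ B) := by
      rw [QuotientGroup.out_eq']
      exact Finset.min'_le _ _ (Finset.mem_univ _)
    simpa using QuotientGroup.eq.1 (le_antisymm h5 h4)
  have h0 := Nat.eq_zero_of_dvd_of_lt hdvd' hlt
  rw [Finset.card_eq_zero, Finset.filter_eq_empty_iff] at h0
  obtain ⟨γ, hγ, hmax⟩ := exists_lead A.key hα
  have hb := out_mul_inv_mem (B := B) γ
  set b := (γ : G ⧸ B).out * γ⁻¹ with hbdef
  let f := single b (1 : κ) * α
  let c : ι → ℤ := fun i => ∑ γ' ∈ f.coeff.support, |A.τ γ' i - A.τ (γ : G ⧸ B).out i|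
  refine h0 (Finset.mem_univ (γ : G ⧸ B)) ⟨c, c, f, (hL f).2 (by
    rw [mul_assoc, hαβ, mul_zero]), by simpa [f, coeff_single_mul_apply, hbdef] using hγ,
    fun γ' h' => ⟨?_, fun i => ?_⟩⟩
  · rw [coeff_single_mul_apply, one_mul] at h'
    have := A.key_mul_le hb (hmax _ h')
    rwa [mul_inv_cancel_left, hbdef, inv_mul_cancel_right] at this
  · have h1 : |A.τ γ' i - A.τ (γ : G ⧸ B).out i| ≤ c i :=
      Finset.single_le_sum (f := fun γ' => |A.τ γ' i - A.τ (γ : G ⧸ B).out i|)
        (fun _ _ => abs_nonneg _) (Finsupp.mem_support_iff.2 h')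
    have h2 := abs_le.1 h1
    omega

end Aff

end Pool.Agent.Work.MP_819de9_al
end
end

-- merged part: Pool.Agent.Work.MP_819de9_al.Final
section
-- merged part: Pool.Agent.Work.MP_819de9_al.Src
section
/-! The induction step for the strong rank condition. -/

set_option linter.unusedSectionVars false

namespace Pool.Agent.Work.MP_819de9_al

open MonoidAlgebra Filter

theorem growth_contra (n C c m : ℕ) (V : ℕ → ℕ) (h0 : 1 ≤ V 0)
    (hstep : ∀ ρ, (n + 1) * V ρ ≤ n * V (ρ + c)) (hb : ∀ ρ, V ρ ≤ C * (2 * ρ + 1) ^ m) : False := by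
  have h1 : ∀ j, (n + 1) ^ j ≤ n ^ j * V (j * c) := by
    intro j
    induction j with
    | zero => simpa using h0
    | succ j ih =>
      calc (n + 1) ^ (j + 1) = (n + 1) * (n + 1) ^ j := by ring
        _ ≤ (n + 1) * (n ^ j * V (j * c)) := Nat.mul_le_mul_left _ ih
        _ = n ^ j * ((n + 1) * V (j * c)) := by ring
        _ ≤ n ^ j * (n * V (j * c + c)) := Nat.mul_le_mul_left _ (hstep _)
        _ = n ^ (j + 1) * V ((j + 1) * c) := by rw [add_mul, one_mul]; ring
  rcases Nat.eq_zero_or_pos n with rfl | hn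
  · simpa using h1 1
  have hn' : (0 : ℝ) < n := by exact_mod_cast hn
  have hr : (1 : ℝ) < (n + 1) / n := by rw [lt_div_iff₀ hn']; linarith
  have ht := (tendsto_pow_const_div_const_pow_of_one_lt m hr).const_mul
    ((C : ℝ) * (2 * c + 1) ^ m)
  rw [mul_zero] at ht
  obtain ⟨j, hj, hj1⟩ := ((ht.eventually (gt_mem_nhds one_pos)).and (eventually_ge_atTop 1)).exists
  have h2 : (n + 1) ^ j ≤ n ^ j * (C * ((2 * c + 1) ^ m * j ^ m)) := by
    refine (h1 j).trans (Nat.mul_le_mul_left _ ((hb _).trans (Nat.mul_le_mul_left _ ?_)))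
    rw [← mul_pow]
    exact Nat.pow_le_pow_left (by nlinarith) _
  have h3 : ((n : ℝ) + 1) ^ j ≤ (n : ℝ) ^ j * (C * ((2 * c + 1) ^ m * (j : ℝ) ^ m)) := by
    exact_mod_cast h2
  rw [div_pow, ← mul_div_assoc, div_div_eq_mul_div, div_lt_one (by positivity)] at hj
  nlinarith

namespace Aff

variable {G : Type} [Group G] {N B : Subgroup G} {ι : Type} [MulAction G ι] (A : Aff G N B ι)
variable [hB : B.Normal] [LinearOrder (G ⧸ B)] [LinearOrder ι] [Fintype ι]
variable {κ : Type} [CommRing κ]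

/-- the base cell -/
def zc : A.Cell := fun _ => 0

theorem mul_mem_P_zc {ρ c : ℕ} : ∀ s ∈ A.P ρ A.zc, ∀ t ∈ A.P c A.zc,
    s * t ∈ A.P (ρ + c) A.zc := fun s hs t ht i => by
  have h1 := hs i
  have h2 := ht (s⁻¹ • i)
  rw [A.cocycle]
  simp only [zc] at h1 h2 ⊢
  push_cast
  omega

theorem P_zc_mono {ρ c : ℕ} (h : ρ ≤ c) : A.P ρ A.zc ⊆ A.P c A.zc := fun s hs i => by
  have h1 := hs i
  omega

theorem exists_P_zc (f : MonoidAlgebra κ G) : ∃ c, SuppIn (A.P c A.zc) f := by
  refine ⟨f.coeff.support.sup fun γ => Finset.univ.sup fun i => (A.τ γ i).natAbs, fun γ hγ i => ?_⟩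
  have h1 : (A.τ γ i).natAbs ≤
      f.coeff.support.sup fun γ => Finset.univ.sup fun i => (A.τ γ i).natAbs :=
    (Finset.le_sup (f := fun i => (A.τ γ i).natAbs) (Finset.mem_univ i)).trans
      (Finset.le_sup (f := fun γ => Finset.univ.sup fun i => (A.τ γ i).natAbs)
        (Finsupp.mem_support_iff.2 hγ))
  simp only [zc]
  omega

include A in
theorem src [Finite (G ⧸ B)] [Nontrivial κ] [NoZeroDivisors (grp κ N)]
    [StrongRankCondition (grp κ N)] : StrongRankCondition (MonoidAlgebra κ G) := by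
  classical
  let _ : Fintype (G ⧸ B) := Fintype.ofFinite _
  rw [strongRankCondition_iff_succ]
  intro n f hf
  choose c0 hc0 using fun p : Fin (n + 1) × Fin n => A.exists_P_zc (f (Pi.single p.1 1) p.2)
  let c := Finset.univ.sup c0
  have hc : ∀ i j, SuppIn (A.P c A.zc) (f (Pi.single i 1) j) := fun i j =>
    (hc0 (i, j)).mono (A.P_zc_mono (Finset.le_sup (Finset.mem_univ (i, j))))
  let W : ℕ → Submodule (grp κ N) (MonoidAlgebra κ G) := fun ρ =>
    Lsub ⊤ N (A.P ρ A.zc) (A.P_invN ρ A.zc)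
  let T : ℕ → Finset ((G ⧸ B) ×ₗ Lex (ι → ℤ)) := fun ρ => (A.finite_lead (κ := κ) ⊤ ρ A.zc).toFinset
  refine growth_contra n (Fintype.card (G ⧸ B)) c (Fintype.card ι) (fun ρ => (T ρ).card) ?_
    (fun ρ => ?_) fun ρ => ?_
  · refine Finset.card_pos.2 ⟨A.key 1, (Set.Finite.mem_toFinset _).2 ⟨1, ⟨trivial,
      SuppIn.single (fun i => by simp [A.τ_one, zc]) 1⟩, 1, by simp, rfl, fun γ' h' => ?_⟩⟩
    rw [show γ' = 1 from SuppIn.single (S := {1}) rfl (1 : κ) γ' h']
  · obtain ⟨v, hv⟩ := echelon_indep N A.key (fun a b => (A.key_eq_iff a b).2) (W ρ) (T ρ)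
      (by simp [T, W])
    obtain ⟨φ, hφ⟩ := echelon_inj N A.key (fun a b => (A.key_eq_iff a b).1) (W (ρ + c))
      (T (ρ + c)) (by simp [T, W])
    have hψ := hv.fintypeLinearCombination_injective
    have hmem : ∀ (x : Fin (n + 1) → W ρ) (j : Fin n),
        f (fun i => (x i : MonoidAlgebra κ G)) j ∈ W (ρ + c) := fun x j => by
      refine ⟨trivial, ?_⟩
      have : (fun i => (x i : MonoidAlgebra κ G)) =
          ∑ i, (x i : MonoidAlgebra κ G) • (Pi.single i 1 : Fin (n + 1) → MonoidAlgebra κ G) := by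
        funext i; simp [Finset.sum_apply, Pi.single_apply]
      rw [this, map_sum, Finset.sum_apply]
      refine SuppIn.sum _ _ fun i _ => ?_
      rw [map_smul]
      exact SuppIn.mul (x i).2.2 (hc i j) A.mul_mem_P_zc
    let g : (Fin (n + 1) → W ρ) →ₗ[grp κ N] (Fin n → W (ρ + c)) :=
      { toFun := fun x j => ⟨_, hmem x j⟩
        map_add' := fun x y => by
          funext j
          apply Subtype.ext
          show f (fun i => (x i : MonoidAlgebra κ G) + y i) j =
            f (fun i => (x i : MonoidAlgebra κ G)) j + f (fun i => (y i : MonoidAlgebra κ G)) j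
          rw [← Pi.add_apply, ← map_add]; rfl
        map_smul' := fun d x => by
          funext j
          apply Subtype.ext
          show f ((d : MonoidAlgebra κ G) • fun i => (x i : MonoidAlgebra κ G)) j =
            (d : MonoidAlgebra κ G) * f (fun i => (x i : MonoidAlgebra κ G)) j
          rw [map_smul]; rfl }
    have hg : Function.Injective g := fun x y h => by
      have : f (fun i => (x i : MonoidAlgebra κ G)) = f (fun i => (y i : MonoidAlgebra κ G)) :=
        funext fun j => congrArg Subtype.val (congrFun h j)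
      exact funext fun i => Subtype.ext (congrFun (hf this) i)
    have hall := LinearMap.finrank_le_finrank_of_injective
      (f := (φ.compLeft (Fin n)) ∘ₗ g ∘ₗ ((Fintype.linearCombination (grp κ N) v).compLeft
        (Fin (n + 1)))) ((hφ.comp_left).comp (hg.comp hψ.comp_left))
    simpa [Module.finrank_pi_fintype] using hall
  · have : T ρ ⊆ ((Finset.univ : Finset (G ⧸ B)) ×ˢ
        Fintype.piFinset fun _ : ι => Finset.Icc (-(ρ : ℤ)) ρ).image
          fun p => (toLex (p.1, toLex p.2) : (G ⧸ B) ×ₗ Lex (ι → ℤ)) := by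
      intro t ht
      obtain ⟨f, hf, γ, hγ, rfl, -⟩ := (Set.Finite.mem_toFinset _).1 ht
      refine Finset.mem_image.2 ⟨((γ : G ⧸ B), A.τ γ), ?_, rfl⟩
      refine Finset.mem_product.2 ⟨Finset.mem_univ _, Fintype.mem_piFinset.2 fun i => ?_⟩
      have h1 := hf.2 γ hγ i
      simp only [zc] at h1
      simp only [Finset.mem_Icc]
      omega
    refine (Finset.card_le_card this).trans (Finset.card_image_le.trans ?_)
    rw [Finset.card_product, Finset.card_univ, Fintype.card_piFinset]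
    simp only [Int.card_Icc, Finset.prod_const, Finset.card_univ]
    have : ((ρ : ℤ) + 1 - -(ρ : ℤ)).toNat = 2 * ρ + 1 := by omega
    rw [this]

end Aff

end Pool.Agent.Work.MP_819de9_al
end

-- merged part: Pool.Agent.Work.MP_819de9_al.Domain
section
/-! Group algebras of torsion-free virtually polycyclic groups over fields are domains. -/

set_option linter.unusedSectionVars false

namespace Pool.Agent.Work.MP_819de9_al

open MonoidAlgebra

variable {G : Type} [Group G]

/-- index set of the wreath embedding -/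
def Idx (B : Subgroup G) (n : ℕ) : Type := (G ⧸ B) × Fin n

instance (B : Subgroup G) (n : ℕ) : MulAction G (Idx B n) where
  smul g p := (g • p.1, p.2)
  one_smul p := Prod.ext (one_smul G p.1) rfl
  mul_smul a b p := Prod.ext (mul_smul a b p.1) rfl

theorem out_conj_mem (B : Subgroup G) (γ : G) (ω : G ⧸ B) :
    ω.out⁻¹ * γ * (γ⁻¹ • ω).out ∈ B := by
  rw [mul_assoc]
  refine QuotientGroup.eq.1 ?_
  rw [QuotientGroup.out_eq', ← smul_eq_mul, ← MulAction.Quotient.smul_mk, QuotientGroup.out_eq',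
    smul_inv_smul]

theorem smul_quot_of_mem {B : Subgroup G} [hB : B.Normal] {b : G} (hb : b ∈ B) (ω : G ⧸ B) :
    b • ω = ω := by
  obtain ⟨x, rfl⟩ := QuotientGroup.mk_surjective ω
  rw [MulAction.Quotient.smul_mk, smul_eq_mul]
  exact QuotientGroup.eq.2 (by simpa [mul_assoc] using hB.conj_mem _ (B.inv_mem hb) x⁻¹)

theorem exists_aff (N B : Subgroup G) [hN : N.Normal] [B.Normal] (hle : N ≤ B) {n : ℕ}
    (ψ : G → Fin n → ℤ) (hadd : ∀ a ∈ B, ∀ b ∈ B, ψ (a * b) = ψ a + ψ b)
    (hker : ∀ b ∈ B, ψ b = 0 ↔ b ∈ N) : Nonempty (Aff G N B (Idx B n)) := by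
  refine ⟨⟨fun γ p => ψ (p.1.out⁻¹ * γ * (γ⁻¹ • p.1).out) p.2, fun a b p => ?_,
    fun b hb p => Prod.ext (smul_quot_of_mem hb p.1) rfl, fun b hb => ?_, hle⟩⟩
  · have := congrFun (hadd _ (out_conj_mem B a p.1) _ (out_conj_mem B b (a⁻¹ • p.1))) p.2
    rw [Pi.add_apply] at this
    show _ = _ + ψ ((a⁻¹ • p.1).out⁻¹ * b * (b⁻¹ • a⁻¹ • p.1).out) p.2
    rw [← this, mul_inv_rev, mul_smul]
    simp only [mul_assoc, mul_inv_cancel_left]
  · constructor
    · intro h
      have h1 : ψ (((1 : G) : G ⧸ B).out⁻¹ * b * (b⁻¹ • ((1 : G) : G ⧸ B)).out) = 0 :=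
        funext fun i => congrFun h (((1 : G) : G ⧸ B), i)
      have h2 := (hker _ (out_conj_mem B b _)).1 h1
      rw [smul_quot_of_mem (B.inv_mem hb)] at h2
      simpa [mul_assoc] using hN.conj_mem _ h2 ((1 : G) : G ⧸ B).out
    · intro h
      funext p
      have h2 : p.1.out⁻¹ * b * (b⁻¹ • p.1).out ∈ N := by
        rw [smul_quot_of_mem (B.inv_mem hb)]
        simpa using hN.conj_mem _ h p.1.out⁻¹
      exact congrFun ((hker _ (hle h2)).2 h2) p.2

/-- no zero divisors and the strong rank condition -/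
def Good (κ : Type) [Field κ] (G : Type) [Group G] : Prop :=
  NoZeroDivisors (MonoidAlgebra κ G) ∧ StrongRankCondition (MonoidAlgebra κ G)

variable {κ : Type} [Field κ]

theorem Good.of_equiv {G' : Type} [Group G'] (h : Good κ G) (e : G ≃* G') : Good κ G' := by
  obtain ⟨h1, h2⟩ := h
  exact ⟨(mapDomainRingEquiv κ e).symm.injective.noZeroDivisors _ (map_zero _) (map_mul _),
    src_of_ringEquiv (mapDomainRingEquiv κ e)⟩

theorem Good.grp {E : Subgroup G} (h : Good κ E) :
    NoZeroDivisors (grp κ E) ∧ StrongRankCondition (grp κ E) := by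
  obtain ⟨h1, h2⟩ := h
  exact ⟨(grpEquiv κ E).symm.injective.noZeroDivisors _ (map_zero _) (map_mul _),
    src_of_ringEquiv (grpEquiv κ E)⟩

theorem good_of_psi (N B : Subgroup G) [N.Normal] [B.Normal] (hle : N ≤ B) (hB : B.index ≠ 0)
    {n : ℕ} (ψ : G → Fin n → ℤ) (hadd : ∀ a ∈ B, ∀ b ∈ B, ψ (a * b) = ψ a + ψ b)
    (hker : ∀ b ∈ B, ψ b = 0 ↔ b ∈ N)
    (hE : ∀ E : Subgroup G, N ≤ E → N.relIndex E ≠ 0 → Good κ E) : Good κ G := by
  classical
  obtain ⟨A⟩ := exists_aff N B hle ψ hadd hker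
  have : Finite (G ⧸ B) := Nat.finite_of_card_ne_zero hB
  have : Finite (Idx B n) := inferInstanceAs (Finite ((G ⧸ B) × Fin n))
  let _ : Fintype (Idx B n) := Fintype.ofFinite _
  let _ : LinearOrder (Idx B n) := linearOrderOfSTO WellOrderingRel
  let _ : LinearOrder (G ⧸ B) := linearOrderOfSTO WellOrderingRel
  obtain ⟨h1, h2⟩ := (hE N le_rfl (by simp)).grp
  exact ⟨A.noZeroDivisors fun E h h' => (hE E h h').grp.1, A.src⟩

theorem exists_psi (B : Subgroup G) [hBn : B.Normal] (hB : B.FG) :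
    ∃ (T : Subgroup G) (n : ℕ) (ψ : G → Fin n → ℤ), T.Normal ∧ ⁅B, B⁆ ≤ T ∧ T ≤ B ∧
      (⁅B, B⁆ : Subgroup G).relIndex T ≠ 0 ∧ (∀ a ∈ B, ∀ b ∈ B, ψ (a * b) = ψ a + ψ b) ∧
      ∀ b ∈ B, ψ b = 0 ↔ b ∈ T := by
  classical
  have : Group.FG B := (Group.fg_iff_subgroup_fg B).2 hB
  have : Group.FG (Abelianization B) :=
    Group.fg_of_surjective (f := Abelianization.of) fun x => Quot.exists_rep x
  obtain ⟨n, ι, _, p, hp, e, ⟨f⟩⟩ :=
    AddCommGroup.equiv_free_prod_directSum_zmod (Additive (Abelianization B))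
  have : ∀ i, NeZero (p i ^ e i) := fun i => ⟨pow_ne_zero _ (hp i).ne_zero⟩
  have hD : Finite (DirectSum ι fun i => ZMod (p i ^ e i)) :=
    Finite.of_equiv _ DFinsupp.equivFunOnFintype.symm
  let F : B → (Fin n →₀ ℤ) × DirectSum ι fun i => ZMod (p i ^ e i) :=
    fun b => f (Additive.ofMul (Abelianization.of b))
  have hF : ∀ a b, F (a * b) = F a + F b := fun a b => by simp [F]
  have hFpow : ∀ a (m : ℕ), F (a ^ m) = m • F a := fun a m => by simp [F]
  have hF0 : ∀ a : B, F a = 0 ↔ (a : G) ∈ (⁅B, B⁆ : Subgroup G) := fun a => by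
    rw [← Subgroup.map_subtype_commutator, ← Abelianization.ker_of, Subgroup.mem_map]
    simp only [F, EmbeddingLike.map_eq_zero_iff, ofMul_eq_zero]
    constructor
    · intro h; exact ⟨a, h, rfl⟩
    · rintro ⟨a', h, h'⟩
      rwa [show a' = a from Subtype.ext h'] at h
  let ψ : G → Fin n → ℤ := fun g => if h : g ∈ B then (F ⟨g, h⟩).1 else 0
  have hψ : ∀ b : B, ψ b = (F b).1 := fun b => by simp [ψ]
  have hadd : ∀ a ∈ B, ∀ b ∈ B, ψ (a * b) = ψ a + ψ b := fun a ha b hb => by
    have := hψ (⟨a, ha⟩ * ⟨b, hb⟩)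
    rw [hF] at this
    rw [show a * b = ((⟨a, ha⟩ * ⟨b, hb⟩ : B) : G) from rfl, this, hψ ⟨a, ha⟩, hψ ⟨b, hb⟩]
    simp
  have hchar : ∀ b ∈ B, ψ b = 0 ↔ ∃ m : ℕ, m ≠ 0 ∧ b ^ m ∈ (⁅B, B⁆ : Subgroup G) := fun b hb => by
    rw [hψ ⟨b, hb⟩]
    constructor
    · intro h
      refine ⟨Nat.card (DirectSum ι fun i => ZMod (p i ^ e i)), Nat.card_pos.ne', ?_⟩
      refine (hF0 (⟨b, hb⟩ ^ _)).1 ?_
      rw [hFpow]
      refine Prod.ext ?_ card_nsmul_eq_zero'
      have : (F ⟨b, hb⟩).1 = 0 := DFunLike.coe_injective h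
      simp [this]
    · rintro ⟨m, hm, h⟩
      have h1 := (hF0 (⟨b, hb⟩ ^ m)).2 h
      rw [hFpow] at h1
      have h2 : m • (F ⟨b, hb⟩).1 = 0 := congrArg Prod.fst h1
      rw [(smul_eq_zero.1 h2).resolve_left hm]; rfl
  have hone : ψ 1 = 0 := (hchar 1 B.one_mem).2 ⟨1, one_ne_zero, by simp⟩
  let T : Subgroup G :=
    { carrier := {g | g ∈ B ∧ ψ g = 0}
      mul_mem' := fun {a b} ha hb => ⟨B.mul_mem ha.1 hb.1, by
        rw [hadd a ha.1 b hb.1, ha.2, hb.2, add_zero]⟩
      one_mem' := ⟨B.one_mem, hone⟩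
      inv_mem' := fun {a} ha => ⟨B.inv_mem ha.1, by
        have := hadd a ha.1 _ (B.inv_mem ha.1)
        rw [mul_inv_cancel, hone, ha.2, zero_add] at this
        exact this.symm⟩ }
  have hTB : T ≤ B := fun g hg => hg.1
  have hCB : (⁅B, B⁆ : Subgroup G) ≤ B := Subgroup.commutator_le_left B B
  refine ⟨T, n, ψ, ⟨fun g hg x => ?_⟩, fun g hg => ⟨hCB hg, (hchar g (hCB hg)).2
    ⟨1, one_ne_zero, by simpa using hg⟩⟩, hTB, ?_, hadd, fun b hb => ⟨fun h => ⟨hb, h⟩, fun h => h.2⟩⟩
  · have h1 := hBn.conj_mem g hg.1 x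
    obtain ⟨m, hm, h⟩ := (hchar g hg.1).1 hg.2
    refine ⟨h1, (hchar _ h1).2 ⟨m, hm, ?_⟩⟩
    rw [conj_pow]
    exact (inferInstance : (⁅B, B⁆ : Subgroup G).Normal).conj_mem _ h x
  · let φ : T →* Multiplicative (DirectSum ι fun i => ZMod (p i ^ e i)) :=
      MonoidHom.mk' (fun t => Multiplicative.ofAdd (F ⟨t, hTB t.2⟩).2) fun a b => by
        rw [← ofAdd_add, ← Prod.snd_add, ← hF]; rfl
    have hk : (⁅B, B⁆ : Subgroup G).subgroupOf T = φ.ker := by
      ext t
      rw [Subgroup.mem_subgroupOf, MonoidHom.mem_ker, ← hF0 ⟨t, hTB t.2⟩]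
      constructor
      · intro h
        show Multiplicative.ofAdd (F ⟨t, hTB t.2⟩).2 = 1
        rw [h]; rfl
      · intro h
        refine Prod.ext ?_ h
        have := t.2.2
        rw [hψ ⟨t, hTB t.2⟩] at this
        exact DFunLike.coe_injective this
    rw [Subgroup.relIndex, hk]
    exact Subgroup.FiniteIndex.index_ne_zero

/-- all finite extensions of `N` inside `G` are good -/
def GoodAbove (κ : Type) [Field κ] (N : Subgroup G) : Prop :=
  ∀ E : Subgroup G, N ≤ E → N.relIndex E ≠ 0 → Good κ E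

theorem goodAbove_bot (htf : ∀ g : G, g ≠ 1 → ¬ IsOfFinOrder g) :
    GoodAbove κ (⊥ : Subgroup G) := by
  intro E _ hE
  rw [Subgroup.relIndex_bot_left] at hE
  have : Finite E := Nat.finite_of_card_ne_zero hE
  have : Subsingleton E := ⟨fun a b => by
    have h : ∀ x : E, x = 1 := fun x => by
      by_contra hx
      exact htf x (fun h => hx (Subtype.ext h))
        (Submonoid.isOfFinOrder_coe.2 (isOfFinOrder_of_finite x))
    rw [h a, h b]⟩
  exact ⟨(uniqueRingEquiv (R := κ) E).injective.noZeroDivisors _ (map_zero _) (map_mul _),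
    src_of_ringEquiv (uniqueRingEquiv (R := κ) E).symm⟩

theorem goodAbove_step (B : Subgroup G) [B.Normal] (hB : B.FG)
    (h : GoodAbove κ (⁅B, B⁆ : Subgroup G)) : GoodAbove κ B := by
  obtain ⟨T, n, ψ, hTn, hCT, hTB, hfin, hadd, hker⟩ := exists_psi B hB
  intro E hBE hE
  refine good_of_psi (T.subgroupOf E) (B.subgroupOf E) (fun x hx => hTB hx) hE
    (fun x => ψ x) (fun a ha b hb => hadd a ha b hb) (fun b hb => hker b hb) fun E' h1 h2 => ?_
  have hT : T ≤ E'.map E.subtype := fun t ht =>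
    ⟨⟨t, hBE (hTB ht)⟩, h1 ht, rfl⟩
  refine (h (E'.map E.subtype) (hCT.trans hT) ?_).of_equiv
    (E'.equivMapOfInjective E.subtype Subtype.val_injective).symm
  rw [← Subgroup.relIndex_mul_relIndex _ T _ hCT hT]
  refine mul_ne_zero hfin ?_
  rwa [Subgroup.subgroupOf, Subgroup.relIndex_comap] at h2

/-- iterated commutator subgroups of a subgroup -/
def der (H : Subgroup G) : ℕ → Subgroup G
  | 0 => H
  | n + 1 => ⁅der H n, der H n⁆

instance der_normal (H : Subgroup G) [hH : H.Normal] : ∀ n, (der H n).Normal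
  | 0 => hH
  | n + 1 => by
    have := der_normal H n
    exact inferInstanceAs (⁅der H n, der H n⁆ : Subgroup G).Normal

theorem der_eq (H : Subgroup G) (n : ℕ) : der H n = (derivedSeries H n).map H.subtype := by
  induction n with
  | zero => simp [der, ← MonoidHom.range_eq_map]
  | succ n ih => rw [der, ih, derivedSeries_succ, Subgroup.map_commutator]

theorem exists_der_eq_bot (H : Subgroup G) (h : Group.IsSolvable H) : ∃ n, der H n = ⊥ := by
  obtain ⟨n, hn⟩ := h.solvable
  exact ⟨n, by rw [der_eq, hn, Subgroup.map_bot]⟩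

theorem exists_normal_solvable (hvs : ∃ H : Subgroup G, H.index ≠ 0 ∧ Group.IsSolvable H) :
    ∃ H : Subgroup G, H.Normal ∧ H.index ≠ 0 ∧ Group.IsSolvable H := by
  obtain ⟨H, h1, h2⟩ := hvs
  have : H.FiniteIndex := ⟨h1⟩
  exact ⟨H.normalCore, inferInstance, Subgroup.FiniteIndex.index_ne_zero,
    Group.isSolvable_of_isSolvable_injective (Subgroup.inclusion_injective H.normalCore_le)⟩

theorem noZeroDivisors_of_vp (κ : Type) [Field κ] (htf : ∀ g : G, g ≠ 1 → ¬ IsOfFinOrder g)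
    (hvs : ∃ H : Subgroup G, H.index ≠ 0 ∧ Group.IsSolvable H) (hfg : ∀ H : Subgroup G, H.FG) :
    NoZeroDivisors (MonoidAlgebra κ G) := by
  obtain ⟨H, hn, h1, h2⟩ := exists_normal_solvable hvs
  obtain ⟨d, hd⟩ := exists_der_eq_bot H h2
  have key : ∀ j, j ≤ d → GoodAbove κ (der H j) := fun j hj =>
    Nat.decreasingInduction (motive := fun j _ => GoodAbove κ (der H j))
      (fun j _ ih => goodAbove_step _ (hfg _) ih) (by rw [hd]; exact goodAbove_bot htf) hj
  exact ((key 0 (Nat.zero_le _) ⊤ le_top (by simpa [der] using h1)).of_equiv Subgroup.topEquiv).1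

end Pool.Agent.Work.MP_819de9_al
end

-- merged part: Pool.Agent.Work.MP_819de9_al.Groups
section
/-! Group-theoretic case analysis. -/

set_option linter.unusedSectionVars false

namespace Pool.Agent.Work.MP_819de9_al

variable {G : Type} [Group G]

theorem wf_of_fg (hfg : ∀ H : Subgroup G, H.FG) : WellFoundedGT (Subgroup G) := by
  classical
  rw [wellFoundedGT_iff_monotone_chain_condition]
  intro a
  obtain ⟨S, hS⟩ := hfg (⨆ i, a i)
  have h1 : ∀ s : G, s ∈ S → ∃ i, s ∈ a i := fun s hs =>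
    (Subgroup.mem_iSup_of_directed a.monotone.directed_le).1 (hS ▸ Subgroup.subset_closure hs)
  choose! n hn using h1
  refine ⟨S.sup n, fun m hm => le_antisymm (a.monotone hm) ?_⟩
  refine (le_iSup a m).trans (hS.ge.trans ((Subgroup.closure_le _).2 fun s hs => ?_))
  exact a.monotone (Finset.le_sup hs) (hn s hs)

theorem zpow_eq_one_tf (htf : ∀ g : G, g ≠ 1 → ¬ IsOfFinOrder g) {g : G} (hg : g ≠ 1) {i : ℤ}
    (h : g ^ i = 1) : i = 0 := by
  by_contra hi
  exact htf g hg (isOfFinOrder_iff_zpow_eq_one.2 ⟨i, hi, h⟩)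

theorem zpow_inj_tf (htf : ∀ g : G, g ≠ 1 → ¬ IsOfFinOrder g) {g : G} (hg : g ≠ 1) {i j : ℤ}
    (h : g ^ i = g ^ j) : i = j := by
  have := zpow_eq_one_tf htf hg (i := i - j) (by rw [zpow_sub, h, mul_inv_cancel])
  omega

/-- `g` and its conjugate by `y` generate a free abelian group of rank two -/
def Pair (g y : G) : Prop :=
  Commute g (y⁻¹ * g * y) ∧ ∀ i j : ℤ, g ^ i = (y⁻¹ * g * y) ^ j → i = 0 ∧ j = 0

theorem Pair.hi1 {g y : G} (h : Pair g y) (j : ℕ) (hj : j ≠ 0) :
    (y⁻¹ * g * y) ^ j ∉ Subgroup.zpowers g := fun ⟨i, hi⟩ =>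
  hj (by exact_mod_cast (h.2 i j (by rw [zpow_natCast]; exact hi)).2)

theorem Pair.hi2 {g y : G} (h : Pair g y) (j : ℕ) (hj : j ≠ 0) :
    g ^ j ∉ Subgroup.zpowers (y⁻¹ * g * y) := fun ⟨i, hi⟩ =>
  hj (by exact_mod_cast (h.2 j i (by rw [zpow_natCast]; exact hi.symm)).1)

theorem conj_zpow' (y g : G) (i : ℤ) : (y⁻¹ * g * y) ^ i = y⁻¹ * g ^ i * y := by
  simpa using conj_zpow (i := i) (a := y⁻¹) (b := g)

theorem pair_of_commute (htf : ∀ g : G, g ≠ 1 → ¬ IsOfFinOrder g) {g y : G} (hg : g ≠ 1)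
    (hc : Commute g (y⁻¹ * g * y)) (h : ∀ i j : ℤ, g ^ i = (y⁻¹ * g * y) ^ j → j = 0) :
    Pair g y := ⟨hc, fun i j hij => by
  have hj := h i j hij
  rw [hj, zpow_zero] at hij
  exact ⟨zpow_eq_one_tf htf hg hij, hj⟩⟩

theorem lemmaA (htf : ∀ g : G, g ≠ 1 → ¬ IsOfFinOrder g) (hfg : ∀ H : Subgroup G, H.FG)
    (A : Subgroup G) [hA : A.Normal] (hcomm : ∀ a ∈ A, ∀ b ∈ A, Commute a b) {a y : G}
    (ha : a ∈ A) (hay : y⁻¹ * a * y ≠ a) :
    ∃ e ∈ A, Pair e y ∨ (e ≠ 1 ∧ y⁻¹ * e * y = e⁻¹) := by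
  have := wf_of_fg hfg
  obtain ⟨_, ⟨e, he, hae, rfl⟩, hmax⟩ := (wellFounded_gt (α := Subgroup G)).has_min
    {Z | ∃ e ∈ A, a ∈ Subgroup.zpowers e ∧ Z = Subgroup.zpowers e}
    ⟨_, a, ha, Subgroup.mem_zpowers a, rfl⟩
  have hmax' : ∀ f ∈ A, e ∈ Subgroup.zpowers f → f ∈ Subgroup.zpowers e := fun f hf hef => by
    have h1 : Subgroup.zpowers e ≤ Subgroup.zpowers f := (Subgroup.zpowers_le (H := _)).2 hef
    have h2 := hmax _ ⟨f, hf, h1 hae, rfl⟩
    rw [eq_of_le_of_not_lt h1 h2]
    exact Subgroup.mem_zpowers f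
  have hey : y⁻¹ * e * y ≠ e := fun h => hay (by
    obtain ⟨i, rfl⟩ := hae
    rw [← conj_zpow', h])
  have he1 : e ≠ 1 := fun h => hey (by simp [h])
  have he' : y⁻¹ * e * y ∈ A := by simpa using hA.conj_mem e he y⁻¹
  have hc := hcomm e he _ he'
  refine ⟨e, he, ?_⟩
  by_cases hp : ∀ i j : ℤ, e ^ i = (y⁻¹ * e * y) ^ j → j = 0
  · exact Or.inl (pair_of_commute htf he1 hc hp)
  refine Or.inr ⟨he1, ?_⟩
  push Not at hp
  obtain ⟨i, j, hij, hj⟩ := hp
  set e' := y⁻¹ * e * y with he'def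
  obtain ⟨d, i', j', hd, hg, rfl, rfl⟩ := Int.exists_gcd_one' (m := i) (n := j)
    (Int.gcd_pos_of_ne_zero_right _ hj)
  have h1 : e ^ i' = e' ^ j' := by
    by_contra hne
    have h2 : e ^ i' * (e' ^ j')⁻¹ ≠ 1 := fun h => hne (mul_inv_eq_one.1 h)
    have h3 := zpow_eq_one_tf htf h2 (i := d) (by
      rw [((hc.zpow_zpow _ _).inv_right).mul_zpow, inv_zpow, ← zpow_mul, ← zpow_mul, hij,
        mul_inv_cancel])
    omega
  have hb := Int.gcd_eq_gcd_ab i' j'
  rw [hg] at hb
  set u := Int.gcdB i' j'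
  set v := Int.gcdA i' j'
  have hf1 : (e ^ u * e' ^ v) ^ j' = e := by
    rw [(hc.zpow_zpow _ _).mul_zpow, ← zpow_mul, ← zpow_mul, mul_comm v, zpow_mul e', ← h1,
      ← zpow_mul, ← zpow_add, show u * j' + i' * v = 1 by push_cast at hb; linarith, zpow_one]
  have hf2 : (e ^ u * e' ^ v) ^ i' = e' := by
    rw [(hc.zpow_zpow _ _).mul_zpow, ← zpow_mul, ← zpow_mul, mul_comm u, zpow_mul e, h1,
      ← zpow_mul, ← zpow_add, show j' * u + v * i' = 1 by push_cast at hb; linarith, zpow_one]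
  obtain ⟨m, hm⟩ := hmax' _ (A.mul_mem (A.zpow_mem he u) (A.zpow_mem he' v)) ⟨j', hf1⟩
  have hm' : e ^ m = e ^ u * e' ^ v := hm
  have hr : e' = e ^ (m * i') := by rw [zpow_mul, hm', hf2]
  have he'' : y * e * y⁻¹ ∈ A := hA.conj_mem e he y
  have h4 : (y * e * y⁻¹) ^ (m * i') = e := by
    rw [conj_zpow, ← hr, he'def]; simp [mul_assoc]
  obtain ⟨m', hm2⟩ := hmax' _ he'' ⟨_, h4⟩
  have hm2' : e ^ m' = y * e * y⁻¹ := hm2
  rw [← hm2', ← zpow_mul] at h4
  have h5 : m' * (m * i') = 1 := zpow_inj_tf htf he1 (by rw [h4, zpow_one])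
  rcases Int.eq_one_or_neg_one_of_mul_eq_one' h5 with ⟨-, h6⟩ | ⟨-, h6⟩
  · exact (hey (by rw [hr, h6, zpow_one])).elim
  · rw [hr, h6, zpow_neg_one]

theorem pair_of_inv (htf : ∀ g : G, g ≠ 1 → ¬ IsOfFinOrder g) {e y : G} (he : e ≠ 1)
    (h : y⁻¹ * e * y = e⁻¹) : Pair (e * (y * y)) y := by
  have h1 : e * y = y * e⁻¹ := by rw [← h]; simp [mul_assoc]
  have h1' : e⁻¹ * y = y * e := by
    rw [inv_mul_eq_iff_eq_mul, ← mul_assoc, h1, inv_mul_cancel_right]
  have h2 : Commute e (y * y) := by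
    show e * (y * y) = y * y * e
    rw [← mul_assoc, h1, mul_assoc, h1', mul_assoc]
  have h3 : y⁻¹ * (e * (y * y)) * y = e⁻¹ * (y * y) := by rw [← h]; simp [mul_assoc]
  have hy : y ≠ 1 := fun hy => by
    have := zpow_inj_tf htf he (i := 1) (j := -1) (by simpa [hy] using h)
    omega
  refine ⟨?_, fun i j hij => ?_⟩
  · rw [h3]
    exact ((Commute.refl e).inv_right.mul_right h2).mul_left
      (h2.symm.inv_right.mul_right (Commute.refl _))
  · rw [h3, h2.mul_zpow, h2.inv_left.mul_zpow, inv_zpow', ← pow_two, ← zpow_natCast,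
      ← zpow_mul, ← zpow_mul] at hij
    have h4 : e ^ (i + j) = y ^ (2 * j - 2 * i) := by
      rw [add_comm, zpow_add, zpow_sub, eq_mul_inv_iff_mul_eq, mul_assoc]
      push_cast at hij
      rw [hij, ← mul_assoc, ← zpow_add]; simp
    have h5 : e ^ (-(i + j)) = e ^ (i + j) := by
      rw [← inv_zpow', ← h, conj_zpow', h4, mul_assoc, ← (Commute.refl y).zpow_right _ |>.eq]
      simp
    have h6 := zpow_inj_tf htf he h5
    have h7 : i + j = 0 := by omega
    rw [h7, zpow_zero] at h4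
    have h8 := zpow_eq_one_tf htf hy h4.symm
    omega

theorem central_zpow (htf : ∀ g : G, g ≠ 1 → ¬ IsOfFinOrder g) {g n z : G} (hz : z ≠ 1)
    (hzc : z ∈ Subgroup.center G) (h : n⁻¹ * g * n = g * z) {m : ℤ}
    (hm : g ^ m ∈ Subgroup.center G) : m = 0 := by
  have h1 := conj_zpow' n g m
  have hc : Commute g z := Subgroup.mem_center_iff.1 hzc g
  rw [h, hc.mul_zpow, mul_assoc, ← Subgroup.mem_center_iff.1 hm n, inv_mul_cancel_left] at h1
  exact zpow_eq_one_tf htf hz (by simpa using h1)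

theorem pair_of_central (htf : ∀ g : G, g ≠ 1 → ¬ IsOfFinOrder g) {g y z : G} (hz : z ≠ 1)
    (hzc : z ∈ Subgroup.center G) (h : y⁻¹ * g * y = g * z) : Pair g y := by
  have hc : Commute g z := Subgroup.mem_center_iff.1 hzc g
  have hg : g ≠ 1 := fun hg => hz (by simpa [hg] using h.symm)
  refine pair_of_commute htf hg (by rw [h]; exact (Commute.refl g).mul_right hc) fun i j hij => ?_
  rw [h, hc.mul_zpow] at hij
  have h1 : g ^ (i - j) = z ^ j := by
    rw [sub_eq_neg_add, zpow_add, hij, ← mul_assoc, ← zpow_add]; simp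
  have h2 := central_zpow htf hz hzc h (m := i - j) (h1 ▸ Subgroup.zpow_mem _ hzc j)
  rw [h2, zpow_zero] at h1
  exact zpow_eq_one_tf htf hz h1.symm

theorem comm_of_center_index (htf : ∀ g : G, g ≠ 1 → ¬ IsOfFinOrder g) (M : Subgroup G)
    (hM : M.index ≠ 0) (hc : M ≤ Subgroup.center G) (a b : G) : a * b = b * a := by
  have : M.FiniteIndex := ⟨hM⟩
  have : (Subgroup.center G).FiniteIndex := Subgroup.finiteIndex_of_le hc
  have hinj : Function.Injective (MonoidHom.transferCenterPow G) := by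
    rw [injective_iff_map_eq_one]
    intro g hg
    by_contra h
    have h1 := congrArg Subtype.val hg
    rw [MonoidHom.transferCenterPow_apply] at h1
    exact htf g h (isOfFinOrder_iff_pow_eq_one.2
      ⟨_, Nat.pos_of_ne_zero Subgroup.FiniteIndex.index_ne_zero, h1⟩)
  apply hinj
  rw [map_mul, map_mul]
  exact Subtype.ext (Subgroup.mem_center_iff.1 (MonoidHom.transferCenterPow G b).2 _)

theorem der_le (H : Subgroup G) [H.Normal] (n : ℕ) : der H n ≤ H := by
  induction n with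
  | zero => exact le_rfl
  | succ n ih => exact (Subgroup.commutator_le_left _ _).trans ih

theorem trichotomy (M : Subgroup G) [M.Normal] (hM : Group.IsSolvable M) :
    M ≤ Subgroup.center G ∨
    (∃ A : Subgroup G, A.Normal ∧ A ≤ M ∧ (∀ a ∈ A, ∀ b ∈ A, Commute a b) ∧
      ¬ A ≤ Subgroup.center G) ∨
    (∃ A : Subgroup G, A.Normal ∧ A ≤ M ∧ (∃ a ∈ A, ∃ b ∈ A, ¬ Commute a b) ∧
      ∀ a ∈ A, ∀ b ∈ A, a⁻¹ * b⁻¹ * a * b ∈ Subgroup.center G) := by
  obtain ⟨d, hd⟩ := exists_der_eq_bot M hM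
  by_contra hn
  rw [not_or, not_or] at hn
  obtain ⟨h1, h2, h3⟩ := hn
  have key : ∀ j, j ≤ d → der M j ≤ Subgroup.center G := fun j hj =>
    Nat.decreasingInduction (motive := fun j _ => der M j ≤ Subgroup.center G)
      (fun j _ ih => by
        by_contra h4
        by_cases h5 : ∀ a ∈ der M j, ∀ b ∈ der M j, Commute a b
        · exact h2 ⟨_, inferInstance, der_le M j, h5, h4⟩
        · push Not at h5
          refine h3 ⟨_, inferInstance, der_le M j, h5, fun a ha b hb => ih ?_⟩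
          have := Subgroup.commutator_mem_commutator (inv_mem ha) (inv_mem hb)
          simpa [commutatorElement_def, der] using this)
      (by rw [hd]; exact bot_le) hj
  exact h1 (key 0 (Nat.zero_le _))

theorem exists_not_central {A : Subgroup G} (h : ¬ A ≤ Subgroup.center G) :
    ∃ a ∈ A, ∃ y : G, y⁻¹ * a * y ≠ a := by
  by_contra hn
  push Not at hn
  exact h fun a ha => Subgroup.mem_center_iff.2 fun y => by
    conv_lhs => rw [← hn a ha y]
    simp [mul_assoc]

theorem exists_pair (htf : ∀ g : G, g ≠ 1 → ¬ IsOfFinOrder g)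
    (hvs : ∃ H : Subgroup G, H.index ≠ 0 ∧ Group.IsSolvable H) (hfg : ∀ H : Subgroup G, H.FG)
    (hna : ¬ ∀ a b : G, a * b = b * a) : ∃ g y : G, Pair g y := by
  obtain ⟨H, hn, h1, h2⟩ := exists_normal_solvable hvs
  rcases trichotomy H h2 with h | ⟨A, hA, -, hc, h⟩ | ⟨A, hA, -, ⟨a, ha, b, hb, hab⟩, h⟩
  · exact (hna (comm_of_center_index htf H h1 h)).elim
  · obtain ⟨a, ha, y, hy⟩ := exists_not_central h
    obtain ⟨e, -, h | ⟨h3, h4⟩⟩ := lemmaA htf hfg A hc ha hy
    · exact ⟨e, y, h⟩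
    · exact ⟨_, y, pair_of_inv htf h3 h4⟩
  · refine ⟨a, b, pair_of_central htf (fun h0 => hab ?_) (h a ha b hb) (by simp [mul_assoc])⟩
    rw [mul_assoc, mul_assoc, inv_mul_eq_one, eq_inv_mul_iff_mul_eq] at h0
    exact h0.symm

theorem exists_graded (htf : ∀ g : G, g ≠ 1 → ¬ IsOfFinOrder g)
    (hvs : ∃ H : Subgroup G, H.index ≠ 0 ∧ Group.IsSolvable H) (hfg : ∀ H : Subgroup G, H.FG)
    (hna : ¬ ∀ a b : G, a * b = b * a) (φ : G →* Multiplicative ℤ) (hφ : ∃ y, φ y ≠ 1) :
    ∃ g y : G, φ g = 1 ∧ φ y ≠ 1 ∧ (Pair g y ∨ (g ≠ 1 ∧ y⁻¹ * g * y = g⁻¹) ∨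
      (¬ Commute g (y⁻¹ * g * y) ∧
        g⁻¹ * (y⁻¹ * g * y)⁻¹ * g * (y⁻¹ * g * y) ∈ Subgroup.center G)) := by
  obtain ⟨H, hn, h1, h2⟩ := exists_normal_solvable hvs
  obtain ⟨y0, hy0⟩ := hφ
  have caseA : ∀ A : Subgroup G, A.Normal → A ≤ φ.ker → (∀ a ∈ A, ∀ b ∈ A, Commute a b) →
      ¬ A ≤ Subgroup.center G →
      ∃ g y : G, φ g = 1 ∧ φ y ≠ 1 ∧ (Pair g y ∨ (g ≠ 1 ∧ y⁻¹ * g * y = g⁻¹)) := by
    intro A hA hle hc h
    obtain ⟨a, ha, y, hy⟩ := exists_not_central h
    obtain ⟨y', hy1, hy2⟩ : ∃ y', φ y' ≠ 1 ∧ y'⁻¹ * a * y' ≠ a := by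
      by_cases h3 : φ y = 1
      · by_cases h4 : y0⁻¹ * a * y0 = a
        · refine ⟨y0 * y, by simpa [h3] using hy0, ?_⟩
          rw [mul_inv_rev, mul_assoc, mul_assoc, ← mul_assoc a, ← mul_assoc y0⁻¹,
            ← mul_assoc y0⁻¹, h4, ← mul_assoc]
          exact hy
        · exact ⟨y0, hy0, h4⟩
      · exact ⟨y, h3, hy⟩
    obtain ⟨e, he, h⟩ := lemmaA htf hfg A hc ha hy2
    exact ⟨e, y', hle he, hy1, h⟩
  have hs : Group.IsSolvable (H ⊓ φ.ker : Subgroup G) :=
    Group.isSolvable_of_isSolvable_injective (Subgroup.inclusion_injective inf_le_left)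
  rcases trichotomy (H ⊓ φ.ker) hs with h | ⟨A, hA, hle, hc, h⟩ |
    ⟨A, hA, hle, ⟨g, hg, n, hn', hab⟩, h⟩
  · have hN : ∀ a ∈ φ.ker, ∀ b ∈ φ.ker, Commute a b := fun a ha b hb => by
      have : H.FiniteIndex := ⟨h1⟩
      have := comm_of_center_index (G := φ.ker)
        (fun g hg h => htf g (fun h' => hg (Subtype.ext h')) (Submonoid.isOfFinOrder_coe.2 h))
        (H.subgroupOf φ.ker) Subgroup.FiniteIndex.index_ne_zero
        (fun x hx => Subgroup.mem_center_iff.2 fun z => Subtype.ext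
          (Subgroup.mem_center_iff.1 (h ⟨hx, x.2⟩) z)) ⟨a, ha⟩ ⟨b, hb⟩
      exact congrArg Subtype.val this
    by_cases h3 : φ.ker ≤ Subgroup.center G
    · exact (hna (φ.isMulCommutative_of_isCyclic_of_ker_le_center h3).is_comm.comm).elim
    · obtain ⟨g, y, h4, h5, h6⟩ := caseA _ inferInstance le_rfl hN h3
      exact ⟨g, y, h4, h5, h6.imp_right Or.inl⟩
  · obtain ⟨g, y, h4, h5, h6⟩ := caseA _ hA (hle.trans inf_le_right) hc h
    exact ⟨g, y, h4, h5, h6.imp_right Or.inl⟩
  · have hφg : φ g = 1 := (hle hg).2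
    have hφn : φ n = 1 := (hle hn').2
    have hg1 : g ≠ 1 := fun h0 => hab (h0 ▸ Commute.one_left n)
    have hconj : ∀ y : G, y⁻¹ * g * y ∈ A := fun y => by simpa using hA.conj_mem g hg y⁻¹
    by_cases c0 : Commute g (y0⁻¹ * g * y0)
    swap
    · exact ⟨g, y0, hφg, hy0, Or.inr (Or.inr ⟨c0, h g hg _ (hconj y0)⟩)⟩
    by_cases p0 : ∀ i j : ℤ, g ^ i = (y0⁻¹ * g * y0) ^ j → j = 0
    · exact ⟨g, y0, hφg, hy0, Or.inl (pair_of_commute htf hg1 c0 p0)⟩
    push Not at p0
    obtain ⟨i, j, hij, hj⟩ := p0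
    set z := g⁻¹ * n⁻¹ * g * n with hz
    have hzc : z ∈ Subgroup.center G := h g hg n hn'
    have hz1 : z ≠ 1 := fun h0 => hab (by
      rw [hz, mul_assoc, mul_assoc, inv_mul_eq_one, eq_inv_mul_iff_mul_eq] at h0
      exact h0.symm)
    have hn1 : n⁻¹ * g * n = g * z := by simp [hz, mul_assoc]
    have e1 : (n * y0)⁻¹ * g * (n * y0) = y0⁻¹ * g * y0 * z := by
      rw [mul_assoc _ y0 z, Subgroup.mem_center_iff.1 hzc y0, ← mul_assoc _ z, mul_assoc _ g z,
        ← hn1]
      simp [mul_assoc]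
    have hcz : ∀ x : G, Commute x z := fun x => Subgroup.mem_center_iff.1 hzc x
    refine ⟨g, n * y0, hφg, by simpa [hφn] using hy0, Or.inl (pair_of_commute htf hg1
      (by rw [e1]; exact c0.mul_right (hcz g)) fun i' j' hij' => ?_)⟩
    rw [e1, (hcz _).mul_zpow] at hij'
    have e2 : g ^ (i' * j - i * j') = z ^ (j' * j) := by
      rw [sub_eq_neg_add, zpow_add, zpow_mul g i', hij', ((hcz _).zpow_right _).mul_zpow,
        ← zpow_mul, mul_comm j' j, zpow_mul _ j, ← hij, ← zpow_mul, ← mul_assoc, ← zpow_add,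
        ← zpow_mul, mul_comm j' j]
      simp
    have e3 := central_zpow htf hz1 hzc hn1 (e2 ▸ Subgroup.zpow_mem _ hzc _)
    rw [e3, zpow_zero] at e2
    exact (mul_eq_zero.1 (zpow_eq_one_tf htf hz1 e2.symm)).resolve_right hj

end Pool.Agent.Work.MP_819de9_al
end

-- merged part: Pool.Agent.Work.MP_819de9_al.Stably
section
/-! Non-free stably free modules. -/

set_option linter.unusedSectionVars false

namespace Pool.Agent.Work.MP_819de9_al

open MonoidAlgebra

variable {G : Type} [Group G] {k : Type} [CommRing k]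

/-- every module `M` with `M × R ≃ R × R` is free -/
def SFC (R : Type) [Ring R] : Prop :=
  ∀ (M : Type) [AddCommGroup M] [Module R M], Nonempty ((M × R) ≃ₗ[R] (R × R)) → Module.Free R M

theorem conj_rho (g y : G) :
    single y (1 : k) * rho k (y⁻¹ * g * y) * single y⁻¹ 1 = rho k g := by
  rw [← rho_mul_single, mul_assoc, single_mul_single, mul_inv_cancel, mul_one, ← one_def, mul_one]

theorem conj_rho' (g y : G) :
    single y (1 : k) * rho k g * single y⁻¹ 1 = rho k (y * g * y⁻¹) := by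
  rw [← conj_rho (y * g * y⁻¹) y]; simp [mul_assoc]

theorem cyc_of_sfc [Nontrivial k] (hfree : SFC (MonoidAlgebra k G)) {y : G}
    {r s a b : MonoidAlgebra k G} (h1 : r * s = a * r)
    (h2 : single y 1 * s * single y⁻¹ 1 = b * r) : Cyc r (single y 1 + s) := by
  have := rankCondition_monoidAlgebra k G
  exact cyc_of_free hfree (row_unimodular (Yi := single y⁻¹ 1)
    (by simp [single_mul_single, ← one_def]) h1 h2)

theorem comm_of_nonintegral [Nontrivial k] (htf : ∀ g : G, g ≠ 1 → ¬ IsOfFinOrder g)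
    (hvs : ∃ H : Subgroup G, H.index ≠ 0 ∧ Group.IsSolvable H) (hfg : ∀ H : Subgroup G, H.FG)
    {t : k} (ht : ¬ IsIntegral ℤ t) (hfree : SFC (MonoidAlgebra k G)) :
    ∀ a b : G, a * b = b * a := by
  by_contra hna
  obtain ⟨g, y, hp⟩ := exists_pair htf hvs hfg hna
  obtain ⟨K, _, f, O, hO⟩ := exists_valuation ht
  have := noZeroDivisors_of_vp (IsLocalRing.ResidueField O) htf hvs hfg
  have hc := (cyc_of_sfc hfree (y := y) (r := rho k g) (s := t • rho k (y⁻¹ * g * y))
    (a := t • rho k (y⁻¹ * g * y)) (b := t • 1)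
    (by rw [mul_smul_comm, smul_mul_assoc, rho_commute hp.1])
    (by rw [mul_smul_comm, smul_mul_assoc, smul_mul_assoc, conj_rho, one_mul])).map
    (mapRingHom G f)
  rw [map_add, map_smul_eq, map_rho, map_rho, mapRingHom_single, map_one] at hc
  exact gauss_not_cyc O hO hp.1 hp.hi1 hp.hi2 hc

theorem rho_mem_grp {E : Subgroup G} {g : G} (h : g ∈ E) : rho k g ∈ grp k E :=
  sub_mem (single_mem_grp h 1) (one_mem _)

theorem not_cyc_pair {κ : Type} [Field κ] [NoZeroDivisors (MonoidAlgebra κ G)]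
    (φ : G →* Multiplicative ℤ) {g y : G} (hg : φ g = 1) (hy : φ y ≠ 1) (hp : Pair g y) :
    ¬ Cyc (rho κ g) (single y 1 + rho κ (y⁻¹ * g * y)) := by
  have hg1 : g ≠ 1 := fun h => hp.hi2 1 one_ne_zero (by simp [h])
  refine stafford φ hy (a := rho κ (y⁻¹ * g * y)) (b := 1) (rho_mem_grp hg)
    (rho_mem_grp (by simp [MonoidHom.mem_ker, hg])) (rho_ne_zero hg1)
    (rho_ne_zero (by simpa [mul_assoc, inv_mul_eq_one] using hg1)) (rho_commute hp.1)
    (by rw [conj_rho, one_mul]) fun c hc => ?_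
  rw [conj_rho'] at hc
  obtain ⟨n, hn⟩ := coprime_left hp.1 hp.hi1 hc
  obtain ⟨i, hi⟩ := mem_zpowers_of_rho hn
  have hi' : g ^ i = y * g * y⁻¹ := hi
  exact one_ne_zero (hp.2 1 i (by rw [conj_zpow', hi']; simp [mul_assoc])).1

variable (k) in
/-- the second entry of the row attached to a central commutator -/
noncomputable def sTwo (g g1 : G) : MonoidAlgebra k G :=
  single (g⁻¹ * g1⁻¹) 1 * rho k g * rho k g1

theorem sTwo_eq (g g1 : G) : sTwo k g g1 =
    rho k (g⁻¹ * g1⁻¹ * g * g1) + single (g⁻¹ * g1⁻¹) 1 * rho k g1 * rho k g := by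
  simp only [sTwo, rho, mul_sub, sub_mul, single_mul_single, mul_one, inv_mul_cancel_right,
    inv_mul_cancel, ← one_def]
  abel

theorem sTwo_h1 {g g1 : G} (h : g⁻¹ * g1⁻¹ * g * g1 ∈ Subgroup.center G) :
    rho k g * sTwo k g g1 = (rho k (g⁻¹ * g1⁻¹ * g * g1) +
      rho k g * (single (g⁻¹ * g1⁻¹) 1 * rho k g1)) * rho k g := by
  rw [sTwo_eq, mul_add, add_mul, rho_commute (Subgroup.mem_center_iff.1 h g)]
  simp only [mul_assoc]

theorem sTwo_h2 (g y : G) : single y 1 * sTwo k g (y⁻¹ * g * y) * single y⁻¹ 1 =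
    (single y 1 * (single (g⁻¹ * (y⁻¹ * g * y)⁻¹) 1 * rho k g) * single y⁻¹ 1) * rho k g := by
  have e : single y⁻¹ (1 : k) * rho k g = rho k (y⁻¹ * g * y) * single y⁻¹ 1 := by
    rw [rho_mul_single]; simp [mul_assoc]
  rw [mul_assoc _ (single y⁻¹ 1) (rho k g), e, sTwo]
  simp only [mul_assoc]

theorem map_sTwo {κ : Type} [CommRing κ] (f : k →+* κ) (g g1 : G) :
    mapRingHom G f (sTwo k g g1) = sTwo κ g g1 := by
  simp [sTwo, map_rho]

theorem not_cyc_two {κ : Type} [Field κ] [NoZeroDivisors (MonoidAlgebra κ G)]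
    (htf : ∀ g : G, g ≠ 1 → ¬ IsOfFinOrder g)
    (φ : G →* Multiplicative ℤ) {g y : G} (hg : φ g = 1) (hy : φ y ≠ 1)
    (hnc : ¬ Commute g (y⁻¹ * g * y))
    (hz : g⁻¹ * (y⁻¹ * g * y)⁻¹ * g * (y⁻¹ * g * y) ∈ Subgroup.center G) :
    ¬ Cyc (rho κ g) (single y 1 + sTwo κ g (y⁻¹ * g * y)) := by
  have hg1 : g ≠ 1 := fun h => hnc (h ▸ Commute.one_left _)
  have hg2 : y⁻¹ * g * y ≠ 1 := fun h => hnc (h ▸ Commute.one_right _)
  have hk : y⁻¹ * g * y ∈ φ.ker := by simp [MonoidHom.mem_ker, hg]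
  refine stafford φ hy (rho_mem_grp hg)
    (mul_mem (mul_mem (single_mem_grp (mul_mem (inv_mem hg) (inv_mem hk)) 1) (rho_mem_grp hg))
      (rho_mem_grp hk)) (rho_ne_zero hg1)
    (mul_ne_zero (single_mul_ne_zero (rho_ne_zero hg1) _) (rho_ne_zero hg2)) (sTwo_h1 hz)
    (sTwo_h2 g y) fun c hc => ?_
  rw [conj_rho', sTwo_eq, mul_add, ← eq_sub_iff_add_eq,
    ← mul_assoc (rho κ (y * g * y⁻¹)) _ (rho κ g), ← sub_mul] at hc
  set g1 := y⁻¹ * g * y with hg1def
  set u := g⁻¹ * g1⁻¹ * g * g1 with hu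
  have hu1 : u ≠ 1 := fun h0 => hnc (by
    rw [hu, mul_assoc, mul_assoc, inv_mul_eq_one, eq_inv_mul_iff_mul_eq] at h0
    exact h0.symm)
  obtain ⟨n, hn⟩ := coprime_left (Subgroup.mem_center_iff.1 hz g) (fun j hj ⟨i, hi⟩ => by
    have hi' : g ^ i = u ^ j := hi
    have h1 := central_zpow htf (n := g1) hu1 hz (by simp [hu, mul_assoc])
      (hi' ▸ Subgroup.pow_mem _ hz j)
    rw [h1, zpow_zero, ← zpow_natCast] at hi'
    exact hj (by exact_mod_cast zpow_eq_one_tf htf hu1 hi'.symm)) hc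
  obtain ⟨i, hi⟩ := mem_zpowers_of_rho hn
  have hi' : g ^ i = y * g * y⁻¹ := hi
  have h2 : Commute (y * g * y⁻¹) g := hi' ▸ (Commute.refl g).zpow_left i
  exact hnc (by simpa [hg1def, mul_assoc] using h2.conj y⁻¹)

variable (k) in
/-- the cubic used for an inverted element -/
noncomputable def cub (e : G) : MonoidAlgebra k G :=
  single e 1 * single e 1 * single e 1 - single e 1 * single e 1 + 1

theorem map_cub {κ : Type} [CommRing κ] (f : k →+* κ) (e : G) :
    mapRingHom G f (cub k e) = cub κ e := by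
  simp [cub]

theorem conj_cub (e y : G) :
    single y (1 : k) * cub k e * single y⁻¹ 1 = cub k (y * e * y⁻¹) := by
  simp [cub, mul_add, add_mul, mul_sub, sub_mul, single_mul_single, mul_assoc, ← one_def]

theorem cub_comm (e : G) : cub k e * cub k e⁻¹ = cub k e⁻¹ * cub k e := by
  have h : Commute (single e (1 : k)) (single e⁻¹ 1) :=
    single_commute_single (Commute.refl e).inv_right (Commute.refl _)
  have h1 : Commute (single e (1 : k)) (cub k e⁻¹) :=
    (((h.mul_right h).mul_right h).sub_right (h.mul_right h)).add_right (Commute.one_right _)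
  exact (((h1.mul_left h1).mul_left h1).sub_left (h1.mul_left h1)).add_left (Commute.one_left _)

theorem exists_functional {κ : Type} [Field κ] (htf : ∀ g : G, g ≠ 1 → ¬ IsOfFinOrder g) {e : G}
    (he : e ≠ 1) {α : κ} (hα : α ≠ 0) :
    ∃ l : MonoidAlgebra κ G →+ κ, l 1 = 1 ∧ ∀ x, l (x * single e 1) = α * l x := by
  classical
  let χ : G → κ := fun γ => if h : ∃ i : ℤ, e ^ i = γ then α ^ h.choose else 0
  have hχ : ∀ i : ℤ, χ (e ^ i) = α ^ i := fun i => by
    have h : ∃ j : ℤ, e ^ j = e ^ i := ⟨i, rfl⟩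
    simp only [χ, dif_pos h]
    rw [zpow_inj_tf htf he h.choose_spec]
  have hχ' : ∀ γ, χ (γ * e) = α * χ γ := fun γ => by
    by_cases h : ∃ i : ℤ, e ^ i = γ
    · obtain ⟨i, rfl⟩ := h
      rw [← zpow_add_one, hχ, hχ, zpow_add_one₀ hα, mul_comm]
    · have h' : ¬ ∃ i : ℤ, e ^ i = γ * e := fun ⟨i, hi⟩ =>
        h ⟨i - 1, by rw [zpow_sub_one, hi, mul_inv_cancel_right]⟩
      simp only [χ, dif_neg h, dif_neg h', mul_zero]
  refine ⟨liftNC (AddMonoidHom.id κ) χ, ?_, fun x => ?_⟩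
  · have := hχ 0
    rw [zpow_zero, zpow_zero] at this
    simp [one_def, this]
  · induction x using MonoidAlgebra.induction_linear with
    | zero => simp
    | add a b ha hb => rw [add_mul, map_add, map_add, ha, hb, mul_add]
    | single γ r => simp [single_mul_single, hχ', mul_left_comm]

theorem not_cyc_three {κ : Type} [Field κ] [IsAlgClosed κ] [NoZeroDivisors (MonoidAlgebra κ G)]
    (htf : ∀ g : G, g ≠ 1 → ¬ IsOfFinOrder g)
    (φ : G →* Multiplicative ℤ) {e y : G} (hg : φ e = 1) (hy : φ y ≠ 1) (he : e ≠ 1)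
    (h : y⁻¹ * e * y = e⁻¹) : ¬ Cyc (cub κ e) (single y 1 + cub κ e⁻¹) := by
  obtain ⟨α, hα⟩ : ∃ α : κ, α ^ 3 - α ^ 2 + 1 = 0 := by
    obtain ⟨α, hα⟩ := IsAlgClosed.exists_root
      (Polynomial.X ^ 3 - Polynomial.X ^ 2 + 1 : Polynomial κ) (by
        have : (Polynomial.X ^ 3 - Polynomial.X ^ 2 + 1 : Polynomial κ).degree = 3 := by
          compute_degree!
        rw [this]; norm_num)
    exact ⟨α, by simpa using hα⟩
  have hα0 : α ≠ 0 := fun h0 => by simp [h0] at hα
  have hβ : α⁻¹ ^ 3 - α⁻¹ ^ 2 + 1 ≠ 0 := fun h0 => by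
    have h1 : α ^ 3 - α + 1 = 0 := by
      have : α ^ 3 - α + 1 = α ^ 3 * (α⁻¹ ^ 3 - α⁻¹ ^ 2 + 1) := by field_simp; ring
      rw [this, h0, mul_zero]
    have h2 : α * (α - 1) = 0 := by linear_combination h1 - hα
    have h3 : α = 1 := sub_eq_zero.1 ((mul_eq_zero.1 h2).resolve_left hα0)
    simp [h3] at hα
  obtain ⟨l, hl1, hl⟩ := exists_functional htf he hα0
  have hl' : ∀ x, l (x * single e⁻¹ 1) = α⁻¹ * l x := fun x => by
    have := hl (x * single e⁻¹ 1)
    rw [mul_assoc, single_mul_single, inv_mul_cancel, mul_one, ← one_def, mul_one] at this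
    rw [this, inv_mul_cancel_left₀ hα0]
  have hr : ∀ x, l (x * cub κ e) = 0 := fun x => by
    simp only [cub, mul_add, mul_sub, ← mul_assoc, map_add, map_sub, hl, mul_one]
    linear_combination l x * hα
  have hs : ∀ x, l (x * cub κ e⁻¹) = (α⁻¹ ^ 3 - α⁻¹ ^ 2 + 1) * l x := fun x => by
    simp only [cub, mul_add, mul_sub, ← mul_assoc, map_add, map_sub, hl', mul_one]
    ring
  have h1 : y * e⁻¹ * y⁻¹ = e := by rw [← h]; simp [mul_assoc]
  have h2 : y * e * y⁻¹ = e⁻¹ := by
    have := congrArg Inv.inv h1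
    simpa [mul_assoc] using this
  have hs1 := hs 1
  rw [one_mul, hl1, mul_one] at hs1
  have hs0 : cub κ e⁻¹ ≠ 0 := fun h0 => hβ (by rw [← hs1, h0, map_zero])
  have hm : ∀ x ∈ φ.ker, cub κ x ∈ grp κ φ.ker := fun x hx =>
    have := single_mem_grp (κ := κ) hx 1
    add_mem (sub_mem (mul_mem (mul_mem this this) this) (mul_mem this this)) (one_mem _)
  refine stafford φ hy (a := cub κ e⁻¹) (b := 1) (hm e hg) (hm _ (inv_mem hg)) (fun h0 => hs0 ?_)
    hs0 (cub_comm e) (by rw [conj_cub, h1, one_mul]) fun c hc => ?_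
  · rw [← h2, ← conj_cub, h0, mul_zero, zero_mul]
  · have := congrArg l hc
    rw [conj_cub, h2, hs, hr, hs1] at this
    exact mul_ne_zero hβ hβ this

theorem exists_hom_of_infinite (hfg : ∀ H : Subgroup G, H.FG) (h : Infinite (Abelianization G)) :
    ∃ φ : G →* Multiplicative ℤ, ∃ y, φ y ≠ 1 := by
  obtain ⟨T, n, ψ, -, -, -, hfin, hadd, hker⟩ := exists_psi (⊤ : Subgroup G) (hfg ⊤)
  by_cases h0 : ∀ y, ψ y = 0
  · have hT : T = ⊤ := eq_top_iff.2 fun y _ => (hker y trivial).1 (h0 y)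
    rw [hT, Subgroup.relIndex_top_right] at hfin
    exact (hfin (Nat.card_eq_zero_of_infinite (α := Abelianization G))).elim
  · push Not at h0
    obtain ⟨y, hy⟩ := h0
    obtain ⟨i, hi⟩ := Function.ne_iff.1 hy
    exact ⟨MonoidHom.mk' (fun g => Multiplicative.ofAdd (ψ g i)) fun a b => by
      rw [hadd a trivial b trivial]; rfl, y, hi⟩

theorem comm_of_infinite [Nontrivial k] (htf : ∀ g : G, g ≠ 1 → ¬ IsOfFinOrder g)
    (hvs : ∃ H : Subgroup G, H.index ≠ 0 ∧ Group.IsSolvable H) (hfg : ∀ H : Subgroup G, H.FG)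
    (hinf : Infinite (Abelianization G)) (hfree : SFC (MonoidAlgebra k G)) :
    ∀ a b : G, a * b = b * a := by
  by_contra hna
  obtain ⟨φ, hφ⟩ := exists_hom_of_infinite hfg hinf
  obtain ⟨m, hm⟩ := Ideal.exists_maximal k
  let _ : Field (k ⧸ m) := Ideal.Quotient.field m
  let κ := AlgebraicClosure (k ⧸ m)
  let f : k →+* κ := (algebraMap (k ⧸ m) κ).comp (Ideal.Quotient.mk m)
  have := noZeroDivisors_of_vp κ htf hvs hfg
  obtain ⟨g, y, hg, hy, hp | ⟨h1, h2⟩ | ⟨h1, h2⟩⟩ := exists_graded htf hvs hfg hna φ hφ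
  · have hc := (cyc_of_sfc hfree (y := y) (r := rho k g) (s := rho k (y⁻¹ * g * y))
      (b := 1) (rho_commute hp.1) (by rw [conj_rho, one_mul])).map (mapRingHom G f)
    rw [map_add, map_rho, map_rho, mapRingHom_single, map_one] at hc
    exact not_cyc_pair φ hg hy hp hc
  · have hc := (cyc_of_sfc hfree (y := y) (b := 1) (cub_comm g)
      (by rw [conj_cub, one_mul, ← h2]; simp [mul_assoc])).map (mapRingHom G f)
    rw [map_add, map_cub, map_cub, mapRingHom_single, map_one] at hc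
    exact not_cyc_three htf φ hg hy h1 h2 hc
  · have hc := (cyc_of_sfc hfree (sTwo_h1 h2) (sTwo_h2 g y)).map (mapRingHom G f)
    rw [map_add, map_rho, map_sTwo, mapRingHom_single, map_one] at hc
    exact not_cyc_two htf φ hg hy h1 h2 hc

end Pool.Agent.Work.MP_819de9_al
end

-- merged part: Pool.Agent.Work.MP_819de9_al.Final
section
namespace Pool.Agent.Work.MP_819de9_al

theorem exists_of_not_sfc {R : Type} [Ring R] (h : ¬ SFC R) :
    ∃ (M : Type) (_ : AddCommGroup M) (_ : Module R M),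
      Nonempty ((M × R) ≃ₗ[R] (R × R)) ∧ Module.Finite R M ∧ Module.Projective R M ∧
        ¬ Module.Free R M := by
  unfold SFC at h
  push Not at h
  obtain ⟨M, i1, i2, ⟨e⟩, hM⟩ := h
  refine ⟨M, i1, i2, ⟨e⟩, ?_, ?_, hM⟩
  · exact Module.Finite.of_surjective ((LinearMap.fst R M R).comp e.symm.toLinearMap)
      (fun m => ⟨e (m, 0), by simp⟩)
  · exact Module.Projective.of_split (e.toLinearMap.comp (LinearMap.inl R M R))
      ((LinearMap.fst R M R).comp e.symm.toLinearMap) (by ext; simp)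

end Pool.Agent.Work.MP_819de9_al
end
end
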