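import Pool.Agent.Work.MP_819de9_al.Coprime

/-! Projective modules from idempotent ideals (Whitehead's construction). -/

set_option linter.unusedSectionVars false

namespace Pool.Agent.Work.MP_819de9_al

open MonoidAlgebra

theorem whitehead_abs {R F : Type} [Ring R] [AddCommGroup F] [Module R F] [Module.Projective R F]
    (f g : Module.End R F) (hgff : g * f * f = f) (hnil : ∀ x, ∃ n : ℕ, (g ^ n) x = 0)
    (hfree : ∀ (M : Type) [AddCommGroup M] [Module R M], Module.Projective R M → Module.Free R M) :
    (∃ (ψ : F →ₗ[R] R) (x : F), ψ (f x) = 1) ∨ ∀ v, ∃ x, v = x - f x := by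
  have hbij : Function.Bijective (1 - g : Module.End R F) := by
    constructor
    · rw [injective_iff_map_eq_zero]
      intro x hx
      obtain ⟨n, hn⟩ := hnil x
      have h1 : g x = x := (sub_eq_zero.1 hx).symm
      have h2 : ∀ m : ℕ, (g ^ m) x = x := fun m => by
        induction m with
        | zero => rfl
        | succ m ih => rw [pow_succ, Module.End.mul_apply, h1, ih]
      rw [← h2 n, hn]
    · intro x
      obtain ⟨n, hn⟩ := hnil x
      refine ⟨(∑ i ∈ Finset.range n, g ^ i) x, ?_⟩
      rw [← Module.End.mul_apply, mul_neg_geom_sum, LinearMap.sub_apply, hn, sub_zero]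
      rfl
  obtain ⟨u, hu⟩ : ∃ u : Module.End R F, u * (1 - g) = 1 :=
    ⟨(LinearEquiv.ofBijective _ hbij).symm.toLinearMap, LinearMap.ext fun x =>
      (LinearEquiv.ofBijective _ hbij).symm_apply_apply x⟩
  let s : Module.End R F := 1 - u * g * f
  have hs : s * (1 - f) = 1 := by
    have h1 : u * (1 - g) * f = f := by rw [hu, one_mul]
    have h2 : u * g * f * f = u * f := by rw [mul_assoc u, mul_assoc u, hgff]
    simp only [s, sub_mul, mul_sub, one_mul, mul_one, h2] at h1 ⊢
    rw [sub_eq_iff_eq_add] at h1
    rw [h1]; abel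
  let e : Module.End R F := 1 - (1 - f) * s
  have hse : ∀ x, e x ∈ LinearMap.ker s := fun x => by
    have : s * e = 0 := by rw [mul_sub, mul_one, ← mul_assoc, hs, one_mul, sub_self]
    exact congrArg (fun T : Module.End R F => T x) this
  have hef : e = (1 + (1 - f) * u * g) * f := by
    simp only [e, s]; noncomm_ring
  let π : F →ₗ[R] LinearMap.ker s := LinearMap.codRestrict _ e hse
  have hπ : ∀ p : LinearMap.ker s, π p = p := fun p => Subtype.ext (by
    show (p : F) - (1 - f) (s p) = p
    rw [LinearMap.mem_ker.1 p.2, map_zero, sub_zero])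
  have : Module.Free R (LinearMap.ker s) := hfree _
    (Module.Projective.of_split (LinearMap.ker s).subtype π (LinearMap.ext hπ))
  let B := Module.Free.chooseBasis R (LinearMap.ker s)
  rcases isEmpty_or_nonempty (Module.Free.ChooseBasisIndex R (LinearMap.ker s)) with h | ⟨⟨i⟩⟩
  · refine Or.inr fun v => ⟨s v, ?_⟩
    have h0 : π v = 0 := B.repr.injective (Subsingleton.elim _ _)
    have h1 : v - (1 - f) (s v) = 0 := congrArg Subtype.val h0
    rwa [sub_eq_zero] at h1
  · refine Or.inl ⟨(B.coord i) ∘ₗ π ∘ₗ (1 + (1 - f) * u * g), B i, ?_⟩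
    have h2 : (1 + (1 - f) * u * g : Module.End R F) (f (B i)) = B i := by
      rw [← Module.End.mul_apply, ← hef]
      exact congrArg Subtype.val (hπ (B i))
    rw [LinearMap.comp_apply, LinearMap.comp_apply, h2, hπ]
    simp

theorem whitehead {R k ι : Type} [Ring R] [CommRing k] [Nontrivial k] [Fintype ι] (ε : R →+* k)
    (a : ι → R) (ha : ∀ i, ε (a i) = 0) (b : ι → ι → ι → R)
    (hb : ∀ i, a i = ∑ j, ∑ l, a j * a l * b l j i)
    (hfree : ∀ (M : Type) [AddCommGroup M] [Module R M], Module.Projective R M → Module.Free R M) :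
    ∀ i, a i = 0 := by
  classical
  let f : Module.End R (List ι →₀ R) :=
    Finsupp.linearCombination R fun w => ∑ j, Finsupp.single (j :: w) (a j)
  let gv : List ι → (List ι →₀ R) := fun w => match w with
    | l :: j :: w' => ∑ i, Finsupp.single (i :: w') (b l j i)
    | _ => 0
  let g : Module.End R (List ι →₀ R) := Finsupp.linearCombination R gv
  have hf : ∀ w r, f (Finsupp.single w r) = ∑ j, Finsupp.single (j :: w) (r * a j) :=
    fun w r => by simp [f, Finset.smul_sum]
  have hg : ∀ l j w r, g (Finsupp.single (l :: j :: w) r) =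
      ∑ i, Finsupp.single (i :: w) (r * b l j i) := fun l j w r => by
    simp [g, gv, Finset.smul_sum]
  have hgff : g * f * f = f := by
    refine Finsupp.lhom_ext fun w r => ?_
    simp only [Module.End.mul_apply, hf, map_sum, hg]
    rw [Finset.sum_congr rfl fun j _ => Finset.sum_comm, Finset.sum_comm]
    refine Finset.sum_congr rfl fun i _ => ?_
    rw [hb i]
    simp only [Finset.mul_sum, Finsupp.single_finsetSum, mul_assoc]
  have hnil0 : ∀ (n : ℕ) (w : List ι) r, w.length < n → (g ^ n) (Finsupp.single w r) = 0 := by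
    intro n
    induction n with
    | zero => intro w r h; omega
    | succ n ih =>
      intro w r h
      rw [pow_succ, Module.End.mul_apply]
      match w, h with
      | [], _ => simp [g, gv]
      | [_], _ => simp [g, gv]
      | l :: j :: w', h =>
        rw [hg, map_sum]
        exact Finset.sum_eq_zero fun i _ => ih _ _ (by simp at h ⊢; omega)
  have hnil : ∀ x, ∃ n : ℕ, (g ^ n) x = 0 := fun x => by
    refine ⟨x.support.sup List.length + 1, ?_⟩
    have h : ∀ T : Module.End R (List ι →₀ R),
        T x = ∑ w ∈ x.support, T (Finsupp.single w (x w)) := fun T => by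
      conv_lhs => rw [← x.sum_single, Finsupp.sum, map_sum]
    rw [h]
    exact Finset.sum_eq_zero fun w hw =>
      hnil0 _ _ _ (Nat.lt_succ_of_le (Finset.le_sup (f := List.length) hw))
  have hε : ∀ (ψ : (List ι →₀ R) →ₗ[R] R) x, ε (ψ (f x)) = 0 := fun ψ x => by
    induction x using Finsupp.induction_linear with
    | zero => simp
    | add x y hx hy => rw [map_add, map_add, map_add, hx, hy, add_zero]
    | single w r =>
      rw [hf, map_sum, map_sum]
      refine Finset.sum_eq_zero fun j _ => ?_
      rw [← Finsupp.smul_single_one, map_smul, smul_eq_mul, map_mul, map_mul, ha, mul_zero,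
        zero_mul]
  obtain ⟨x, h1⟩ := (whitehead_abs f g hgff hnil hfree).resolve_left (fun ⟨ψ, x, h⟩ => by
    have := hε ψ x
    rw [h, map_one] at this
    exact one_ne_zero this) (Finsupp.single [] 1)
  have hfx : ∀ y : List ι →₀ R, f y [] = 0 ∧ ∀ j w, f y (j :: w) = y w * a j := fun y => by
    induction y using Finsupp.induction_linear with
    | zero => simp
    | add y z hy hz => simp [hy, hz, add_mul]
    | single w' r =>
      rw [hf]
      refine ⟨by simp [Finsupp.finset_sum_apply], fun j w => ?_⟩
      simp only [Finsupp.finset_sum_apply, Finsupp.single_apply, List.cons.injEq]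
      by_cases h : w' = w <;> simp [h]
  have hx0 : x [] = 1 := by
    have := DFunLike.congr_fun h1 []
    simpa [(hfx x).1] using this.symm
  have hx1 : ∀ j w, x (j :: w) = x w * a j := fun j w => by
    have := DFunLike.congr_fun h1 (j :: w)
    rw [Finsupp.sub_apply, (hfx x).2, Finsupp.single_eq_of_ne (by simp), eq_comm,
      sub_eq_zero] at this
    exact this
  have key : ∀ n, n ≤ x.support.sup List.length → ∀ w : List ι, w.length = n + 1 → x w = 0 :=
    fun n hn => Nat.decreasingInduction
      (motive := fun n _ => ∀ w : List ι, w.length = n + 1 → x w = 0)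
      (fun n _ ih w hw => by
        match w, hw with
        | i :: w', hw =>
          rw [hx1, hb i]
          simp only [Finset.mul_sum, ← mul_assoc, ← hx1]
          refine Finset.sum_eq_zero fun j _ => Finset.sum_eq_zero fun l _ => ?_
          rw [ih _ (by simp at hw ⊢; omega), zero_mul])
      (fun w hw => by
        by_contra h
        have := Finset.le_sup (f := List.length) (Finsupp.mem_support_iff.2 h)
        omega) hn
  intro i
  have := key 0 (Nat.zero_le _) [i] rfl
  rwa [hx1, hx0, one_mul] at this

variable {G : Type} [Group G] {k : Type} [CommRing k]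

theorem eq_bot_of_unit [Nontrivial k] (N : Subgroup G) [hN : N.Normal] (hfg : N.FG)
    (hu : IsUnit ((Nat.card (Abelianization N) : ℕ) : k))
    (hfree : ∀ (M : Type) [AddCommGroup M] [Module (MonoidAlgebra k G) M],
      Module.Projective (MonoidAlgebra k G) M → Module.Free (MonoidAlgebra k G) M) : N = ⊥ := by
  classical
  obtain ⟨S, hS⟩ := hfg
  let a : S → MonoidAlgebra k G := fun s => rho k (s : G)
  let I : Submodule (MonoidAlgebra k G)ᵐᵒᵖ (MonoidAlgebra k G) := Submodule.span _ (Set.range a)
  let J : Submodule (MonoidAlgebra k G)ᵐᵒᵖ (MonoidAlgebra k G) :=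
    Submodule.span _ (Set.range fun p : S × S => a p.1 * a p.2)
  have hIr : ∀ x ∈ I, ∀ r, x * r ∈ I := fun x hx r => I.smul_mem (MulOpposite.op r) hx
  have hJr : ∀ x ∈ J, ∀ r, x * r ∈ J := fun x hx r => J.smul_mem (MulOpposite.op r) hx
  have hmul : ∀ x y : G, rho k (x * y) = rho k x * single y 1 + rho k y := fun x y => by
    simp [rho, sub_mul, single_mul_single]
  have hI : ∀ n ∈ N, rho k n ∈ I := fun n hn => by
    rw [← hS] at hn
    induction hn using Subgroup.closure_induction with
    | mem x hx => exact Submodule.subset_span ⟨⟨x, hx⟩, rfl⟩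
    | one => simp [rho, ← one_def]
    | mul x y _ _ hx hy => rw [hmul]; exact I.add_mem (hIr _ hx _) hy
    | inv x _ hx =>
      have : rho k x⁻¹ = rho k x * -single x⁻¹ 1 := by
        simp [rho, sub_mul, single_mul_single, ← one_def]
      rw [this]; exact hIr _ hx _
  have hIl : ∀ r, ∀ n ∈ N, r * rho k n ∈ I := fun r n hn => by
    induction r using MonoidAlgebra.induction_linear with
    | zero => simp
    | add x y hx hy => rw [add_mul]; exact I.add_mem hx hy
    | single γ c =>
      have : single γ c * rho k n = rho k (γ * n * γ⁻¹) * single γ c := by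
        simp [rho, sub_mul, mul_sub, single_mul_single]
      rw [this]; exact hIr _ (hI _ (hN.conj_mem n hn γ)) _
  have hJ1 : ∀ j : S, ∀ x ∈ I, a j * x ∈ J := fun j x hx => by
    induction hx using Submodule.span_induction with
    | mem x hx => obtain ⟨l, rfl⟩ := hx; exact Submodule.subset_span ⟨(j, l), rfl⟩
    | zero => simp
    | add x y _ _ hx hy => rw [mul_add]; exact J.add_mem hx hy
    | smul r x _ hx =>
      have := hJr _ hx r.unop
      rwa [mul_assoc] at this
  have hJ2 : ∀ x ∈ I, ∀ r, ∀ n ∈ N, x * (r * rho k n) ∈ J := fun x hx => by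
    induction hx using Submodule.span_induction with
    | mem x hx => obtain ⟨j, rfl⟩ := hx; exact fun r n hn => hJ1 j _ (hIl r n hn)
    | zero => simp
    | add x y _ _ hx hy =>
      exact fun r n hn => by rw [add_mul]; exact J.add_mem (hx r n hn) (hy r n hn)
    | smul c x _ hx =>
      intro r n hn
      have := hx (c.unop * r) n hn
      rwa [mul_assoc, ← mul_assoc x] at this
  let Φ : N →* Multiplicative (MonoidAlgebra k G ⧸ J) :=
    MonoidHom.mk' (fun n => Multiplicative.ofAdd (J.mkQ (rho k (n : G)))) fun x y => by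
      rw [← ofAdd_add, ← map_add]
      congr 1
      refine (Submodule.Quotient.eq J).2 ?_
      have := hJ2 _ (hI _ x.2) 1 _ y.2
      convert this using 1
      simp [rho, sub_mul, mul_sub, single_mul_single]
      abel
  have hJ : ∀ n ∈ N, rho k n ∈ J := fun n hn => by
    have h1 : Φ ⟨n, hn⟩ ^ Nat.card (Abelianization N) = 1 := by
      rw [← Abelianization.lift_apply_of Φ, ← map_pow, pow_card_eq_one', map_one]
    have h2 : J.mkQ (Nat.card (Abelianization N) • rho k n) = 0 := by
      rw [map_nsmul]; exact h1
    obtain ⟨c, hc⟩ := hu.exists_right_inv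
    have h3 := hJr _ ((Submodule.Quotient.mk_eq_zero J).1 h2) (single 1 c)
    rwa [nsmul_eq_mul', mul_assoc, natCast_def, single_mul_single, hc, mul_one, ← one_def,
      mul_one] at h3
  have hb : ∀ i : S, ∃ c : S × S → (MonoidAlgebra k G)ᵐᵒᵖ,
      ∑ p, c p • (a p.1 * a p.2) = a i := fun i =>
    (Submodule.mem_span_range_iff_exists_fun _).1 (hJ _ (hS ▸ Subgroup.subset_closure i.2))
  choose c hc using hb
  have h0 := whitehead (aug k G) a (fun i => aug_rho _) (fun l j i => (c i (j, l)).unop)
    (fun i => by rw [← hc i, Fintype.sum_prod_type]; rfl) hfree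
  rw [← hS, Subgroup.closure_eq_bot_iff]
  intro s hs
  by_contra h
  exact rho_ne_zero h (h0 ⟨s, hs⟩)

end Pool.Agent.Work.MP_819de9_al
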